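import Pool.Agent.T3h73.SL.Stm
import Pool.Agent.N864.RC.Pnt
import Pool.Agent.Y772.DK.Cc

/-!
# The prime ideal theorem; sums of ray class characters over primes
-/

set_option autoImplicit false
set_option linter.all false

open NumberField IsDedekindDomain Filter Topology

namespace Pool.Agent.T3h73.SL.Den0

open Pool.Agent.Y773 (VM cc)
open Pool.Agent.Y773.G (IsModChar)
open Pool.Agent.Y772.DK (NN NN_finite cc_mul sum_VM_le)

variable {K : Type} [Field K] [NumberField K]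

/-- the primes of norm at most `x` -/
theorem fin_le (x : ℝ) : {q : Pl K | (Ideal.absNorm q.asIdeal : ℝ) ≤ x}.Finite := by
  have h1 : {I : Ideal (𝓞 K) | Ideal.absNorm I ≤ ⌊x⌋₊}.Finite :=
    Ideal.finite_setOfPred_absNorm_le ⌊x⌋₊
  refine Set.Finite.of_finite_image (f := fun q : Pl K => q.asIdeal) (h1.subset ?_) ?_
  · rintro _ ⟨q, hq, rfl⟩
    exact Nat.le_floor hq
  · intro q _ q' _ h
    exact HeightOneSpectrum.ext h

open scoped Classical in
/-- the prime ideals of norm `n` -/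
noncomputable def SP (K : Type) [Field K] [NumberField K] (n : ℕ) : Finset (Ideal (𝓞 K)) :=
  (NN_finite (K := K) n).toFinset.filter fun 𝔞 => 𝔞.IsPrime

theorem mem_SP {n : ℕ} {𝔞 : Ideal (𝓞 K)} : 𝔞 ∈ SP K n ↔ Ideal.absNorm 𝔞 = n ∧ 𝔞.IsPrime := by
  classical
  unfold SP
  rw [Finset.mem_filter, Set.Finite.mem_toFinset]
  rfl

theorem norm_pos (q : Pl K) : 1 ≤ Ideal.absNorm q.asIdeal := by
  rw [Nat.one_le_iff_ne_zero, Ne, Ideal.absNorm_eq_zero_iff]
  exact q.ne_bot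

/-- the sum over the primes of norm at most `x` -/
theorem sum_eq {E : Type} [AddCommMonoid E] (F : Ideal (𝓞 K) → E) (x : ℝ) :
    ∑ᶠ q ∈ {q : Pl K | (Ideal.absNorm q.asIdeal : ℝ) ≤ x}, F q.asIdeal =
      ∑ n ∈ Finset.Icc 1 ⌊x⌋₊, ∑ 𝔞 ∈ SP K n, F 𝔞 := by
  classical
  have h1 : ∑ n ∈ Finset.Icc 1 ⌊x⌋₊, ∑ 𝔞 ∈ SP K n, F 𝔞 =
      ∑ 𝔞 ∈ (Finset.Icc 1 ⌊x⌋₊).biUnion (SP K), F 𝔞 := by
    rw [Finset.sum_biUnion]
    intro i _ j _ hij
    show Disjoint _ _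
    rw [Finset.disjoint_left]
    intro 𝔞 h1 h2
    rw [mem_SP] at h1 h2
    exact hij (h1.1.symm.trans h2.1)
  have h2 : (Finset.Icc 1 ⌊x⌋₊).biUnion (SP K) =
      (fin_le (K := K) x).toFinset.image fun q => q.asIdeal := by
    ext 𝔞
    simp only [Finset.mem_biUnion, Finset.mem_Icc, Finset.mem_image, Set.Finite.mem_toFinset,
      Set.mem_setOf_eq, mem_SP]
    constructor
    · rintro ⟨n, ⟨h3, h4⟩, h5, h6⟩
      refine ⟨⟨𝔞, h6, ?_⟩, ?_, rfl⟩
      · rintro rfl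
        rw [Ideal.absNorm_bot] at h5
        omega
      · show (Ideal.absNorm 𝔞 : ℝ) ≤ x
        rw [h5]
        exact (Nat.le_floor_iff' (by omega)).1 h4
    · rintro ⟨q, hq, rfl⟩
      exact ⟨Ideal.absNorm q.asIdeal, ⟨norm_pos q, Nat.le_floor hq⟩, rfl, q.isPrime⟩
  rw [h1, h2, finsum_mem_eq_finite_toFinset_sum _ (fin_le x), Finset.sum_image]
  intro q _ q' _ h
  exact HeightOneSpectrum.ext h

/-- the contribution of the prime powers -/
theorem diff_le (η : Ideal (𝓞 K) →*₀ ℂ) (hη : ∀ 𝔞, ‖η 𝔞‖ ≤ 1) {n : ℕ} (hn : 1 ≤ n) :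
    ‖(ArithmeticFunction.vonMangoldt n : ℂ) * cc η n -
      ∑ 𝔞 ∈ SP K n, (Real.log (Ideal.absNorm 𝔞) : ℂ) * η 𝔞‖ ≤
      Module.finrank ℚ K * (if n.Prime then 0 else ArithmeticFunction.vonMangoldt n) := by
  classical
  rw [mul_comm (ArithmeticFunction.vonMangoldt n : ℂ), cc_mul, finsum_mem_eq_finite_toFinset_sum _
    (NN_finite n)]
  have hVM : ∀ 𝔞 ∈ SP K n, (Real.log (Ideal.absNorm 𝔞) : ℂ) * η 𝔞 = (VM 𝔞 : ℂ) * η 𝔞 := by
    intro 𝔞 h𝔞
    obtain ⟨h1, h2⟩ := mem_SP.1 h𝔞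
    have h3 : 𝔞 ≠ ⊥ := by
      rintro rfl
      rw [Ideal.absNorm_bot] at h1
      omega
    have h4 := Pool.Agent.Y772.DK.VM_pow (k := 1) (Ideal.prime_of_isPrime h3 h2) one_ne_zero
    rw [pow_one] at h4
    rw [h4]
  rw [Finset.sum_congr rfl hVM]
  unfold SP
  rw [← Finset.sum_filter_add_sum_filter_not (NN_finite (K := K) n).toFinset
    (fun 𝔞 : Ideal (𝓞 K) => 𝔞.IsPrime), add_sub_cancel_left]
  split_ifs with hp
  · rw [mul_zero, Finset.sum_eq_zero, norm_zero]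
    intro 𝔞 h𝔞
    rw [Finset.mem_filter, Set.Finite.mem_toFinset] at h𝔞
    have h1 : Ideal.absNorm 𝔞 = n := h𝔞.1
    exact absurd (Ideal.isPrime_of_irreducible_absNorm (by rw [h1]; exact hp)) h𝔞.2
  · refine (norm_sum_le_of_le (f := fun 𝔞 => (VM 𝔞 : ℂ) * η 𝔞) (n := fun 𝔞 => VM 𝔞) _
      fun 𝔞 _ => ?_).trans ?_
    · rw [norm_mul, Complex.norm_real, Real.norm_of_nonneg (Pool.Agent.Y772.DK.VM_nonneg _)]
      exact mul_le_of_le_one_right (Pool.Agent.Y772.DK.VM_nonneg _) (hη 𝔞)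
    · refine le_trans ?_ (sum_VM_le (K := K) n)
      rw [finsum_mem_eq_finite_toFinset_sum _ (NN_finite n)]
      exact Finset.sum_le_sum_of_subset_of_nonneg (Finset.filter_subset _ _)
        fun _ _ _ => Pool.Agent.Y772.DK.VM_nonneg _

theorem psum (η : Ideal (𝓞 K) →*₀ ℂ) (hη : ∀ 𝔞, ‖η 𝔞‖ ≤ 1) {δ : ℂ}
    (T : Tendsto (fun x : ℝ => (∑ n ∈ Finset.Icc 1 ⌊x⌋₊,
      (ArithmeticFunction.vonMangoldt n : ℂ) * cc η n) / (x : ℂ)) atTop (𝓝 δ)) :
    Tendsto (fun x : ℝ => (∑ᶠ q ∈ {q : Pl K | (Ideal.absNorm q.asIdeal : ℝ) ≤ x},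
      (Real.log (Ideal.absNorm q.asIdeal) : ℂ) * η q.asIdeal) / (x : ℂ)) atTop (𝓝 δ) := by
  classical
  obtain ⟨C, hC⟩ := Chebyshev.psi_sub_theta_le_mul_sqrt
  set d : ℝ := (Module.finrank ℚ K : ℝ) with hd
  have h1 : Tendsto (fun x : ℝ => d * (C * (Real.sqrt x)⁻¹)) atTop (𝓝 0) := by
    have := (Real.tendsto_sqrt_atTop.inv_tendsto_atTop.const_mul C).const_mul d
    simpa using this
  have h2 : Tendsto (fun x : ℝ => (∑ n ∈ Finset.Icc 1 ⌊x⌋₊,
      (ArithmeticFunction.vonMangoldt n : ℂ) * cc η n) / (x : ℂ) -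
      (∑ᶠ q ∈ {q : Pl K | (Ideal.absNorm q.asIdeal : ℝ) ≤ x},
      (Real.log (Ideal.absNorm q.asIdeal) : ℂ) * η q.asIdeal) / (x : ℂ)) atTop (𝓝 0) := by
    refine squeeze_zero_norm' ?_ h1
    refine (eventually_ge_atTop (1 : ℝ)).mono fun x hx => ?_
    have hx0 : 0 < x := by linarith
    rw [sum_eq (fun 𝔞 => (Real.log (Ideal.absNorm 𝔞) : ℂ) * η 𝔞) x, ← sub_div,
      ← Finset.sum_sub_distrib, norm_div, Complex.norm_real, Real.norm_of_nonneg hx0.le,
      div_le_iff₀ hx0]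
    have h3 : ‖∑ n ∈ Finset.Icc 1 ⌊x⌋₊, ((ArithmeticFunction.vonMangoldt n : ℂ) * cc η n -
        ∑ 𝔞 ∈ SP K n, (Real.log (Ideal.absNorm 𝔞) : ℂ) * η 𝔞)‖ ≤
        ∑ n ∈ Finset.Icc 1 ⌊x⌋₊, d * (if n.Prime then 0 else ArithmeticFunction.vonMangoldt n) :=
      norm_sum_le_of_le _ fun n hn => diff_le η hη (Finset.mem_Icc.1 hn).1
    refine h3.trans ?_
    rw [← Finset.mul_sum]
    have h4 : ∑ n ∈ Finset.Icc 1 ⌊x⌋₊, (if n.Prime then 0 else ArithmeticFunction.vonMangoldt n) =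
        Chebyshev.psi x - Chebyshev.theta x := by
      rw [Chebyshev.psi_sub_theta_eq_sum_not_prime, Finset.sum_filter]
      have : Finset.Icc 1 ⌊x⌋₊ = Finset.Ioc 0 ⌊x⌋₊ := by
        ext n
        simp only [Finset.mem_Icc, Finset.mem_Ioc]
        omega
      rw [this]
      refine Finset.sum_congr rfl fun n _ => ?_
      by_cases hp : n.Prime <;> simp [hp]
    rw [h4]
    have h5 := hC x
    have h6 : d * (C * (Real.sqrt x)⁻¹) * x = d * (C * Real.sqrt x) := by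
      have : (Real.sqrt x)⁻¹ * x = Real.sqrt x := by
        have hs : 0 < Real.sqrt x := Real.sqrt_pos.2 hx0
        rw [inv_mul_eq_div, div_eq_iff hs.ne', Real.mul_self_sqrt hx0.le]
      calc d * (C * (Real.sqrt x)⁻¹) * x = d * (C * ((Real.sqrt x)⁻¹ * x)) := by ring
        _ = _ := by rw [this]
    rw [h6]
    exact mul_le_mul_of_nonneg_left h5 (Nat.cast_nonneg _)
  have h3 := T.sub h2
  rw [sub_zero] at h3
  refine h3.congr fun x => ?_
  ring

theorem sg_zero (x : K) : Pool.Agent.Y773.G.sg (fun _ => 0) x = 1 := by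
  unfold Pool.Agent.Y773.G.sg
  simp

theorem le_one {𝔪 : Ideal (𝓞 K)} {η : Ideal (𝓞 K) →*₀ ℂ} {k : ℕ} (hk : k ≠ 0)
    (h : ∀ 𝔞, IsCoprime 𝔞 𝔪 → η 𝔞 ^ k = 1) (hs : ∀ 𝔞, η 𝔞 ≠ 0 ↔ IsCoprime 𝔞 𝔪)
    (𝔞 : Ideal (𝓞 K)) : ‖η 𝔞‖ ≤ 1 := by
  by_cases h0 : η 𝔞 = 0
  · rw [h0, norm_zero]
    exact zero_le_one
  · have h1 := congrArg norm (h 𝔞 ((hs 𝔞).1 h0))
    rw [norm_pow, norm_one] at h1
    exact ((pow_eq_one_iff_of_nonneg (norm_nonneg _) hk).1 h1).le

open scoped Classical in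
/-- the trivial character -/
noncomputable def triv (𝔪 : Ideal (𝓞 K)) (hm : 𝔪 ≠ ⊤) : Ideal (𝓞 K) →*₀ ℂ where
  toFun 𝔞 := if IsCoprime 𝔞 𝔪 then 1 else 0
  map_zero' := by
    rw [if_neg]
    intro h
    apply hm
    have := isCoprime_zero_left.1 h
    rwa [Ideal.isUnit_iff] at this
  map_one' := if_pos isCoprime_one_left
  map_mul' a b := by
    by_cases h1 : IsCoprime a 𝔪
    · by_cases h2 : IsCoprime b 𝔪
      · rw [if_pos h1, if_pos h2, if_pos (IsCoprime.mul_left h1 h2), mul_one]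
      · rw [if_neg h2, mul_zero, if_neg]
        exact fun h => h2 h.of_mul_left_right
    · rw [if_neg h1, zero_mul, if_neg]
      exact fun h => h1 h.of_mul_left_left

theorem t_DEN0 : S_DEN0 := by
  classical
  intro K _ _
  set 𝔪 : Ideal (𝓞 K) := Ideal.span {(2 : 𝓞 K)} with hm
  have hm0 : 𝔪 ≠ ⊥ := by
    rw [hm, Ne, Ideal.span_singleton_eq_bot]
    exact two_ne_zero
  have hm1 : 𝔪 ≠ ⊤ := by
    intro h
    have h1 : Ideal.absNorm 𝔪 = 1 := by rw [h, Ideal.absNorm_top]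
    rw [hm, Ideal.absNorm_span_singleton] at h1
    have h2 : (2 : 𝓞 K) = algebraMap ℤ (𝓞 K) 2 := by simp
    rw [h2, Algebra.norm_algebraMap, Int.natAbs_pow] at h1
    have h3 := Nat.pow_eq_one.1 h1
    rcases h3 with h3 | h3
    · norm_num at h3
    · have : 0 < Module.finrank ℤ (𝓞 K) := by
        rw [RingOfIntegers.rank]
        exact Module.finrank_pos
      omega
  have hmod : IsModChar 𝔪 (fun _ => 0) (triv 𝔪 hm1) := by
    refine ⟨hm0, hm1, fun _ => zero_le_one, fun _ _ => rfl, fun 𝔞 => ?_, fun x _ hx => ?_⟩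
    · show (if IsCoprime 𝔞 𝔪 then (1 : ℂ) else 0) ≠ 0 ↔ _
      split_ifs with h <;> simp [h]
    · rw [sg_zero]
      refine if_pos ?_
      rw [Ideal.isCoprime_iff_exists]
      exact ⟨x, Ideal.mem_span_singleton_self x, -(x - 1), neg_mem hx, by ring⟩
  obtain ⟨δ, -, -, h1, T⟩ := Pool.Agent.N864.RC.rc1 K 𝔪 _ _ hmod
  have hδ : δ = 1 := h1 fun 𝔞 h => if_pos h
  rw [hδ, Complex.ofReal_one] at T
  have hle : ∀ 𝔞, ‖triv 𝔪 hm1 𝔞‖ ≤ 1 := by
    intro 𝔞
    show ‖(if IsCoprime 𝔞 𝔪 then (1 : ℂ) else 0)‖ ≤ 1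
    split_ifs <;> simp
  have T2 := psum _ hle T
  have T3 := (Complex.continuous_re.tendsto _).comp T2
  rw [Complex.one_re] at T3
  -- the primes dividing `𝔪`
  have hfin : {q : Pl K | ¬ IsCoprime q.asIdeal 𝔪}.Finite := by
    have h2 : {q : Pl K | ¬ IsCoprime q.asIdeal 𝔪} ⊆ {q : Pl K | q.asIdeal ∣ 𝔪} := by
      intro q hq
      by_contra h
      apply hq
      rw [Ideal.isCoprime_iff_sup_eq]
      by_contra h3
      apply h
      have h4 := q.isMaximal.eq_of_le h3 le_sup_left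
      rw [Set.mem_setOf_eq, Ideal.dvd_iff_le, h4]
      exact le_sup_right
    exact (Ideal.finite_factors hm0).subset h2
  have hlog : ∀ q : Pl K, 0 ≤ Real.log (Ideal.absNorm q.asIdeal) := fun q =>
    Real.log_natCast_nonneg _
  have hre : ∀ x : ℝ, ((∑ᶠ q ∈ {q : Pl K | (Ideal.absNorm q.asIdeal : ℝ) ≤ x},
      (Real.log (Ideal.absNorm q.asIdeal) : ℂ) * triv 𝔪 hm1 q.asIdeal) / (x : ℂ)).re =
      (∑ q ∈ (fin_le (K := K) x).toFinset,
        if IsCoprime q.asIdeal 𝔪 then Real.log (Ideal.absNorm q.asIdeal) else 0) / x := by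
    intro x
    rw [finsum_mem_eq_finite_toFinset_sum _ (fin_le x), Complex.div_ofReal_re, Complex.re_sum]
    congr 1
    refine Finset.sum_congr rfl fun q _ => ?_
    show ((Real.log (Ideal.absNorm q.asIdeal) : ℂ) * (if IsCoprime q.asIdeal 𝔪 then (1 : ℂ) else 0)).re = _
    split_ifs
    · rw [mul_one, Complex.ofReal_re]
    · rw [mul_zero, Complex.zero_re]
  set C : ℝ := ∑ q ∈ hfin.toFinset, Real.log (Ideal.absNorm q.asIdeal) with hC
  have T4 : Tendsto (fun x : ℝ => C / x) atTop (𝓝 0) := tendsto_const_nhds.div_atTop tendsto_id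
  have T5 := T3.add T4
  rw [add_zero] at T5
  refine tendsto_of_tendsto_of_tendsto_of_le_of_le' T3 T5 ?_ ?_
  · refine (eventually_gt_atTop (0 : ℝ)).mono fun x hx => ?_
    rw [Function.comp_apply, hre, finsum_mem_eq_finite_toFinset_sum _ (fin_le x)]
    refine div_le_div_of_nonneg_right (Finset.sum_le_sum fun q _ => ?_) hx.le
    split_ifs
    · exact le_rfl
    · exact hlog q
  · refine (eventually_gt_atTop (0 : ℝ)).mono fun x hx => ?_
    rw [Function.comp_apply, hre, finsum_mem_eq_finite_toFinset_sum _ (fin_le x), ← add_div]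
    refine div_le_div_of_nonneg_right ?_ hx.le
    have h6 : ∑ q ∈ (fin_le (K := K) x).toFinset,
        (if q ∈ hfin.toFinset then Real.log (Ideal.absNorm q.asIdeal) else 0) ≤ C := by
      rw [← Finset.sum_filter, hC]
      refine Finset.sum_le_sum_of_subset_of_nonneg ?_ fun q _ _ => hlog q
      intro q hq
      exact (Finset.mem_filter.1 hq).2
    refine le_trans ?_ (add_le_add_right h6 _)
    rw [← Finset.sum_add_distrib]
    refine Finset.sum_le_sum fun q _ => ?_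
    have hq := hlog q
    by_cases c1 : IsCoprime q.asIdeal 𝔪
    · rw [if_pos c1]
      split_ifs <;> linarith
    · rw [if_neg c1, if_pos (hfin.mem_toFinset.2 c1)]
      linarith

end Pool.Agent.T3h73.SL.Den0
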