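import Pool.Agent.T3h73.SL.Stm
import Pool.Agent.H723R3.EuclidLocal

/-! Project SL, task RES (helper93): the residue field of the completion. -/

set_option autoImplicit false
set_option linter.all false

namespace Pool.Agent.T3h73.SL.Res

open IsDedekindDomain NumberField IsLocalRing

variable {K : Type} [Field K] [NumberField K] (v : HeightOneSpectrum (𝓞 K))

/-- the ring of integers of the completion -/
abbrev Ov : Type := v.adicCompletionIntegers K

theorem mem_max_iff (x : Ov v) : x ∈ maximalIdeal (Ov v) ↔ Valued.v (x : v.adicCompletion K) < 1 := by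
  rw [mem_maximalIdeal, mem_nonunits_iff]
  have h1 : IsUnit x ↔ Valued.v (x : v.adicCompletion K) = 1 :=
    HeightOneSpectrum.adicCompletionIntegers.isUnit_iff_valued_eq_one
  have h2 : Valued.v (x : v.adicCompletion K) ≤ 1 :=
    (HeightOneSpectrum.mem_adicCompletionIntegers (𝓞 K) K v).1 x.2
  rw [h1]
  exact ⟨fun h => lt_of_le_of_ne h2 h, fun h => h.ne⟩

/-- reduction of global integers -/
noncomputable def redMap : 𝓞 K →+* ResidueField (Ov v) :=
  (residue (Ov v)).comp (algebraMap (𝓞 K) (Ov v))

theorem redMap_eq_zero (r : 𝓞 K) : redMap v r = 0 ↔ r ∈ v.asIdeal := by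
  unfold redMap
  rw [RingHom.comp_apply, residue_eq_zero_iff, mem_max_iff]
  have h1 : ((algebraMap (𝓞 K) (Ov v) r : Ov v) : v.adicCompletion K) =
      algebraMap K (v.adicCompletion K) (algebraMap (𝓞 K) K r) := by
    rw [HeightOneSpectrum.algebraMap_adicCompletion]
    rfl
  rw [h1, Pool.Agent.H723R3.valued_algebraMap]
  exact HeightOneSpectrum.valuation_lt_one_iff_mem v r

theorem redMap_surjective : Function.Surjective (redMap v) := by
  intro y
  obtain ⟨x, rfl⟩ := residue_surjective y
  obtain ⟨r, hr⟩ := Pool.Agent.H723R3.exists_approx_int (R := 𝓞 K) v x.2 1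
  refine ⟨r, ?_⟩
  unfold redMap
  rw [RingHom.comp_apply, ← sub_eq_zero, ← map_sub, residue_eq_zero_iff, mem_max_iff]
  have h1 : ((algebraMap (𝓞 K) (Ov v) r - x : Ov v) : v.adicCompletion K) =
      algebraMap (𝓞 K) (v.adicCompletion K) r - x := rfl
  rw [h1]
  rw [Units.val_one] at hr
  exact hr

theorem card_residue : Nat.card (ResidueField (Ov v)) = Ideal.absNorm v.asIdeal := by
  have hker : RingHom.ker (redMap v) = v.asIdeal := by
    ext r
    rw [RingHom.mem_ker]
    exact redMap_eq_zero v r
  have e := RingHom.quotientKerEquivOfSurjective (redMap_surjective v)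
  rw [← Nat.card_congr e.toEquiv, hker]
  rfl

theorem t_RES : S_RES := by
  intro K _ _ v
  exact card_residue v

end Pool.Agent.T3h73.SL.Res
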