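import Pool.Agent.T3h73.SL.Nwt
import Pool.Agent.T3h73.SL.T_RES

/-! Project SL, task TAM (helper93): the completion at a place not above `ℓ`. -/

set_option autoImplicit false
set_option linter.all false

namespace Pool.Agent.T3h73.SL.Tam

open IsDedekindDomain NumberField WithZero IsLocalRing
open Pool.Agent.T3h73.SL.Nwt
open Pool.Agent.Y713.SE (Pw)

lemma pw_iff {ℓ : ℕ} (hℓ : ℓ ≠ 0) {a : WithZero (Multiplicative ℤ)} (ha : a ≠ 0) :
    Pw ℓ a ↔ (ℓ : ℤ) ∣ WithZero.log a := by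
  constructor
  · rintro ⟨b, rfl⟩
    rw [WithZero.log_pow]
    exact ⟨WithZero.log b, by simp⟩
  · rintro ⟨c, hc⟩
    refine ⟨WithZero.exp c, ?_⟩
    rw [← WithZero.exp_nsmul, ← WithZero.exp_log ha, hc]
    simp

lemma one_of_pow {ℓ : ℕ} (hℓ : ℓ ≠ 0) {a : WithZero (Multiplicative ℤ)} (h : a ^ ℓ = 1) :
    a = 1 := by
  have ha : a ≠ 0 := by
    rintro rfl
    rw [zero_pow hℓ] at h
    exact zero_ne_one h
  have h1 := congrArg WithZero.log h
  rw [WithZero.log_pow, WithZero.log_one, nsmul_eq_mul] at h1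
  have h2 : WithZero.log a = 0 := by
    rcases mul_eq_zero.1 h1 with h | h
    · exact absurd (by exact_mod_cast h) hℓ
    · exact h
  rw [← WithZero.exp_log ha, h2, WithZero.exp_zero]

variable {K : Type} [Field K] [NumberField K] (v : Pl K)

/-- the valuation modulo `ℓ` -/
noncomputable def vm (ℓ : ℕ) : (v.adicCompletion K)ˣ →* Multiplicative (ZMod ℓ) where
  toFun x := Multiplicative.ofAdd ((WithZero.log (vv v (x : v.adicCompletion K)) : ℤ) : ZMod ℓ)
  map_one' := by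
    rw [Units.val_one, map_one, WithZero.log_one]
    simp
  map_mul' x y := by
    have hx : vv v (x : v.adicCompletion K) ≠ 0 := (Valuation.ne_zero_iff _).2 x.ne_zero
    have hy : vv v (y : v.adicCompletion K) ≠ 0 := (Valuation.ne_zero_iff _).2 y.ne_zero
    rw [Units.val_mul, map_mul, WithZero.log_mul hx hy, Int.cast_add, ofAdd_add]

lemma vm_ker {ℓ : ℕ} (hℓ : ℓ ≠ 0) : (vm v ℓ).ker = Evn ℓ v := by
  ext x
  rw [MonoidHom.mem_ker]
  show Multiplicative.ofAdd ((WithZero.log (vv v (x : v.adicCompletion K)) : ℤ) : ZMod ℓ) = 1 ↔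
    Pw ℓ (vv v (x : v.adicCompletion K))
  rw [pw_iff hℓ ((Valuation.ne_zero_iff _).2 x.ne_zero), ← ZMod.intCast_zmod_eq_zero_iff_dvd]
  rfl

lemma exists_val (n : ℤ) : ∃ x : (v.adicCompletion K)ˣ, vv v (x : v.adicCompletion K) = exp n := by
  obtain ⟨x, hx⟩ := HeightOneSpectrum.valuedAdicCompletion_surjective K v (exp n)
  have hx0 : x ≠ 0 := by
    rintro rfl
    rw [map_zero] at hx
    exact exp_ne_zero hx.symm
  exact ⟨Units.mk0 x hx0, hx⟩

lemma vm_surj (ℓ : ℕ) : Function.Surjective (vm v ℓ) := by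
  intro y
  obtain ⟨n, hn⟩ := ZMod.intCast_surjective (Multiplicative.toAdd y)
  obtain ⟨x, hx⟩ := exists_val v n
  refine ⟨x, ?_⟩
  show Multiplicative.ofAdd ((WithZero.log (vv v (x : v.adicCompletion K)) : ℤ) : ZMod ℓ) = y
  rw [hx, WithZero.log_exp, hn]
  rfl

lemma evn_index {ℓ : ℕ} (hℓ : ℓ ≠ 0) : (Evn ℓ v).index = ℓ := by
  rw [← vm_ker v hℓ, Subgroup.index_ker, MonoidHom.range_eq_top.2 (vm_surj v ℓ)]
  rw [Nat.card_congr (Subgroup.topEquiv (G := Multiplicative (ZMod ℓ))).toEquiv]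
  rw [Nat.card_congr Multiplicative.toAdd, Nat.card_zmod]

/-- the group of units -/
def Un : Subgroup (v.adicCompletion K)ˣ where
  carrier := {x | vv v (x : v.adicCompletion K) = 1}
  mul_mem' := by
    intro a b ha hb
    show vv v ((a * b : (v.adicCompletion K)ˣ) : v.adicCompletion K) = 1
    rw [Units.val_mul, map_mul, show vv v (a : v.adicCompletion K) = 1 from ha,
      show vv v (b : v.adicCompletion K) = 1 from hb, mul_one]
  one_mem' := by
    show vv v ((1 : (v.adicCompletion K)ˣ) : v.adicCompletion K) = 1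
    rw [Units.val_one, map_one]
  inv_mem' := by
    intro a ha
    show vv v ((a⁻¹ : (v.adicCompletion K)ˣ) : v.adicCompletion K) = 1
    rw [Units.val_inv_eq_inv_val, map_inv₀, show vv v (a : v.adicCompletion K) = 1 from ha, inv_one]

lemma mem_Un (x : (v.adicCompletion K)ˣ) : x ∈ Un v ↔ vv v (x : v.adicCompletion K) = 1 := Iff.rfl

/-- the ring of integers -/
abbrev O : Type := (vv v).valuationSubring

/-- units as units of the ring of integers -/
noncomputable def toO : Un v →* (O v)ˣ where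
  toFun x := ⟨⟨((x : (v.adicCompletion K)ˣ) : v.adicCompletion K), ((mem_Un v _).1 x.2).le⟩,
    ⟨(((x : (v.adicCompletion K)ˣ)⁻¹ : (v.adicCompletion K)ˣ) : v.adicCompletion K),
      ((mem_Un v _).1 (inv_mem x.2)).le⟩,
    Subtype.ext (by simp), Subtype.ext (by simp)⟩
  map_one' := by
    apply Units.ext
    apply Subtype.ext
    rfl
  map_mul' x y := by
    apply Units.ext
    apply Subtype.ext
    rfl

/-- reduction of units -/
noncomputable def red : Un v →* (ResidueField (O v))ˣ :=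
  (Units.map (residue (O v) : O v →* ResidueField (O v))).comp (toO v)

lemma red_val (x : Un v) : ((red v x : (ResidueField (O v))ˣ) : ResidueField (O v)) =
    residue (O v) ⟨((x : (v.adicCompletion K)ˣ) : v.adicCompletion K), ((mem_Un v _).1 x.2).le⟩ := rfl

lemma res_zero (x : O v) : residue (O v) x = 0 ↔ vv v (x : v.adicCompletion K) < 1 := by
  rw [residue_eq_zero_iff]
  exact Res.mem_max_iff v x

lemma red_surj : Function.Surjective (red v) := by
  intro y
  obtain ⟨x, hx⟩ := residue_surjective (y : ResidueField (O v))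
  have h1 : vv v (x : v.adicCompletion K) = 1 := by
    have h2 : ¬ vv v (x : v.adicCompletion K) < 1 := by
      rw [← res_zero, hx]
      exact y.ne_zero
    exact le_antisymm x.2 (not_lt.1 h2)
  have hx0 : (x : v.adicCompletion K) ≠ 0 := by
    intro h
    rw [h, map_zero] at h1
    exact zero_ne_one h1
  refine ⟨⟨Units.mk0 _ hx0, h1⟩, ?_⟩
  apply Units.ext
  rw [red_val, ← hx]
  rfl

lemma red_eq_one (x : Un v) : red v x = 1 ↔
    vv v (((x : (v.adicCompletion K)ˣ) : v.adicCompletion K) - 1) < 1 := by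
  rw [Units.ext_iff, red_val, Units.val_one, ← sub_eq_zero]
  have h1 : residue (O v) ⟨((x : (v.adicCompletion K)ˣ) : v.adicCompletion K),
      ((mem_Un v _).1 x.2).le⟩ - 1 = residue (O v)
      (⟨((x : (v.adicCompletion K)ˣ) : v.adicCompletion K), ((mem_Un v _).1 x.2).le⟩ - 1) := by
    rw [map_sub, map_one]
  rw [h1, res_zero]
  rfl

lemma Un_pow {ℓ : ℕ} (hℓ : ℓ ≠ 0) {z : (v.adicCompletion K)ˣ} (h : z ^ ℓ ∈ Un v) : z ∈ Un v := by
  rw [mem_Un, Units.val_pow_eq_pow_val, map_pow] at h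
  rw [mem_Un]
  exact one_of_pow hℓ h

lemma pk_comap {ℓ : ℕ} (hℓ : ℓ ≠ 0) (hv : vv v (ℓ : v.adicCompletion K) = 1) :
    (Pk ℓ (v.adicCompletion K)ˣ).subgroupOf (Un v) = (Pk ℓ (ResidueField (O v))ˣ).comap (red v) := by
  ext x
  rw [Subgroup.mem_subgroupOf, Subgroup.mem_comap]
  constructor
  · rintro ⟨z, hz⟩
    have hz' : z ^ ℓ = (x : (v.adicCompletion K)ˣ) := hz
    have hzU : z ∈ Un v := Un_pow v hℓ (by rw [hz']; exact x.2)
    refine ⟨red v ⟨z, hzU⟩, ?_⟩
    show red v ⟨z, hzU⟩ ^ ℓ = red v x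
    rw [← map_pow]
    congr 1
    exact Subtype.ext hz'
  · rintro ⟨c, hc⟩
    obtain ⟨z, rfl⟩ := red_surj v c
    have hc' : red v z ^ ℓ = red v x := hc
    have h1 : red v (x * (z ^ ℓ)⁻¹) = 1 := by
      rw [map_mul, map_inv, map_pow, hc', mul_inv_cancel]
    rw [red_eq_one] at h1
    obtain ⟨y, hy⟩ := near_pow v ℓ hℓ _ (by rw [hv, one_pow]; exact h1)
    have hy0 : y ≠ 0 := by
      rintro rfl
      rw [zero_pow hℓ] at hy
      exact Units.ne_zero _ hy
    refine ⟨Units.mk0 y hy0 * z, ?_⟩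
    show (Units.mk0 y hy0 * (z : (v.adicCompletion K)ˣ)) ^ ℓ = x
    have h2 : (Units.mk0 y hy0) ^ ℓ = ((x * (z ^ ℓ)⁻¹ : Un v) : (v.adicCompletion K)ˣ) := by
      apply Units.ext
      rw [hy]
      rfl
    rw [mul_pow, h2]
    simp

lemma evn_eq {ℓ : ℕ} (hℓ : ℓ ≠ 0) : Un v ⊔ Pk ℓ (v.adicCompletion K)ˣ = Evn ℓ v := by
  apply le_antisymm
  · rw [sup_le_iff]
    constructor
    · intro x hx
      show Pw ℓ (vv v (x : v.adicCompletion K))
      rw [(mem_Un v x).1 hx]
      exact Pw.one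
    · rintro x ⟨z, rfl⟩
      show Pw ℓ (vv v ((z ^ ℓ : (v.adicCompletion K)ˣ) : v.adicCompletion K))
      rw [Units.val_pow_eq_pow_val, map_pow]
      exact Pw.pow _
  · intro x hx
    have hx' : Pw ℓ (vv v (x : v.adicCompletion K)) := hx
    have hx0 : vv v (x : v.adicCompletion K) ≠ 0 := (Valuation.ne_zero_iff _).2 x.ne_zero
    rw [pw_iff hℓ hx0] at hx'
    obtain ⟨c, hc⟩ := hx'
    obtain ⟨z, hz⟩ := exists_val v c
    have h1 : x * (z ^ ℓ)⁻¹ ∈ Un v := by
      rw [mem_Un, Units.val_mul, map_mul, Units.val_inv_eq_inv_val, map_inv₀,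
        Units.val_pow_eq_pow_val, map_pow, hz, ← exp_log hx0, hc, ← exp_nsmul]
      rw [show ℓ • c = (ℓ : ℤ) * c by simp]
      exact mul_inv_cancel₀ exp_ne_zero
    have h2 : x = (x * (z ^ ℓ)⁻¹) * z ^ ℓ := by simp
    rw [h2]
    exact Subgroup.mul_mem_sup h1 ⟨z, rfl⟩

lemma index_pk_fin {ℓ : ℕ} (hℓ : ℓ ≠ 0) {k : Type} [Field k] [Finite k] (ζ : k)
    (hζ : IsPrimitiveRoot ζ ℓ) : (Pk ℓ kˣ).index = ℓ := by
  haveI : NeZero ℓ := ⟨hℓ⟩
  unfold Pk
  rw [Subgroup.index_range]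
  have h1 : (powMonoidHom ℓ : kˣ →* kˣ).ker = rootsOfUnity ℓ k := by
    ext x
    rw [MonoidHom.mem_ker, mem_rootsOfUnity]
    rfl
  rw [h1]
  exact hζ.card_rootsOfUnity

lemma prim_red {ℓ : ℕ} (hℓ : ℓ.Prime) (hv : vv v (ℓ : v.adicCompletion K) = 1)
    (ζ : v.adicCompletion K) (hζ : IsPrimitiveRoot ζ ℓ) :
    ∃ z : ResidueField (O v), IsPrimitiveRoot z ℓ := by
  have hp1 : vv v ζ = 1 := by
    have h1 := congrArg (vv v) hζ.pow_eq_one
    rw [map_pow, map_one] at h1
    exact one_of_pow hℓ.ne_zero h1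
  let z0 : O v := ⟨ζ, hp1.le⟩
  refine ⟨residue (O v) z0, ?_⟩
  have hne : residue (O v) z0 ≠ 1 := by
    intro h
    have h1 : vv v (1 - ζ) < 1 := by
      have h2 : residue (O v) (1 - z0) = 0 := by rw [map_sub, h, map_one, sub_self]
      rw [res_zero] at h2
      exact h2
    obtain ⟨n, rfl⟩ : ∃ n, ℓ = n + 1 := ⟨ℓ - 1, by have := hℓ.pos; omega⟩
    have h3 := hζ.prod_one_sub_pow_eq_order
    have h4 : vv v (∏ k ∈ Finset.range n, (1 - ζ ^ (k + 1))) = 1 := by
      rw [h3, ← hv, Nat.cast_add, Nat.cast_one]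
    rw [map_prod] at h4
    have hn : 0 ∈ Finset.range n := by
      have := hℓ.two_le
      rw [Finset.mem_range]; omega
    rw [← Finset.mul_prod_erase _ _ hn] at h4
    have h5 : ∏ k ∈ (Finset.range n).erase 0, vv v (1 - ζ ^ (k + 1)) ≤ 1 := by
      apply Finset.prod_le_one'
      intro k _
      refine (Valuation.map_sub _ _ _).trans (max_le (by rw [map_one]) ?_)
      rw [map_pow, hp1, one_pow]
    have h6 : vv v (1 - ζ ^ (0 + 1)) < 1 := by rw [zero_add, pow_one]; exact h1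
    have h7 : vv v (1 - ζ ^ (0 + 1)) * ∏ k ∈ (Finset.range n).erase 0, vv v (1 - ζ ^ (k + 1)) < 1 :=
      lt_of_le_of_lt (mul_le_of_le_one_right' h5) h6
    exact h7.ne h4
  have hpow : residue (O v) z0 ^ ℓ = 1 := by
    rw [← map_pow]
    have : z0 ^ ℓ = 1 := Subtype.ext hζ.pow_eq_one
    rw [this, map_one]
  haveI : Fact ℓ.Prime := ⟨hℓ⟩
  have h8 : orderOf (residue (O v) z0) = ℓ := orderOf_eq_prime hpow hne
  rw [← h8]
  exact IsPrimitiveRoot.orderOf _

lemma finite_res : Finite (ResidueField (O v)) := by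
  apply Nat.finite_of_card_ne_zero
  have h1 := Res.card_residue v
  have h2 : Nat.card (ResidueField (O v)) = Ideal.absNorm v.asIdeal := h1
  rw [h2]
  have := NumberField.HeightOneSpectrum.one_lt_absNorm v
  omega

theorem t_TAM : S_TAM := by
  intro ℓ hℓ K _ _ ζ hζ v hv
  have hv' : vv v (ℓ : v.adicCompletion K) = 1 := by
    rw [← hv, ← Pool.Agent.H723R3.valued_algebraMap]
    congr 1
    exact (map_natCast (algebraMap K (v.adicCompletion K)) ℓ).symm
  have hζ' : IsPrimitiveRoot (algebraMap K (v.adicCompletion K) ζ) ℓ :=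
    hζ.map_of_injective (algebraMap K (v.adicCompletion K)).injective
  obtain ⟨z, hz⟩ := prim_red v hℓ hv' _ hζ'
  haveI := finite_res v
  have h1 := evn_index v hℓ.ne_zero
  refine ⟨?_, h1⟩
  have hle : Pk ℓ (v.adicCompletion K)ˣ ≤ Evn ℓ v := by
    rw [← evn_eq v hℓ.ne_zero]; exact le_sup_right
  rw [← Subgroup.relIndex_mul_index hle, h1, ← evn_eq v hℓ.ne_zero, Subgroup.relIndex_sup_right]
  unfold Subgroup.relIndex
  rw [pk_comap v hℓ.ne_zero hv', Subgroup.index_comap_of_surjective _ (red_surj v),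
    index_pk_fin hℓ.ne_zero z hz, sq]

end Pool.Agent.T3h73.SL.Tam
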