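import Pool.Agent.T3h73.SL.Ord
import Pool.Agent.T3h73.SL.T_TAM

/-! Project SL, task CNT (helper93): the group of elements of valuation divisible by `ℓ` outside a
large finite set. -/

set_option autoImplicit false
set_option linter.all false

namespace Pool.Agent.T3h73.SL.Cnt

open IsDedekindDomain NumberField WithZero
open Pool.Agent.Y713.SE (Pw)
open Pool.Agent.T3h73.SL.Tam (pw_iff)

variable {K : Type} [Field K] [NumberField K]

/-- generation modulo `ℓ`-th powers -/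
def Gen (ℓ n : ℕ) (H : Set Kˣ) : Prop :=
  ∃ g : Fin n → Kˣ, ∀ x ∈ H, ∃ (e : Fin n → ℤ) (z : Kˣ), x = (∏ i, g i ^ e i) * z ^ ℓ

lemma Gen.index {ℓ n : ℕ} (hℓ : ℓ ≠ 0) {H : Subgroup Kˣ} (h : Gen ℓ n (H : Set Kˣ)) :
    (Pk ℓ Kˣ).relIndex H ≠ 0 ∧ (Pk ℓ Kˣ).relIndex H ≤ ℓ ^ n := by
  classical
  obtain ⟨g, hg⟩ := h
  haveI : NeZero ℓ := ⟨hℓ⟩
  have hg' : ∀ q : H ⧸ (Pk ℓ Kˣ).subgroupOf H, ∃ (e : Fin n → ℤ) (z : Kˣ),
      ((q.out : H) : Kˣ) = (∏ i, g i ^ e i) * z ^ ℓ := fun q => hg _ (q.out).2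
  choose e z hez using hg'
  let F : H ⧸ (Pk ℓ Kˣ).subgroupOf H → (Fin n → ZMod ℓ) := fun q i => ((e q i : ℤ) : ZMod ℓ)
  have hF : Function.Injective F := by
    intro q q' hqq
    rw [← Quotient.out_eq' q, ← Quotient.out_eq' q']
    apply QuotientGroup.eq.2
    rw [Subgroup.mem_subgroupOf]
    have h1 : ∀ i, ∃ k : ℤ, e q' i = e q i + ℓ * k := by
      intro i
      have h2 : ((e q i : ℤ) : ZMod ℓ) = ((e q' i : ℤ) : ZMod ℓ) := congrFun hqq i
      rw [ZMod.intCast_eq_intCast_iff_dvd_sub] at h2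
      obtain ⟨k, hk⟩ := h2
      exact ⟨k, by linarith⟩
    choose k hk using h1
    refine ⟨(∏ i, g i ^ k i) * ((z q)⁻¹ * z q'), ?_⟩
    show ((∏ i, g i ^ k i) * ((z q)⁻¹ * z q')) ^ ℓ = ((q.out : H) : Kˣ)⁻¹ * ((q'.out : H) : Kˣ)
    rw [hez q, hez q']
    have h3 : ∏ i, g i ^ e q' i = (∏ i, g i ^ e q i) * (∏ i, g i ^ k i) ^ ℓ := by
      rw [← Finset.prod_pow, ← Finset.prod_mul_distrib]
      refine Finset.prod_congr rfl fun i _ => ?_
      rw [hk i, zpow_add, mul_comm (ℓ : ℤ) (k i), zpow_mul, zpow_natCast]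
    rw [h3, mul_pow, mul_pow, inv_pow]
    rw [mul_inv]
    simp only [mul_comm, mul_left_comm, mul_assoc]
    rw [mul_inv_cancel_left]
  have hfin : Finite (H ⧸ (Pk ℓ Kˣ).subgroupOf H) := Finite.of_injective F hF
  have h4 : (Pk ℓ Kˣ).relIndex H = Nat.card (H ⧸ (Pk ℓ Kˣ).subgroupOf H) := rfl
  rw [h4]
  constructor
  · exact Nat.card_pos.ne'
  · calc Nat.card (H ⧸ (Pk ℓ Kˣ).subgroupOf H) ≤ Nat.card (Fin n → ZMod ℓ) :=
          Nat.card_le_card_of_injective F hF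
      _ = ℓ ^ n := by
          rw [Nat.card_fun, Nat.card_zmod, Nat.card_eq_fintype_card, Fintype.card_fin]

/-- the logarithm of the valuation -/
noncomputable def vl (w : Pl K) : Kˣ →* Multiplicative ℤ where
  toFun x := Multiplicative.ofAdd (WithZero.log (w.valuation K (x : K)))
  map_one' := by
    rw [Units.val_one, map_one, WithZero.log_one]
    rfl
  map_mul' x y := by
    have hx : w.valuation K (x : K) ≠ 0 := (Valuation.ne_zero_iff _).2 x.ne_zero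
    have hy : w.valuation K (y : K) ≠ 0 := (Valuation.ne_zero_iff _).2 y.ne_zero
    rw [Units.val_mul, map_mul, WithZero.log_mul hx hy, ofAdd_add]

lemma vl_one_iff (w : Pl K) (x : Kˣ) : vl w x = 1 ↔ w.valuation K (x : K) = 1 := by
  have hx : w.valuation K (x : K) ≠ 0 := (Valuation.ne_zero_iff _).2 x.ne_zero
  have h1 : vl w x = 1 ↔ WithZero.log (w.valuation K (x : K)) = 0 := Iff.rfl
  rw [h1]
  constructor
  · intro h
    rw [← WithZero.exp_log hx, h, WithZero.exp_zero]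
  · intro h
    rw [h, WithZero.log_one]

/-- `T`-units -/
def TU (T : Finset (Pl K)) : Subgroup Kˣ where
  carrier := {x | ∀ v, v ∉ T → vl v x = 1}
  mul_mem' := by
    intro a b ha hb v hv
    rw [map_mul, ha v hv, hb v hv, one_mul]
  one_mem' := by
    intro v hv
    rw [map_one]
  inv_mem' := by
    intro a ha v hv
    rw [map_inv, ha v hv, inv_one]

lemma mem_TU (T : Finset (Pl K)) (x : Kˣ) : x ∈ TU T ↔ ∀ v, v ∉ T → vl v x = 1 := Iff.rfl

lemma gen_base (ℓ : ℕ) : Gen ℓ (Units.rank K + 1) ((TU (∅ : Finset (Pl K)) : Subgroup Kˣ) : Set Kˣ) := by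
  classical
  obtain ⟨t, ht⟩ := IsCyclic.exists_generator (α := Units.torsion K)
  let ι' : (𝓞 K)ˣ →* Kˣ := Units.map (algebraMap (𝓞 K) K : 𝓞 K →* K)
  refine ⟨Fin.cons (ι' (t : (𝓞 K)ˣ)) (fun i => ι' (Units.fundSystem K i)), ?_⟩
  intro x hx
  have hv : ∀ v : Pl K, v.valuation K (x : K) = 1 := fun v =>
    (vl_one_iff v x).1 (hx v (Finset.notMem_empty v))
  obtain ⟨a, ha⟩ := HeightOneSpectrum.mem_integers_of_valuation_le_one (R := 𝓞 K) K (x : K)
    (fun v => (hv v).le)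
  obtain ⟨b, hb⟩ := HeightOneSpectrum.mem_integers_of_valuation_le_one (R := 𝓞 K) K
    ((x⁻¹ : Kˣ) : K) (fun v => by
      rw [Units.val_inv_eq_inv_val, map_inv₀, hv v, inv_one])
  have hab : a * b = 1 := by
    apply FaithfulSMul.algebraMap_injective (𝓞 K) K
    rw [map_mul, ha, hb, map_one, Units.mul_inv]
  let u : (𝓞 K)ˣ := ⟨a, b, hab, by rw [mul_comm]; exact hab⟩
  have hu : ι' u = x := Units.ext ha
  obtain ⟨⟨ζ, e⟩, hζe, -⟩ := Units.exist_unique_eq_mul_prod K u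
  obtain ⟨k, hk⟩ := Subgroup.mem_zpowers_iff.1 (ht ζ)
  refine ⟨Fin.cons k e, 1, ?_⟩
  rw [Fin.prod_univ_succ]
  simp only [Fin.cons_zero, Fin.cons_succ, one_pow, mul_one]
  rw [← hu, hζe, map_mul, map_prod]
  congr 1
  · rw [← hk, ← map_zpow]
    rfl
  · refine Finset.prod_congr rfl fun i _ => ?_
    rw [map_zpow]

lemma gen_step {ℓ n : ℕ} {T : Finset (Pl K)} (w : Pl K)
    (h : Gen ℓ n ((TU T : Subgroup Kˣ) : Set Kˣ)) (T' : Finset (Pl K)) (hT' : ∀ v, v ∉ T → v = w ∨ v ∉ T') :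
    Gen ℓ (n + 1) ((TU T' : Subgroup Kˣ) : Set Kˣ) := by
  obtain ⟨g, hg⟩ := h
  obtain ⟨⟨a, ha⟩, hgen⟩ := IsCyclic.exists_generator (α := (TU T').map (vl w))
  obtain ⟨g0, hg0, hga⟩ := ha
  refine ⟨Fin.cons g0 g, ?_⟩
  intro x hx
  have h1 := hgen ⟨vl w x, ⟨x, hx, rfl⟩⟩
  obtain ⟨k, hk⟩ := Subgroup.mem_zpowers_iff.1 h1
  have hk' : a ^ k = vl w x := congrArg Subtype.val hk
  have h2 : x * (g0 ^ k)⁻¹ ∈ TU T := by
    intro v hv
    rcases hT' v hv with rfl | hv'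
    · rw [map_mul, map_inv, map_zpow, hga, hk', mul_inv_cancel]
    · exact (mul_mem hx (inv_mem (zpow_mem hg0 k))) v hv'
  obtain ⟨e, z, hez⟩ := hg _ h2
  refine ⟨Fin.cons k e, z, ?_⟩
  rw [Fin.prod_univ_succ]
  simp only [Fin.cons_zero, Fin.cons_succ]
  rw [mul_assoc, ← hez, mul_comm x, mul_inv_cancel_left]

lemma gen_TU (ℓ : ℕ) (T : Finset (Pl K)) :
    Gen ℓ (Units.rank K + 1 + T.card) ((TU T : Subgroup Kˣ) : Set Kˣ) := by
  classical
  induction T using Finset.induction_on with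
  | empty => rw [Finset.card_empty, add_zero]; exact gen_base ℓ
  | insert w T hw ih =>
    rw [Finset.card_insert_of_notMem hw, ← add_assoc]
    apply gen_step w ih
    intro v hv
    by_cases h : v = w
    · exact Or.inl h
    · exact Or.inr (by rw [Finset.mem_insert]; tauto)

theorem t_CNT : S_CNT := by
  intro ℓ hℓ hℓ2 K _ _ ζ hζ
  classical
  obtain ⟨T₀, hT₀⟩ := Ord.exists_elt (K := K)
  refine ⟨T₀, fun T hT => ?_⟩
  have hA : ∀ m : Pl K → ℤ, {v | m v ≠ 0}.Finite →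
      ∃ x : Kˣ, ∀ v, v ∉ T → v.valuation K (x : K) = WithZero.exp (-(m v)) := by
    intro m hm
    obtain ⟨x, hx⟩ := hT₀ m hm
    exact ⟨x, fun v hv => hx v fun h => hv (hT h)⟩
  have hgen : Gen ℓ (Units.rank K + 1 + T.card) ((Sg ℓ T (fun _ => ⊤) : Subgroup Kˣ) : Set Kˣ) := by
    obtain ⟨g, hg⟩ := gen_TU (K := K) ℓ T
    refine ⟨g, fun x hx => ?_⟩
    have h1 : ∀ v, v ∉ T → Pw ℓ (v.valuation K (x : K)) := hx.2
    have hx0 : ∀ v : Pl K, v.valuation K (x : K) ≠ 0 := fun v =>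
      (Valuation.ne_zero_iff _).2 x.ne_zero
    -- the exponents
    let m : Pl K → ℤ := fun v => if v ∈ T then 0 else -(WithZero.log (v.valuation K (x : K)) / ℓ)
    have hm : {v | m v ≠ 0}.Finite := by
      refine (HeightOneSpectrum.Support.finite (𝓞 K) (x : K)).union
        (HeightOneSpectrum.Support.finite (𝓞 K) (((x⁻¹ : Kˣ) : K))) |>.subset ?_
      intro v hv
      by_contra hcon
      apply hv
      rw [Set.mem_union, not_or] at hcon
      have h2 : v.valuation K (x : K) = 1 := by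
        have h3 : ¬ 1 < v.valuation K (x : K) := hcon.1
        have h4 : ¬ 1 < v.valuation K ((x⁻¹ : Kˣ) : K) := hcon.2
        rw [Units.val_inv_eq_inv_val, map_inv₀] at h4
        refine le_antisymm (not_lt.1 h3) ?_
        by_contra h5
        exact h4 ((one_lt_inv₀ (zero_lt_iff.2 (hx0 v))).2 (not_le.1 h5))
      simp only [m]
      rw [h2, WithZero.log_one]
      simp
    obtain ⟨y, hy⟩ := hA m hm
    have h6 : x * (y ^ ℓ)⁻¹ ∈ TU T := by
      intro v hv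
      rw [vl_one_iff, Units.val_mul, map_mul, Units.val_inv_eq_inv_val, map_inv₀,
        Units.val_pow_eq_pow_val, map_pow, hy v hv]
      simp only [m]
      rw [if_neg hv, neg_neg]
      obtain ⟨c, hc⟩ := (pw_iff hℓ.ne_zero (hx0 v)).1 (h1 v hv)
      have hℓ0 : (ℓ : ℤ) ≠ 0 := by exact_mod_cast hℓ.ne_zero
      rw [hc, Int.mul_ediv_cancel_left _ hℓ0, ← exp_log (hx0 v), hc, ← exp_nsmul, nsmul_eq_mul]
      exact mul_inv_cancel₀ exp_ne_zero
    obtain ⟨e, z, hez⟩ := hg _ h6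
    refine ⟨e, z * y, ?_⟩
    rw [mul_pow, ← mul_assoc, ← hez, inv_mul_cancel_right]
  obtain ⟨hne, hle⟩ := hgen.index hℓ.ne_zero
  refine ⟨hA, hne, ?_⟩
  have hreal : InfinitePlace.nrRealPlaces K = 0 :=
    NumberField.InfinitePlace.IsPrimitiveRoot.nrRealPlaces_eq_zero_of_two_lt (lt_of_le_of_ne hℓ.two_le (Ne.symm hℓ2)) hζ
  have hn := InfinitePlace.card_add_two_mul_card_eq_rank K
  have hc := InfinitePlace.card_eq_nrRealPlaces_add_nrComplexPlaces K
  have hpos : 0 < Fintype.card (InfinitePlace K) := Fintype.card_pos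
  have hr : Units.rank K + 1 = Fintype.card (InfinitePlace K) := by
    unfold Units.rank
    omega
  calc (Pk ℓ Kˣ).relIndex (Sg ℓ T (fun _ => ⊤)) ^ 2 ≤ (ℓ ^ (Units.rank K + 1 + T.card)) ^ 2 :=
        Nat.pow_le_pow_left hle 2
    _ = ℓ ^ (2 * T.card + Module.finrank ℚ K) := by
        rw [← pow_mul]
        congr 1
        omega

end Pool.Agent.T3h73.SL.Cnt
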