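import Pool.Agent.T3h73.SL.Stm

/-! Project SL, task PRD (helper93): the norms of the places above `ℓ`. -/

set_option autoImplicit false
set_option linter.all false

namespace Pool.Agent.T3h73.SL.Prd

open IsDedekindDomain NumberField

theorem t_PRD : S_PRD := by
  intro ℓ hℓ K _ _ S e hS he
  have hℓ0 : (ℓ : 𝓞 K) ≠ 0 := by exact_mod_cast hℓ.ne_zero
  have hI : (Ideal.span {(ℓ : 𝓞 K)} : Ideal (𝓞 K)) ≠ 0 := by
    rw [Ne, Ideal.zero_eq_bot, Ideal.span_singleton_eq_bot]; exact hℓ0
  have hc : ∀ v : Pl K, (Associates.mk v.asIdeal).count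
      (Associates.mk (Ideal.span {(ℓ : 𝓞 K)} : Ideal (𝓞 K))).factors = e v := by
    intro v
    have h1 := he v
    have h2 : v.valuation K (ℓ : K) = v.intValuation (ℓ : 𝓞 K) := by
      rw [← HeightOneSpectrum.valuation_of_algebraMap (K := K) v (ℓ : 𝓞 K)]
      congr 1
    rw [h2, HeightOneSpectrum.intValuation_if_neg v hℓ0, WithZero.exp_inj, neg_inj] at h1
    exact_mod_cast h1
  have hf := Ideal.finprod_heightOneSpectrum_factorization hI
  have h3 : ∏ᶠ v : HeightOneSpectrum (𝓞 K), v.maxPowDividing (Ideal.span {(ℓ : 𝓞 K)}) =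
      ∏ v ∈ S, v.maxPowDividing (Ideal.span {(ℓ : 𝓞 K)}) := by
    apply finprod_eq_prod_of_mulSupport_subset
    intro v hv
    apply hS v
    intro hv1
    apply hv
    show v.maxPowDividing _ = 1
    unfold HeightOneSpectrum.maxPowDividing
    rw [hc v]
    have h4 := he v
    rw [hv1, ← WithZero.exp_zero, WithZero.exp_inj] at h4
    have : e v = 0 := by omega
    rw [this, pow_zero]
  rw [h3] at hf
  have h5 := congrArg Ideal.absNorm hf
  rw [map_prod, Ideal.absNorm_span_natCast, RingOfIntegers.rank] at h5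
  rw [← h5]
  refine Finset.prod_congr rfl fun v _ => ?_
  unfold HeightOneSpectrum.maxPowDividing
  rw [map_pow, hc v]

end Pool.Agent.T3h73.SL.Prd
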