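import Pool.Agent.T3h73.SL.T_DEN0

/-!
# The primes at which a character of order `ℓ` is trivial have density `1/ℓ`
-/

set_option autoImplicit false
set_option linter.all false

open NumberField IsDedekindDomain Filter Topology

namespace Pool.Agent.T3h73.SL.Den1

open Pool.Agent.Y773.G (IsModChar)
open Pool.Agent.T3h73.SL.Den0 (fin_le psum le_one sg_zero)

/-- the sum of the powers of a root of unity -/
theorem avg {ℓ : ℕ} (hℓ : ℓ ≠ 0) {z : ℂ} (hz : z = 0 ∨ z ^ ℓ = 1) :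
    (∑ j ∈ Finset.Icc 1 ℓ, z ^ j) = if z = 1 then (ℓ : ℂ) else 0 := by
  split_ifs with h
  · rw [h]
    simp
  · have h1 : ∑ j ∈ Finset.Icc 1 ℓ, z ^ j = z * ∑ j ∈ Finset.range ℓ, z ^ j := by
      rw [Finset.mul_sum]
      have : Finset.Icc 1 ℓ = Finset.Ico 1 (ℓ + 1) := by
        ext n
        simp only [Finset.mem_Icc, Finset.mem_Ico]
        omega
      rw [this, Finset.sum_Ico_eq_sum_range]
      refine Finset.sum_congr (by simp) fun j _ => ?_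
      rw [pow_add, pow_one]
    rw [h1]
    rcases hz with hz | hz
    · rw [hz, zero_mul]
    · have h2 := mul_geom_sum z ℓ
      rw [hz, sub_self] at h2
      rcases mul_eq_zero.1 h2 with h3 | h3
      · exact absurd (sub_eq_zero.1 h3) h
      · rw [h3, mul_zero]

variable {K : Type} [Field K] [NumberField K]

/-- the sum over a subset of the primes -/
theorem cond_sum (P : Pl K → Prop) [DecidablePred P] (f : Pl K → ℝ) (x : ℝ) :
    ∑ᶠ q ∈ {q : Pl K | (Ideal.absNorm q.asIdeal : ℝ) ≤ x ∧ P q}, f q =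
      ∑ᶠ q ∈ {q : Pl K | (Ideal.absNorm q.asIdeal : ℝ) ≤ x}, if P q then f q else 0 := by
  classical
  have hf : {q : Pl K | (Ideal.absNorm q.asIdeal : ℝ) ≤ x ∧ P q}.Finite :=
    (fin_le (K := K) x).subset fun q hq => hq.1
  rw [finsum_mem_eq_finite_toFinset_sum _ hf, finsum_mem_eq_finite_toFinset_sum _ (fin_le x),
    ← Finset.sum_filter]
  refine Finset.sum_congr ?_ fun _ _ => rfl
  ext q
  simp

/-- the powers of a character -/
noncomputable def pw (η : Ideal (𝓞 K) →*₀ ℂ) {j : ℕ} (hj : j ≠ 0) : Ideal (𝓞 K) →*₀ ℂ :=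
  (powMonoidWithZeroHom hj).comp η

theorem pw_apply (η : Ideal (𝓞 K) →*₀ ℂ) {j : ℕ} (hj : j ≠ 0) (𝔞 : Ideal (𝓞 K)) :
    pw η hj 𝔞 = η 𝔞 ^ j := rfl

theorem pw_mod {𝔪 : Ideal (𝓞 K)} {η : Ideal (𝓞 K) →*₀ ℂ} (h : IsModChar 𝔪 (fun _ => 0) η)
    {j : ℕ} (hj : j ≠ 0) : IsModChar 𝔪 (fun _ => 0) (pw η hj) where
  ne_bot := h.ne_bot
  ne_top := h.ne_top
  sig_le := h.sig_le
  cpx := h.cpx
  supp 𝔞 := by
    rw [pw_apply, ← h.supp 𝔞]
    exact (pow_ne_zero_iff hj)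
  sig x hx hx1 := by
    rw [pw_apply, h.sig x hx hx1, sg_zero, one_pow]

theorem t_DEN1 : S_DEN1 := by
  classical
  intro ℓ hℓ K _ _ 𝔪 η hη hpow hnt
  have hℓ0 : ℓ ≠ 0 := hℓ.ne_zero
  have hz : ∀ 𝔞, η 𝔞 = 0 ∨ η 𝔞 ^ ℓ = 1 := by
    intro 𝔞
    by_cases h : η 𝔞 = 0
    · exact Or.inl h
    · exact Or.inr (hpow 𝔞 ((hη.supp 𝔞).1 h))
  have hle : ∀ 𝔞, ‖η 𝔞‖ ≤ 1 := le_one hℓ0 hpow hη.supp
  -- each power
  have key : ∀ j ∈ Finset.Icc 1 ℓ, Tendsto (fun x : ℝ =>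
      (∑ᶠ q ∈ {q : Pl K | (Ideal.absNorm q.asIdeal : ℝ) ≤ x},
      (Real.log (Ideal.absNorm q.asIdeal) : ℂ) * η q.asIdeal ^ j) / (x : ℂ)) atTop
      (𝓝 (if j = ℓ then (1 : ℂ) else 0)) := by
    intro j hj
    rw [Finset.mem_Icc] at hj
    have hj0 : j ≠ 0 := by omega
    obtain ⟨δ, -, h0, h1, T⟩ := Pool.Agent.N864.RC.rc1 K 𝔪 _ _ (pw_mod hη hj0)
    have hle' : ∀ 𝔞, ‖pw η hj0 𝔞‖ ≤ 1 := by
      intro 𝔞
      rw [pw_apply, norm_pow]
      exact pow_le_one₀ (norm_nonneg _) (hle 𝔞)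
    have T2 := psum _ hle' T
    have hδ : (δ : ℂ) = if j = ℓ then (1 : ℂ) else 0 := by
      split_ifs with h
      · have : δ = 1 := h1 fun 𝔞 h𝔞 => by
          rw [pw_apply, h]
          exact hpow 𝔞 h𝔞
        rw [this, Complex.ofReal_one]
      · have : δ = 0 := by
          obtain ⟨𝔞, h𝔞, hne⟩ := hnt
          refine h0 ⟨𝔞, h𝔞, ?_⟩
          rw [pw_apply]
          intro he
          haveI := Fact.mk hℓ
          have h2 := orderOf_eq_prime (hpow 𝔞 h𝔞) hne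
          have h3 := orderOf_dvd_of_pow_eq_one he
          rw [h2] at h3
          have := Nat.le_of_dvd (by omega) h3
          omega
        rw [this, Complex.ofReal_zero]
    rw [hδ] at T2
    exact T2
  have T := tendsto_finsetSum (Finset.Icc 1 ℓ) key
  rw [Finset.sum_ite_eq' (Finset.Icc 1 ℓ) ℓ fun _ => (1 : ℂ), if_pos (Finset.mem_Icc.2
    ⟨hℓ.one_le, le_rfl⟩)] at T
  have e1 : ∀ x : ℝ, ∑ j ∈ Finset.Icc 1 ℓ,
      (∑ᶠ q ∈ {q : Pl K | (Ideal.absNorm q.asIdeal : ℝ) ≤ x},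
      (Real.log (Ideal.absNorm q.asIdeal) : ℂ) * η q.asIdeal ^ j) / (x : ℂ) =
      (((ℓ : ℝ) * ((∑ᶠ q ∈ {q : Pl K | (Ideal.absNorm q.asIdeal : ℝ) ≤ x ∧
    η q.asIdeal = 1}, Real.log (Ideal.absNorm q.asIdeal)) / x) : ℝ) : ℂ) := by
    intro x
    rw [cond_sum (fun q => η q.asIdeal = 1), ← Finset.sum_div,
      finsum_mem_eq_finite_toFinset_sum _ (fin_le x)]
    have : ∀ j ∈ Finset.Icc 1 ℓ, ∑ᶠ q ∈ {q : Pl K | (Ideal.absNorm q.asIdeal : ℝ) ≤ x},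
      (Real.log (Ideal.absNorm q.asIdeal) : ℂ) * η q.asIdeal ^ j =
      ∑ q ∈ (fin_le (K := K) x).toFinset,
      (Real.log (Ideal.absNorm q.asIdeal) : ℂ) * η q.asIdeal ^ j := fun j _ =>
      finsum_mem_eq_finite_toFinset_sum _ (fin_le x)
    rw [Finset.sum_congr rfl this, Finset.sum_comm]
    push_cast
    rw [← mul_div_assoc, Finset.mul_sum]
    congr 1
    refine Finset.sum_congr rfl fun q _ => ?_
    rw [← Finset.mul_sum, avg hℓ0 (hz q.asIdeal)]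
    split_ifs
    · push_cast
      ring
    · simp
  have T1 := (T.congr e1)
  have T2 := (Complex.continuous_re.tendsto _).comp T1
  rw [Complex.one_re] at T2
  have T3 := T2.const_mul ((ℓ : ℝ)⁻¹)
  rw [mul_one, ← one_div] at T3
  refine T3.congr fun x => ?_
  simp only [Function.comp_apply, Complex.ofReal_re]
  have : (ℓ : ℝ) ≠ 0 := Nat.cast_ne_zero.2 hℓ0
  field_simp

end Pool.Agent.T3h73.SL.Den1
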