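import Pool.Agent.T3h73.SL.T_DEN1
import Pool.Agent.T2h69.SL.Split
import Pool.Agent.H723R3.EuclidLocal

/-!
# The primes at which `y` is an `ℓ`-th power have upper density at most `1/ℓ`
-/

set_option autoImplicit false
set_option linter.all false

open NumberField IsDedekindDomain Filter Topology Polynomial

namespace Pool.Agent.T3h73.SL.Den2

open Pool.Agent.T3h73.SL.Den0 (fin_le)
open Pool.Agent.T3h73.SL.Den1 (cond_sum)

variable {K : Type} [Field K] [NumberField K]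

theorem isP_mul_pow {ℓ : ℕ} {G : Type} [CommGroup G] (x z : G) :
    IsP ℓ (x * z ^ ℓ) ↔ IsP ℓ x := by
  constructor
  · rintro ⟨a, ha⟩
    exact ⟨a * z⁻¹, by rw [mul_pow, ← ha, inv_pow, mul_inv_cancel_right]⟩
  · rintro ⟨a, ha⟩
    exact ⟨a * z, by rw [mul_pow, ha]⟩

/-- if `w` is an `ℓ`-th power in the completion, it is an `ℓ`-th power modulo `q` -/
theorem exists_root {ℓ : ℕ} (hℓ : ℓ.Prime) (q : Pl K) {w : 𝓞 K} (hwq : w ∉ q.asIdeal)
    {z : q.adicCompletion K} (hz : algebraMap (𝓞 K) (q.adicCompletion K) w = z ^ ℓ) :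
    ∃ t : 𝓞 K, t ^ ℓ - w ∈ q.asIdeal := by
  have hval : ∀ a : 𝓞 K, (Valued.v (algebraMap (𝓞 K) (q.adicCompletion K) a) :
      WithZero (Multiplicative ℤ)) = q.valuation K (a : K) := fun a => by
    have h5 := HeightOneSpectrum.valuedAdicCompletion_eq_valuation (K := K) q a
    exact h5
  have hw1 : q.valuation K (w : K) = 1 := by
    rw [HeightOneSpectrum.valuation_of_algebraMap]
    refine le_antisymm (q.intValuation_le_one w) ?_
    by_contra h
    push Not at h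
    rw [HeightOneSpectrum.intValuation_lt_one_iff_mem] at h
    exact hwq h
  have hz1 : (Valued.v z : WithZero (Multiplicative ℤ)) = 1 := by
    have h1 := congrArg (Valued.v : Valuation (q.adicCompletion K) (WithZero (Multiplicative ℤ))) hz
    rw [hval, hw1, map_pow] at h1
    exact (pow_eq_one_iff_of_nonneg zero_le' hℓ.ne_zero).1 h1.symm
  obtain ⟨t, ht⟩ := Pool.Agent.H723R3.exists_approx_int (R := 𝓞 K) (K := K) q (ξ := z)
    (by rw [HeightOneSpectrum.mem_adicCompletionIntegers]; exact hz1.le) 1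
  refine ⟨t, ?_⟩
  have ht1 : (Valued.v (algebraMap (𝓞 K) (q.adicCompletion K) t) : WithZero (Multiplicative ℤ)) ≤ 1 := by
    rw [hval]
    exact q.valuation_le_one t
  have h2 : (Valued.v (algebraMap (𝓞 K) (q.adicCompletion K) (t ^ ℓ - w)) :
      WithZero (Multiplicative ℤ)) < 1 := by
    rw [map_sub, map_pow, hz, ← (Commute.all _ _).geom_sum₂_mul, map_mul]
    refine mul_lt_one_of_nonneg_of_lt_one_right ?_ zero_le' ht
    refine Valuation.map_sum_le _ fun i _ => ?_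
    rw [map_mul, map_pow, map_pow, hz1, one_pow, mul_one]
    exact pow_le_one' ht1 i
  rw [hval, HeightOneSpectrum.valuation_of_algebraMap,
    HeightOneSpectrum.intValuation_lt_one_iff_mem] at h2
  exact h2

/-- the primes containing a nonzero element -/
theorem fin_mem {a : 𝓞 K} (ha : a ≠ 0) : {q : Pl K | a ∈ q.asIdeal}.Finite := by
  have h : (Ideal.span {a} : Ideal (𝓞 K)) ≠ ⊥ := by
    rwa [Ne, Ideal.span_singleton_eq_bot]
  refine (Ideal.finite_factors h).subset fun q hq => ?_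
  rw [Set.mem_setOf_eq, Ideal.dvd_span_singleton]
  exact hq

/-- the count -/
theorem count {E : Type} [Field E] [NumberField E] [Algebra K E] {ℓ : ℕ} (A : Finset (Pl K)) {x : ℝ}
    (hA : ∀ q ∈ A, (Ideal.absNorm q.asIdeal : ℝ) ≤ x ∧ (q.asIdeal.primesOver (𝓞 E)).ncard = ℓ ∧
      ∀ Q ∈ q.asIdeal.primesOver (𝓞 E), Ideal.absNorm Q = Ideal.absNorm q.asIdeal) (hℓ : ℓ ≠ 0) :
    (ℓ : ℝ) * ∑ q ∈ A, Real.log (Ideal.absNorm q.asIdeal) ≤
      ∑ᶠ Q ∈ {Q : Pl E | (Ideal.absNorm Q.asIdeal : ℝ) ≤ x}, Real.log (Ideal.absNorm Q.asIdeal) := by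
  classical
  have hfinP : ∀ q ∈ A, (q.asIdeal.primesOver (𝓞 E)).Finite := fun q hq => by
    apply Set.finite_of_ncard_ne_zero
    rw [(hA q hq).2.1]
    exact hℓ
  set P : Pl K → Finset (Ideal (𝓞 E)) := fun q => if h : q ∈ A then (hfinP q h).toFinset else ∅
    with hP
  have hPm : ∀ q ∈ A, ∀ Q, Q ∈ P q ↔ Q ∈ q.asIdeal.primesOver (𝓞 E) := by
    intro q hq Q
    rw [hP]
    simp only [dif_pos hq, Set.Finite.mem_toFinset]
  have hPc : ∀ q ∈ A, (P q).card = ℓ := by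
    intro q hq
    rw [← (hA q hq).2.1, Set.ncard_eq_toFinset_card _ (hfinP q hq), hP]
    simp only [dif_pos hq]
  have h1 : (ℓ : ℝ) * ∑ q ∈ A, Real.log (Ideal.absNorm q.asIdeal) =
      ∑ q ∈ A, ∑ Q ∈ P q, Real.log (Ideal.absNorm Q) := by
    rw [Finset.mul_sum]
    refine Finset.sum_congr rfl fun q hq => ?_
    rw [Finset.sum_congr rfl fun Q hQ => by rw [(hA q hq).2.2 Q ((hPm q hq Q).1 hQ)],
      Finset.sum_const, hPc q hq, nsmul_eq_mul]
  have h2 : ∑ q ∈ A, ∑ Q ∈ P q, Real.log (Ideal.absNorm Q) =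
      ∑ Q ∈ A.biUnion P, Real.log (Ideal.absNorm Q) := by
    rw [Finset.sum_biUnion]
    intro q hq q' hq' hne
    show Disjoint _ _
    rw [Finset.disjoint_left]
    intro Q h3 h4
    have h5 := ((hPm q hq Q).1 h3).2
    have h6 := ((hPm q' hq' Q).1 h4).2
    apply hne
    exact HeightOneSpectrum.ext (h5.over.trans h6.over.symm)
  have h3 : ∑ᶠ Q ∈ {Q : Pl E | (Ideal.absNorm Q.asIdeal : ℝ) ≤ x}, Real.log (Ideal.absNorm Q.asIdeal)
      = ∑ Q ∈ (fin_le (K := E) x).toFinset.image fun Q => Q.asIdeal, Real.log (Ideal.absNorm Q) := by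
    rw [finsum_mem_eq_finite_toFinset_sum _ (fin_le x), Finset.sum_image]
    intro q _ q' _ h
    exact HeightOneSpectrum.ext h
  rw [h1, h2, h3]
  refine Finset.sum_le_sum_of_subset_of_nonneg ?_ fun Q _ _ => Real.log_natCast_nonneg _
  intro Q hQ
  rw [Finset.mem_biUnion] at hQ
  obtain ⟨q, hq, hQ⟩ := hQ
  have hQ' := (hPm q hq Q).1 hQ
  have hn := (hA q hq).2.2 Q hQ'
  rw [Finset.mem_image]
  refine ⟨⟨Q, hQ'.1, ?_⟩, ?_, rfl⟩
  · rintro rfl
    rw [Ideal.absNorm_bot] at hn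
    exact q.ne_bot (Ideal.absNorm_eq_zero_iff.1 hn.symm)
  · rw [Set.Finite.mem_toFinset, Set.mem_setOf_eq]
    show (Ideal.absNorm Q : ℝ) ≤ x
    rw [hn]
    exact (hA q hq).1

theorem t_DEN2 (h0 : S_DEN0) : S_DEN2 := by
  classical
  intro ℓ hℓ K _ _ ζ hζ y hy ε hε
  -- replace `y` by an integer
  obtain ⟨a, b, hb0, hab⟩ := IsFractionRing.div_surjective (A := 𝓞 K) (y : K)
  have hb : (b : K) ≠ 0 := by
    have := nonZeroDivisors.ne_zero hb0
    exact RingOfIntegers.coe_ne_zero_iff.2 this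
  have ha : (a : K) ≠ 0 := by
    intro h
    apply y.ne_zero
    rw [← hab]
    show (a : K) / b = 0
    rw [h, zero_div]
  set w : 𝓞 K := a * b ^ (ℓ - 1) with hw
  have hwy : (w : K) = y * (b : K) ^ ℓ := by
    have h1 : (y : K) = (a : K) / b := hab.symm
    have h2 : ((a * b ^ (ℓ - 1) : 𝓞 K) : K) = (a : K) * (b : K) ^ (ℓ - 1) := by
      show algebraMap (𝓞 K) K (a * b ^ (ℓ - 1)) = _
      rw [map_mul, map_pow]
    rw [h1, hw, h2]
    obtain ⟨m, hm⟩ : ∃ m, ℓ = m + 1 := ⟨ℓ - 1, by have := hℓ.pos; omega⟩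
    rw [hm, Nat.add_sub_cancel, pow_succ]
    field_simp
  have hw0 : w ≠ 0 := by
    intro h
    have : (w : K) = 0 := by rw [h]; rfl
    rw [hwy] at this
    exact mul_ne_zero y.ne_zero (pow_ne_zero _ hb) this
  have hyw : Units.mk0 (w : K) (RingOfIntegers.coe_ne_zero_iff.2 hw0) = y * (Units.mk0 (b : K) hb) ^ ℓ := by
    ext
    rw [Units.val_mk0, Units.val_mul, Units.val_pow_eq_pow_val, Units.val_mk0, hwy]
  have hwP : ∀ c : K, c ^ ℓ ≠ w := by
    intro c hc
    apply hy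
    rw [← isP_mul_pow y (Units.mk0 (b : K) hb), ← hyw]
    have hc0 : c ≠ 0 := by
      rintro rfl
      rw [zero_pow hℓ.ne_zero] at hc
      exact RingOfIntegers.coe_ne_zero_iff.2 hw0 hc.symm
    refine ⟨Units.mk0 c hc0, ?_⟩
    ext
    rw [Units.val_mk0, Units.val_pow_eq_pow_val, Units.val_mk0, hc]
  -- the extension
  have hirr : Irreducible (X ^ ℓ - C (w : K) : K[X]) := X_pow_sub_C_irreducible_of_prime hℓ hwP
  haveI := Fact.mk hirr
  have hsplit := isSplittingField_AdjoinRoot_X_pow_sub_C ⟨ζ, (mem_primitiveRoots hℓ.pos).2 hζ⟩ hirr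
  set E := AdjoinRoot (X ^ ℓ - C (w : K) : K[X]) with hE
  haveI : CharZero E := charZero_of_injective_algebraMap (algebraMap K E).injective
  haveI : FiniteDimensional K E := (AdjoinRoot.powerBasis hirr.ne_zero).finite
  haveI : NumberField E := NumberField.of_module_finite K E
  haveI : IsGalois K E := isGalois_of_isSplittingField_X_pow_sub_C
    ⟨ζ, (mem_primitiveRoots hℓ.pos).2 hζ⟩ hirr E
  have hd : Module.finrank K E = ℓ :=
    finrank_of_isSplittingField_X_pow_sub_C ⟨ζ, (mem_primitiveRoots hℓ.pos).2 hζ⟩ hirr E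
  have hrt : (AdjoinRoot.root (X ^ ℓ - C (w : K) : K[X])) ^ ℓ = algebraMap K E (w : K) := by
    have := AdjoinRoot.eval₂_root (X ^ ℓ - C (w : K) : K[X])
    rw [eval₂_sub, eval₂_X_pow, eval₂_C, sub_eq_zero] at this
    exact this
  have hint : IsIntegral ℤ (AdjoinRoot.root (X ^ ℓ - C (w : K) : K[X])) := by
    refine IsIntegral.of_pow hℓ.pos ?_
    rw [hrt]
    exact (RingOfIntegers.isIntegral_coe w).algebraMap
  set α : 𝓞 E := ⟨_, hint⟩ with hα
  have hαw : α ^ ℓ = algebraMap (𝓞 K) (𝓞 E) w := by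
    apply RingOfIntegers.coe_injective
    rw [map_pow]
    exact hrt
  have hl0 : (ℓ : 𝓞 K) ≠ 0 := Nat.cast_ne_zero.2 hℓ.ne_zero
  have hbad : {q : Pl K | w ∈ q.asIdeal ∨ (ℓ : 𝓞 K) ∈ q.asIdeal}.Finite :=
    (fin_mem hw0).union (fin_mem hl0)
  set C' : ℝ := ∑ q ∈ hbad.toFinset, Real.log (Ideal.absNorm q.asIdeal) with hC'
  have hℓR : (0 : ℝ) < ℓ := Nat.cast_pos.2 hℓ.pos
  have hlog : ∀ q : Pl K, 0 ≤ Real.log (Ideal.absNorm q.asIdeal) := fun q =>
    Real.log_natCast_nonneg _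
  have T0 := h0 E
  have E0 : ∀ᶠ x : ℝ in atTop, (∑ᶠ Q ∈ {Q : Pl E | (Ideal.absNorm Q.asIdeal : ℝ) ≤ x},
    Real.log (Ideal.absNorm Q.asIdeal)) / x < 1 + ℓ * (ε / 2) :=
    T0.eventually (gt_mem_nhds (by nlinarith))
  have E1 : ∀ᶠ x : ℝ in atTop, C' / x < ε / 2 :=
    (tendsto_const_nhds.div_atTop tendsto_id).eventually (gt_mem_nhds (by linarith))
  filter_upwards [E0, E1, eventually_gt_atTop (0 : ℝ)] with x e0 e1 e2
  rw [div_lt_iff₀ e2] at e0 e1
  set A : Finset (Pl K) := ((fin_le (K := K) x).toFinset.filter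
    fun q => IsP ℓ (loc q y)).filter fun q => q ∉ hbad.toFinset with hA
  have hAc := count (E := E) (ℓ := ℓ) A (x := x) ?_ hℓ.ne_zero
  · have h3 : (∑ᶠ q ∈ {q : Pl K | (Ideal.absNorm q.asIdeal : ℝ) ≤ x ∧
        IsP ℓ (loc q y)}, Real.log (Ideal.absNorm q.asIdeal)) ≤ C' +
        ∑ q ∈ A, Real.log (Ideal.absNorm q.asIdeal) := by
      rw [cond_sum (fun q => IsP ℓ (loc q y)), finsum_mem_eq_finite_toFinset_sum _ (fin_le x),
        ← Finset.sum_filter, ← Finset.sum_filter_add_sum_filter_not _ (fun q => q ∉ hbad.toFinset),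
        ← hA, add_comm]
      refine add_le_add_left (Finset.sum_le_sum_of_subset_of_nonneg ?_ fun q _ _ => hlog q) _
      intro q hq
      exact not_not.1 (Finset.mem_filter.1 hq).2
    refine h3.trans ?_
    have h4 : ∑ q ∈ A, Real.log (Ideal.absNorm q.asIdeal) ≤ (1 + ℓ * (ε / 2)) * x / ℓ := by
      rw [le_div_iff₀ hℓR, mul_comm]
      exact hAc.trans e0.le
    have h5 : (1 + ℓ * (ε / 2)) * x / ℓ = (1 / ℓ + ε / 2) * x := by
      field_simp
    rw [h5] at h4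
    nlinarith
  · intro q hq
    rw [hA, Finset.mem_filter, Finset.mem_filter, Set.Finite.mem_toFinset, Set.Finite.mem_toFinset,
      Set.mem_setOf_eq, Set.mem_setOf_eq] at hq
    obtain ⟨⟨hq1, z, hz⟩, hq2⟩ := hq
    push Not at hq2
    refine ⟨hq1, ?_⟩
    have hz' : algebraMap (𝓞 K) (q.adicCompletion K) w =
        ((z * loc q (Units.mk0 (b : K) hb) : (q.adicCompletion K)ˣ) : q.adicCompletion K) ^ ℓ := by
      have h6 : loc q (Units.mk0 (w : K) (RingOfIntegers.coe_ne_zero_iff.2 hw0)) =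
          (z * loc q (Units.mk0 (b : K) hb)) ^ ℓ := by
        rw [hyw, map_mul, map_pow, hz, mul_pow]
      have h7 := congrArg (fun u : (q.adicCompletion K)ˣ => (u : q.adicCompletion K)) h6
      rw [← Units.val_pow_eq_pow_val, ← h7]
      show algebraMap (𝓞 K) (q.adicCompletion K) w = algebraMap K (q.adicCompletion K) (w : K)
      exact IsScalarTower.algebraMap_apply (𝓞 K) K (q.adicCompletion K) w
    obtain ⟨t, ht⟩ := exists_root hℓ q hq2.1 hz'
    haveI := q.isPrime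
    haveI : NeZero ℓ := ⟨hℓ.ne_zero⟩
    exact Pool.Agent.T2h69.SL.Split.split hℓ hd hζ.toInteger_isPrimitiveRoot hαw hwP q.ne_bot ht
      hq2.1 hq2.2

end Pool.Agent.T3h73.SL.Den2
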