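import Pool.Agent.T3h73.SL.Nwt

/-! Project SL, task WA (helper93): weak approximation modulo `ℓ`-th powers. -/

set_option autoImplicit false
set_option linter.all false

namespace Pool.Agent.T3h73.SL.Wa

open IsDedekindDomain NumberField WithZero
open Pool.Agent.T3h73.SL.Nwt

variable {K : Type} [Field K] [NumberField K]

lemma exp_small (γ : WithZero (Multiplicative ℤ)) (hγ : γ ≠ 0) :
    ∃ N : ℕ, WithZero.exp (-(N : ℤ)) < γ := by
  refine ⟨(1 - WithZero.log γ).toNat, ?_⟩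
  rw [← WithZero.exp_log hγ, WithZero.exp_lt_exp]
  have := Int.self_le_toNat (1 - WithZero.log γ)
  simp only [WithZero.log_exp]
  omega

/-- simultaneous approximation -/
theorem approx (S : Finset (Pl K)) (d : ∀ v : Pl K, v.adicCompletion K)
    (γ : Pl K → WithZero (Multiplicative ℤ)) (hγ : ∀ v, γ v ≠ 0) :
    ∃ x : K, ∀ v ∈ S, vv v (algebraMap K (v.adicCompletion K) x - d v) < γ v := by
  classical
  -- elements of `K` close to the `d v`
  have h1 : ∀ v : Pl K, ∃ k : K, vv v (algebraMap K (v.adicCompletion K) k - d v) < γ v :=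
    fun v => Pool.Agent.H723R3.exists_approx v (d v) (Units.mk0 (γ v) (hγ v))
  choose k hk using h1
  -- a common denominator
  obtain ⟨b, hb⟩ := IsLocalization.exist_integer_multiples_of_finset (nonZeroDivisors (𝓞 K))
    (S.image k)
  have hb0 : (b : 𝓞 K) ≠ 0 := nonZeroDivisors.coe_ne_zero b
  have h2 : ∀ v : S, ∃ a : 𝓞 K, algebraMap (𝓞 K) K a = algebraMap (𝓞 K) K (b : 𝓞 K) * k v := by
    intro v
    obtain ⟨a, ha⟩ := hb (k v) (Finset.mem_image_of_mem k v.2)
    refine ⟨a, ?_⟩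
    rw [ha, Algebra.smul_def]
  choose a ha using h2
  -- the precision
  have hbK : algebraMap (𝓞 K) K (b : 𝓞 K) ≠ 0 := by
    rw [Ne, FaithfulSMul.algebraMap_eq_zero_iff]; exact hb0
  have hvb : ∀ v : Pl K, v.valuation K (algebraMap (𝓞 K) K (b : 𝓞 K)) ≠ 0 := fun v =>
    (Valuation.ne_zero_iff _).2 hbK
  have h3 : ∀ v : Pl K, ∃ N : ℕ, WithZero.exp (-(N : ℤ)) <
      v.valuation K (algebraMap (𝓞 K) K (b : 𝓞 K)) * γ v := fun v =>
    exp_small _ (mul_ne_zero (hvb v) (hγ v))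
  choose N hN using h3
  obtain ⟨y, hy⟩ := IsDedekindDomain.exists_forall_sub_mem_ideal (s := S)
    (fun v : Pl K => v.asIdeal) N (fun v _ => v.prime) (by
      intro v _ w _ hvw h
      exact hvw (HeightOneSpectrum.ext h)) a
  refine ⟨algebraMap (𝓞 K) K y / algebraMap (𝓞 K) K (b : 𝓞 K), ?_⟩
  intro v hv
  have h4 := hy v hv
  have h5 : v.valuation K (algebraMap (𝓞 K) K (y - a ⟨v, hv⟩)) ≤ WithZero.exp (-(N v : ℤ)) := by
    rw [HeightOneSpectrum.valuation_of_algebraMap, HeightOneSpectrum.intValuation_le_pow_iff_mem]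
    exact h4
  have h6 : algebraMap K (v.adicCompletion K) (algebraMap (𝓞 K) K y /
      algebraMap (𝓞 K) K (b : 𝓞 K)) - d v =
      algebraMap K (v.adicCompletion K) (algebraMap (𝓞 K) K (y - a ⟨v, hv⟩) /
      algebraMap (𝓞 K) K (b : 𝓞 K)) + (algebraMap K (v.adicCompletion K) (k v) - d v) := by
    have h7 : algebraMap (𝓞 K) K y / algebraMap (𝓞 K) K (b : 𝓞 K) =
        algebraMap (𝓞 K) K (y - a ⟨v, hv⟩) / algebraMap (𝓞 K) K (b : 𝓞 K) + k v := by
      rw [map_sub, ha ⟨v, hv⟩]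
      field_simp
      ring
    rw [h7, map_add]
    ring
  rw [h6]
  refine lt_of_le_of_lt (Valuation.map_add _ _ _) (max_lt ?_ (hk v))
  have h8 : vv v (algebraMap K (v.adicCompletion K) (algebraMap (𝓞 K) K (y - a ⟨v, hv⟩) /
      algebraMap (𝓞 K) K (b : 𝓞 K))) = v.valuation K (algebraMap (𝓞 K) K (y - a ⟨v, hv⟩) /
      algebraMap (𝓞 K) K (b : 𝓞 K)) := Pool.Agent.H723R3.valued_algebraMap v _
  rw [h8, map_div₀, div_lt_iff₀ (zero_lt_iff.2 (hvb v)), mul_comm]
  exact lt_of_le_of_lt h5 (hN v)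

theorem t_WA : S_WA := by
  intro ℓ hℓ K _ _ S d
  classical
  by_cases hS : S.Nonempty
  swap
  · rw [Finset.not_nonempty_iff_eq_empty] at hS
    subst hS
    exact ⟨1, fun v hv => by simp at hv⟩
  have hd0 : ∀ v : Pl K, vv v (d v : v.adicCompletion K) ≠ 0 := fun v =>
    (Valuation.ne_zero_iff _).2 (d v).ne_zero
  have hℓ0 : ∀ v : Pl K, vv v (ℓ : v.adicCompletion K) ≠ 0 := by
    intro v
    haveI : CharZero (v.adicCompletion K) :=
      charZero_of_injective_algebraMap (algebraMap K (v.adicCompletion K)).injective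
    exact (Valuation.ne_zero_iff _).2 (Nat.cast_ne_zero.2 hℓ.ne_zero)
  obtain ⟨x, hx⟩ := approx S (fun v => (d v : v.adicCompletion K))
    (fun v => vv v (d v : v.adicCompletion K) * vv v (ℓ : v.adicCompletion K) ^ 2)
    (fun v => mul_ne_zero (hd0 v) (pow_ne_zero 2 (hℓ0 v)))
  have hlt : ∀ v : Pl K, vv v (ℓ : v.adicCompletion K) ^ 2 ≤ 1 := fun v =>
    pow_le_one' (vv_nat v ℓ) 2
  have hx0 : x ≠ 0 := by
    rintro rfl
    obtain ⟨v, hv⟩ := hS
    have h1 := hx v hv
    rw [map_zero, zero_sub, Valuation.map_neg] at h1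
    exact absurd h1 (not_lt.2 (mul_le_of_le_one_right' (hlt v)))
  refine ⟨Units.mk0 x hx0, ?_⟩
  intro v hv
  have h1 := hx v hv
  have h2 : vv v (algebraMap K (v.adicCompletion K) x / d v - 1) <
      vv v (ℓ : v.adicCompletion K) ^ 2 := by
    have h3 : algebraMap K (v.adicCompletion K) x / d v - 1 =
        (algebraMap K (v.adicCompletion K) x - d v) / d v := by
      have := (d v).ne_zero
      field_simp
    rw [h3, map_div₀, div_lt_iff₀ (zero_lt_iff.2 (hd0 v)), mul_comm]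
    exact h1
  obtain ⟨z, hz⟩ := near_pow v ℓ hℓ.ne_zero _ h2
  have hz0 : z ≠ 0 := by
    rintro rfl
    rw [zero_pow hℓ.ne_zero, div_eq_zero_iff] at hz
    rcases hz with h | h
    · exact hx0 ((_root_.map_eq_zero _).1 h)
    · exact (d v).ne_zero h
  refine ⟨Units.mk0 z hz0, ?_⟩
  apply Units.ext
  show algebraMap K (v.adicCompletion K) x = (d v : v.adicCompletion K) * z ^ ℓ
  rw [← hz]
  have := (d v).ne_zero
  field_simp

end Pool.Agent.T3h73.SL.Wa
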