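import Pool.Agent.T3h73.SL.Stm

/-!
# Project SL: the ray class character (`S_CHR`)
-/

set_option autoImplicit false

open NumberField IsDedekindDomain Polynomial

namespace Pool.Agent.T3h73.SL.Chr

open Pool.Agent.Y713.SE (Pw)
open Pool.Agent.Y773.G (IsModChar sg)

variable {K : Type} [Field K] [NumberField K]

/-! ### valuations -/

lemma v_loc (v : Pl K) (x : Kˣ) :
    (Valued.v ((loc v x : (v.adicCompletion K)ˣ) : v.adicCompletion K) :
      WithZero (Multiplicative ℤ)) = v.valuation K (x : K) :=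
  v.valuedAdicCompletion_eq_valuation' (x : K)

lemma mem_Evn {ℓ : ℕ} {v : Pl K} {x : (v.adicCompletion K)ˣ} :
    x ∈ Evn ℓ v ↔ Pw ℓ (Valued.v (x : v.adicCompletion K)) := Iff.rfl

lemma loc_mem_Evn {ℓ : ℕ} {v : Pl K} {x : Kˣ} : loc v x ∈ Evn ℓ v ↔ Pw ℓ (v.valuation K (x : K)) := by
  rw [mem_Evn, v_loc]

lemma mem_Sg {ℓ : ℕ} {S : Finset (Pl K)} {L : ∀ v : Pl K, Subgroup (v.adicCompletion K)ˣ} {x : Kˣ} :
    x ∈ Sg ℓ S L ↔ (∀ v ∈ S, loc v x ∈ L v) ∧ ∀ v, v ∉ S → Pw ℓ (v.valuation K (x : K)) := Iff.rfl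

lemma pw_exp {ℓ : ℕ} (hℓ : 0 < ℓ) (n : ℤ) : Pw ℓ (WithZero.exp n) ↔ (ℓ : ℤ) ∣ n := by
  constructor
  · rintro ⟨β, hβ⟩
    have hβ0 : β ≠ 0 := by
      rintro rfl
      rw [zero_pow hℓ.ne'] at hβ
      exact WithZero.exp_ne_zero hβ
    rw [← WithZero.exp_log hβ0, ← WithZero.exp_nsmul, WithZero.exp_inj] at hβ
    exact ⟨WithZero.log β, by rw [hβ, nsmul_eq_mul]⟩
  · rintro ⟨k, rfl⟩
    exact ⟨WithZero.exp k, by rw [← WithZero.exp_nsmul, nsmul_eq_mul]⟩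

lemma val_ne_zero (v : Pl K) (x : (v.adicCompletion K)ˣ) :
    (Valued.v (x : v.adicCompletion K) : WithZero (Multiplicative ℤ)) ≠ 0 :=
  (Valuation.ne_zero_iff _).2 x.ne_zero

/-- the valuation modulo `ℓ` -/
noncomputable def nu (ℓ : ℕ) (v : Pl K) : (v.adicCompletion K)ˣ →* Multiplicative (ZMod ℓ) where
  toFun x := Multiplicative.ofAdd ((WithZero.log (Valued.v (x : v.adicCompletion K) :
    WithZero (Multiplicative ℤ)) : ℤ) : ZMod ℓ)
  map_one' := by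
    rw [Units.val_one, map_one, WithZero.log_one, Int.cast_zero, ofAdd_zero]
  map_mul' a b := by
    rw [Units.val_mul, map_mul, WithZero.log_mul (val_ne_zero v a) (val_ne_zero v b), Int.cast_add,
      ofAdd_add]

lemma nu_ker {ℓ : ℕ} (hℓ : 0 < ℓ) (v : Pl K) : (nu ℓ v).ker = Evn ℓ v := by
  ext x
  rw [MonoidHom.mem_ker, mem_Evn, ← WithZero.exp_log (val_ne_zero v x), pw_exp hℓ]
  change Multiplicative.ofAdd _ = Multiplicative.ofAdd (0 : ZMod ℓ) ↔ _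
  rw [Multiplicative.ofAdd.injective.eq_iff, ZMod.intCast_zmod_eq_zero_iff_dvd]

lemma exists_unif (v : Pl K) : ∃ π : Kˣ, v.valuation K (π : K) = WithZero.exp (-1 : ℤ) := by
  obtain ⟨π, hπ⟩ := v.valuation_exists_uniformizer K
  have h0 : π ≠ 0 := by
    rintro rfl
    rw [map_zero] at hπ
    exact WithZero.exp_ne_zero hπ.symm
  exact ⟨Units.mk0 π h0, hπ⟩

lemma evn_index {ℓ : ℕ} (hℓ : 0 < ℓ) (v : Pl K) : (Evn ℓ v).index = ℓ := by
  have : NeZero ℓ := ⟨hℓ.ne'⟩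
  obtain ⟨π, hπ⟩ := exists_unif v
  have hsurj : Function.Surjective (nu ℓ v) := by
    intro y
    obtain ⟨n, hn⟩ := ZMod.intCast_surjective (Multiplicative.toAdd y)
    refine ⟨loc v (π ^ (-n)), ?_⟩
    change Multiplicative.ofAdd _ = y
    rw [v_loc, Units.val_zpow_eq_zpow_val, map_zpow₀, hπ, ← WithZero.exp_zsmul, WithZero.log_exp]
    rw [show (-n) • (-1 : ℤ) = n by simp, hn, ofAdd_toAdd]
  rw [← nu_ker hℓ v, Subgroup.index_ker, MonoidHom.range_eq_top.2 hsurj]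
  rw [Nat.card_congr (Subgroup.topEquiv (G := Multiplicative (ZMod ℓ))).toEquiv,
    Nat.card_congr Multiplicative.toAdd, Nat.card_zmod]

lemma pk_le_Evn (ℓ : ℕ) (v : Pl K) : Pk ℓ _ ≤ Evn ℓ v := by
  rintro _ ⟨z, rfl⟩
  rw [mem_Evn]
  change Pw ℓ (Valued.v ((z ^ ℓ : (v.adicCompletion K)ˣ) : v.adicCompletion K))
  rw [Units.val_pow_eq_pow_val, map_pow]
  exact Pw.pow _

lemma pow_mem_Pk (ℓ : ℕ) {G : Type} [CommGroup G] (x : G) : x ^ ℓ ∈ Pk ℓ G := ⟨x, rfl⟩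

/-! ### the exponents of an ideal -/

open Classical in
/-- the exponents of the factorisation of an ideal -/
noncomputable def mI (𝔞 : Ideal (𝓞 K)) : Pl K →₀ ℤ :=
  if h : 𝔞 ≠ 0 then Finsupp.ofSupportFinite
    (fun v => ((Associates.mk v.asIdeal).count (Associates.mk 𝔞).factors : ℤ))
      (Filter.eventually_cofinite.mp (Associates.finite_factors h)) else 0

lemma mI_apply {𝔞 : Ideal (𝓞 K)} (h : 𝔞 ≠ 0) (v : Pl K) :
    mI 𝔞 v = ((Associates.mk v.asIdeal).count (Associates.mk 𝔞).factors : ℤ) := by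
  unfold mI
  rw [dif_pos h]
  rfl

lemma mI_mul {𝔞 𝔟 : Ideal (𝓞 K)} (h : 𝔞 ≠ 0) (h' : 𝔟 ≠ 0) : mI (𝔞 * 𝔟) = mI 𝔞 + mI 𝔟 := by
  ext v
  rw [Finsupp.add_apply, mI_apply h, mI_apply h', mI_apply (mul_ne_zero h h'), ← Associates.mk_mul_mk,
    Associates.count_mul (Associates.mk_ne_zero.2 h) (Associates.mk_ne_zero.2 h')
      v.associates_irreducible]
  push_cast
  rfl

lemma mI_one : mI (1 : Ideal (𝓞 K)) = 0 := by
  ext v
  rw [mI_apply one_ne_zero, Associates.mk_one, Associates.factors_one,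
    Associates.count_zero v.associates_irreducible]
  rfl

lemma mI_prime (v : Pl K) : mI v.asIdeal = Finsupp.single v 1 := by
  classical
  ext w
  have hv : v.asIdeal ≠ 0 := v.ne_bot
  rw [mI_apply hv, Finsupp.single_apply]
  split_ifs with h
  · subst h
    rw [Associates.count_self v.associates_irreducible]
    rfl
  · rw [Associates.count_eq_zero_of_ne w.associates_irreducible v.associates_irreducible]
    · rfl
    · intro h1
      apply h
      rw [Associates.mk_eq_mk_iff_associated, associated_iff_eq] at h1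
      exact HeightOneSpectrum.ext h1.symm

lemma mI_span (x : 𝓞 K) (hx : x ≠ 0) (v : Pl K) :
    v.valuation K (x : K) = WithZero.exp (-(mI (Ideal.span {x}) v)) := by
  have h : Ideal.span {x} ≠ 0 := by
    rw [Ideal.zero_eq_bot, Ne, Ideal.span_singleton_eq_bot]
    exact hx
  rw [mI_apply h]
  exact (v.valuation_of_algebraMap x).trans (v.intValuation_if_neg hx)

/-- the exponents of an element of the field -/
lemma exists_m (x : Kˣ) : ∃ m : Pl K →₀ ℤ, ∀ v : Pl K, v.valuation K (x : K) = WithZero.exp (-(m v)) := by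
  obtain ⟨a, b, hb, hab⟩ := IsFractionRing.div_surjective (A := 𝓞 K) (x : K)
  have hb0 : b ≠ 0 := nonZeroDivisors.ne_zero hb
  have ha0 : a ≠ 0 := by
    rintro rfl
    rw [map_zero, zero_div] at hab
    exact x.ne_zero hab.symm
  refine ⟨mI (Ideal.span {a}) - mI (Ideal.span {b}), fun v => ?_⟩
  have h1 : v.valuation K (algebraMap (𝓞 K) K a) = _ := mI_span a ha0 v
  have h2 : v.valuation K (algebraMap (𝓞 K) K b) = _ := mI_span b hb0 v
  rw [← hab, map_div₀, h1, h2, ← WithZero.exp_sub, Finsupp.sub_apply]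
  congr 1
  ring

/-! ### the group of the local classes -/

section main

variable (ℓ : ℕ) (S T : Finset (Pl K)) (L : ∀ v : Pl K, Subgroup (v.adicCompletion K)ˣ)

open Classical in
/-- the local conditions -/
noncomputable def Mv (v : Pl K) : Subgroup (v.adicCompletion K)ˣ := if v ∈ S then L v else Evn ℓ v

/-- the local classes -/
def QV (v : Pl K) : Type := (v.adicCompletion K)ˣ ⧸ Mv ℓ S L v

noncomputable instance QV.commGroup (v : Pl K) : CommGroup (QV ℓ S L v) :=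
  inferInstanceAs (CommGroup ((v.adicCompletion K)ˣ ⧸ Mv ℓ S L v))

/-- the local class -/
noncomputable def qv (v : Pl K) : (v.adicCompletion K)ˣ →* QV ℓ S L v := QuotientGroup.mk' (Mv ℓ S L v)

/-- the group of the local classes -/
def GQ : Type := ∀ v : T, QV ℓ S L v.1

noncomputable instance GQ.commGroup : CommGroup (GQ ℓ S T L) :=
  inferInstanceAs (CommGroup (∀ v : T, QV ℓ S L v.1))

/-- the class of a global element -/
noncomputable def ph : Kˣ →* GQ ℓ S T L where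
  toFun x := fun v => qv ℓ S L v.1 (loc v.1 x)
  map_one' := by
    funext v
    change qv ℓ S L v.1 (loc v.1 1) = 1
    rw [map_one, map_one]
  map_mul' x y := by
    funext v
    change qv ℓ S L v.1 (loc v.1 (x * y)) = qv ℓ S L v.1 (loc v.1 x) * qv ℓ S L v.1 (loc v.1 y)
    rw [map_mul, map_mul]

variable {ℓ S T L}

lemma Mv_mem {v : Pl K} (h : v ∈ S) : Mv ℓ S L v = L v := if_pos h

lemma Mv_not {v : Pl K} (h : v ∉ S) : Mv ℓ S L v = Evn ℓ v := if_neg h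

lemma qv_eq_one {v : Pl K} {x : (v.adicCompletion K)ˣ} : qv ℓ S L v x = 1 ↔ x ∈ Mv ℓ S L v :=
  QuotientGroup.eq_one_iff (N := Mv ℓ S L v) x

lemma qv_surj (v : Pl K) : Function.Surjective (qv ℓ S L v) := QuotientGroup.mk'_surjective _

lemma ph_apply (x : Kˣ) (v : T) : ph ℓ S T L x v = qv ℓ S L v.1 (loc v.1 x) := rfl

lemma GQ_mul (g h : GQ ℓ S T L) (v : T) : (g * h) v = g v * h v := rfl

lemma GQ_inv (g : GQ ℓ S T L) (v : T) : g⁻¹ v = (g v)⁻¹ := rfl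

lemma GQ_one (v : T) : (1 : GQ ℓ S T L) v = 1 := rfl

lemma GQ_pw (g : GQ ℓ S T L) (n : ℕ) (v : T) : (g ^ n) v = (g v) ^ n := rfl

lemma mem_ker {x : Kˣ} : x ∈ (ph ℓ S T L).ker ↔ ∀ v ∈ T, loc v x ∈ Mv ℓ S L v := by
  rw [MonoidHom.mem_ker]
  constructor
  · intro h v hv
    have h1 := congrFun h ⟨v, hv⟩
    rw [ph_apply] at h1
    exact qv_eq_one.1 h1
  · intro h
    funext v
    rw [ph_apply]
    exact qv_eq_one.2 (h v.1 v.2)

/-- the big group -/
noncomputable def VT (ℓ : ℕ) (T : Finset (Pl K)) : Subgroup Kˣ := Sg ℓ T (fun _ => ⊤)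

lemma mem_VT {x : Kˣ} : x ∈ VT ℓ T ↔ ∀ v, v ∉ T → Pw ℓ (v.valuation K (x : K)) :=
  ⟨fun h => h.2, fun h => ⟨fun _ _ => trivial, h⟩⟩

lemma ker_inf (hST : S ⊆ T) : (ph ℓ S T L).ker ⊓ VT ℓ T = Sg ℓ S L := by
  ext x
  rw [Subgroup.mem_inf, mem_ker, mem_VT, mem_Sg]
  constructor
  · rintro ⟨h1, h2⟩
    refine ⟨fun v hv => ?_, fun v hv => ?_⟩
    · have := h1 v (hST hv)
      rwa [Mv_mem hv] at this
    · by_cases hT : v ∈ T
      · have := h1 v hT
        rw [Mv_not hv] at this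
        exact loc_mem_Evn.1 this
      · exact h2 v hT
  · rintro ⟨h1, h2⟩
    refine ⟨fun v hv => ?_, fun v hv => h2 v fun h => hv (hST h)⟩
    by_cases hS : v ∈ S
    · rw [Mv_mem hS]
      exact h1 v hS
    · rw [Mv_not hS]
      exact loc_mem_Evn.2 (h2 v hS)

lemma pk_le_Mv (hL : ∀ v ∈ S, Pk ℓ _ ≤ L v) (v : Pl K) : Pk ℓ _ ≤ Mv ℓ S L v := by
  by_cases hS : v ∈ S
  · rw [Mv_mem hS]
    exact hL v hS
  · rw [Mv_not hS]
    exact pk_le_Evn ℓ v

lemma GQ_pow (hL : ∀ v ∈ S, Pk ℓ _ ≤ L v) (g : GQ ℓ S T L) : g ^ ℓ = 1 := by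
  funext v
  rw [GQ_pw, GQ_one]
  obtain ⟨x, hx⟩ := qv_surj v.1 (g v)
  rw [← hx, ← map_pow]
  exact qv_eq_one.2 (pk_le_Mv hL v.1 (pow_mem_Pk ℓ x))

lemma card_GQ : Nat.card (GQ ℓ S T L) = ∏ v ∈ T, (Mv ℓ S L v).index := by
  unfold GQ
  rw [Nat.card_pi, ← Finset.prod_coe_sort T]
  rfl

/-- the valuation of `ℓ` -/
lemma exists_e (ℓ : ℕ) (hℓ : ℓ.Prime) (v : Pl K) :
    ∃ e : ℕ, v.valuation K (ℓ : K) = WithZero.exp (-(e : ℤ)) := by
  have h0 : (ℓ : 𝓞 K) ≠ 0 := by exact_mod_cast hℓ.ne_zero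
  have h := mI_span (ℓ : 𝓞 K) h0 v
  have h2 : Ideal.span {(ℓ : 𝓞 K)} ≠ 0 := by
    rw [Ideal.zero_eq_bot, Ne, Ideal.span_singleton_eq_bot]
    exact h0
  rw [mI_apply h2] at h
  have e1 : ((ℓ : 𝓞 K) : K) = (ℓ : K) := map_natCast (algebraMap (𝓞 K) K) ℓ
  rw [e1] at h
  exact ⟨_, h⟩

lemma card_ge (hℓ : ℓ.Prime) (hPRD : S_PRD) (hST : S ⊆ T)
    (hS : ∀ v : Pl K, v.valuation K (ℓ : K) ≠ 1 → v ∈ S) (hB : ∀ v ∈ S, Big ℓ v (L v)) :
    ℓ ^ (2 * T.card + Module.finrank ℚ K) ≤ Nat.card (GQ ℓ S T L) ^ 2 := by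
  classical
  choose e he using fun v : Pl K => exists_e ℓ hℓ v
  have h1 := hPRD ℓ hℓ K S e hS he
  rw [card_GQ, ← Finset.prod_pow]
  have h2 : ∏ v ∈ T, (ℓ ^ 2 * (if v ∈ S then Ideal.absNorm v.asIdeal ^ e v else 1)) ≤
      ∏ v ∈ T, (Mv ℓ S L v).index ^ 2 := by
    refine Finset.prod_le_prod' fun v hv => ?_
    split_ifs with hvS
    · rw [Mv_mem hvS]
      exact (hB v hvS).2.2 (e v) (he v)
    · rw [Mv_not hvS, evn_index hℓ.pos, mul_one]
  refine le_trans (le_of_eq ?_) h2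
  rw [Finset.prod_mul_distrib, Finset.prod_const, ← pow_mul, pow_add, Finset.prod_ite_mem,
    Finset.inter_eq_right.2 hST, h1]

lemma card_ne (hℓ : ℓ.Prime) (hB : ∀ v ∈ S, Big ℓ v (L v)) : Nat.card (GQ ℓ S T L) ≠ 0 := by
  rw [card_GQ]
  refine Finset.prod_ne_zero_iff.2 fun v _ => ?_
  by_cases hvS : v ∈ S
  · rw [Mv_mem hvS]
    exact (hB v hvS).2.1
  · rw [Mv_not hvS, evn_index hℓ.pos]
    exact hℓ.ne_zero

/-- the image of the big group -/
noncomputable def IM (ℓ : ℕ) (S T : Finset (Pl K)) (L : ∀ v : Pl K, Subgroup (v.adicCompletion K)ˣ) :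
    Subgroup (GQ ℓ S T L) := (VT ℓ T).map (ph ℓ S T L)

lemma exists_psi (hℓ : ℓ.Prime) (hST : S ⊆ T) (hB : ∀ v ∈ S, Big ℓ v (L v))
    (h0 : (Pk ℓ Kˣ).relIndex (VT ℓ T) ≠ 0)
    (h1 : (Pk ℓ Kˣ).relIndex (VT ℓ T) ^ 2 ≤ Nat.card (GQ ℓ S T L) ^ 2)
    (hx : ∃ x ∈ Sg ℓ S L, ¬ IsP ℓ x) :
    ∃ ψ : GQ ℓ S T L →* ℂˣ, (∀ x ∈ VT ℓ T, ψ (ph ℓ S T L x) = 1) ∧ ∃ g, ψ g ≠ 1 := by
  have hfin : Finite (GQ ℓ S T L) := Nat.finite_of_card_ne_zero (card_ne hℓ hB)
  have hL : ∀ v ∈ S, Pk ℓ _ ≤ L v := fun v hv => (hB v hv).1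
  have hle : Pk ℓ Kˣ ≤ Sg ℓ S L := by
    rintro _ ⟨z, rfl⟩
    refine ⟨fun v hv => ?_, fun v _ => ?_⟩
    · change loc v (z ^ ℓ) ∈ L v
      rw [map_pow]
      exact hL v hv (pow_mem_Pk ℓ _)
    · change Pw ℓ (v.valuation K ((z ^ ℓ : Kˣ) : K))
      rw [Units.val_pow_eq_pow_val, map_pow]
      exact Pw.pow _
  have hle2 : Sg ℓ S L ≤ VT ℓ T := by
    rw [← ker_inf hST]
    exact inf_le_right
  have hrel := Subgroup.relIndex_mul_relIndex _ _ _ hle hle2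
  have hSV : (Sg ℓ S L).relIndex (VT ℓ T) = Nat.card (IM ℓ S T L) := by
    rw [← ker_inf hST, Subgroup.inf_relIndex_right]
    exact Subgroup.relIndex_ker _ _
  have hne : (Pk ℓ Kˣ).relIndex (Sg ℓ S L) ≠ 1 := by
    rw [Ne, Subgroup.relIndex_eq_one]
    intro h
    obtain ⟨x, hxS, hxP⟩ := hx
    obtain ⟨z, hz⟩ := h hxS
    exact hxP ⟨z, hz.symm⟩
  have hlt : (Sg ℓ S L).relIndex (VT ℓ T) < (Pk ℓ Kˣ).relIndex (VT ℓ T) := by
    have ha : (Pk ℓ Kˣ).relIndex (Sg ℓ S L) ≠ 0 := fun h => h0 (by rw [← hrel, h, zero_mul])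
    have hb : (Sg ℓ S L).relIndex (VT ℓ T) ≠ 0 := fun h => h0 (by rw [← hrel, h, mul_zero])
    have hc : 2 ≤ (Pk ℓ Kˣ).relIndex (Sg ℓ S L) := by omega
    calc (Sg ℓ S L).relIndex (VT ℓ T) < 2 * (Sg ℓ S L).relIndex (VT ℓ T) := by omega
      _ ≤ (Pk ℓ Kˣ).relIndex (Sg ℓ S L) * (Sg ℓ S L).relIndex (VT ℓ T) := Nat.mul_le_mul_right _ hc
      _ = _ := hrel
  have hle3 : (Pk ℓ Kˣ).relIndex (VT ℓ T) ≤ Nat.card (GQ ℓ S T L) :=
    (Nat.pow_le_pow_iff_left two_ne_zero).1 h1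
  have htop : IM ℓ S T L ≠ ⊤ := by
    intro h
    rw [h, Subgroup.card_top] at hSV
    omega
  obtain ⟨g, hg⟩ : ∃ g, g ∉ IM ℓ S T L := by
    by_contra hcon
    push Not at hcon
    exact htop (eq_top_iff.2 fun g _ => hcon g)
  have hgq : ((g : GQ ℓ S T L) : GQ ℓ S T L ⧸ IM ℓ S T L) ≠ 1 := by
    rw [Ne, QuotientGroup.eq_one_iff]
    exact hg
  obtain ⟨χ, hχ⟩ := CommGroup.exists_apply_ne_one_of_hasEnoughRootsOfUnity
    (GQ ℓ S T L ⧸ IM ℓ S T L) ℂ hgq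
  refine ⟨χ.comp (QuotientGroup.mk' _), fun x hx => ?_, g, hχ⟩
  rw [MonoidHom.comp_apply]
  have : QuotientGroup.mk' (IM ℓ S T L) (ph ℓ S T L x) = 1 :=
    (QuotientGroup.eq_one_iff _).2 ⟨x, hx, rfl⟩
  rw [this, map_one]

/-! ### the character on the exponents -/

/-- a uniformizer -/
noncomputable def un (v : Pl K) : Kˣ := (exists_unif v).choose

lemma un_spec (v : Pl K) : v.valuation K ((un v : Kˣ) : K) = WithZero.exp (-1 : ℤ) := (exists_unif v).choose_spec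

open Classical in
/-- the classes at the places in `T` and not in `S` -/
noncomputable def al (ℓ : ℕ) (S T : Finset (Pl K)) (L : ∀ v : Pl K, Subgroup (v.adicCompletion K)ˣ)
    (m : Pl K →₀ ℤ) : GQ ℓ S T L := fun v =>
  if v.1 ∈ S then 1 else qv ℓ S L v.1 (loc v.1 (un v.1 ^ m v.1))

lemma al_add (m m' : Pl K →₀ ℤ) : al ℓ S T L (m + m') = al ℓ S T L m * al ℓ S T L m' := by
  funext v
  rw [GQ_mul]
  unfold al
  split_ifs with h
  · rw [mul_one]
  · rw [Finsupp.add_apply, zpow_add, map_mul, map_mul]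

/-- the property of the character -/
def IsE (ψ : GQ ℓ S T L →* ℂˣ) (E : Multiplicative (Pl K →₀ ℤ) →* ℂˣ) : Prop :=
  ∀ (m : Pl K →₀ ℤ) (x : Kˣ), (∀ v, v ∉ T → v.valuation K (x : K) = WithZero.exp (-(m v))) →
    E (Multiplicative.ofAdd m) = ψ (al ℓ S T L m * (ph ℓ S T L x)⁻¹)

lemma exists_E (hT : ∀ m : Pl K → ℤ, {v | m v ≠ 0}.Finite →
      ∃ x : Kˣ, ∀ v, v ∉ T → v.valuation K (x : K) = WithZero.exp (-(m v)))
    (ψ : GQ ℓ S T L →* ℂˣ) (hψ : ∀ x ∈ VT ℓ T, ψ (ph ℓ S T L x) = 1) :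
    ∃ E : Multiplicative (Pl K →₀ ℤ) →* ℂˣ, IsE ψ E := by
  choose X hX using fun m : Pl K →₀ ℤ => hT m m.hasFiniteSupport
  have key : ∀ (m : Pl K →₀ ℤ) (x : Kˣ), (∀ v, v ∉ T → v.valuation K (x : K) = WithZero.exp (-(m v))) →
      ψ (al ℓ S T L m * (ph ℓ S T L (X m))⁻¹) = ψ (al ℓ S T L m * (ph ℓ S T L x)⁻¹) := by
    intro m x hx
    rw [map_mul, map_mul]
    congr 1
    have h1 : ψ (ph ℓ S T L ((X m)⁻¹ * x)) = 1 := by
      apply hψ
      rw [mem_VT]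
      intro v hv
      rw [Units.val_mul, Units.val_inv_eq_inv_val, map_mul, map_inv₀, hX m v hv, hx v hv, inv_mul_cancel₀]
      · exact Pw.one
      · exact WithZero.exp_ne_zero
    rw [map_mul, map_mul, map_inv] at h1
    rw [map_inv ψ (ph ℓ S T L x)]
    exact eq_inv_of_mul_eq_one_left h1
  refine ⟨MonoidHom.mk' (fun m => ψ (al ℓ S T L (Multiplicative.toAdd m) *
    (ph ℓ S T L (X (Multiplicative.toAdd m)))⁻¹)) ?_, fun m x hx => key m x hx⟩
  intro m m'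
  rw [toAdd_mul]
  rw [key _ (X (Multiplicative.toAdd m) * X (Multiplicative.toAdd m'))]
  · rw [al_add, map_mul (ph ℓ S T L), mul_inv, ← map_mul ψ]
    congr 1
    exact mul_mul_mul_comm _ _ _ _
  · intro v hv
    rw [Units.val_mul, map_mul, hX _ v hv, hX _ v hv, ← WithZero.exp_add, Finsupp.add_apply]
    congr 1
    ring

variable {ψ : GQ ℓ S T L →* ℂˣ} {E : Multiplicative (Pl K →₀ ℤ) →* ℂˣ}

/-- the global elements -/
lemma E_one (hE : IsE ψ E) {m : Pl K →₀ ℤ} {x : Kˣ} (hxS : ∀ v ∈ S, loc v x ∈ L v) (hST : S ⊆ T)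
    (hx : ∀ v, v ∉ S → v.valuation K (x : K) = WithZero.exp (-(m v))) :
    E (Multiplicative.ofAdd m) = 1 := by
  rw [hE m x (fun v hv => hx v fun h => hv (hST h))]
  have : al ℓ S T L m * (ph ℓ S T L x)⁻¹ = 1 := by
    funext v
    rw [GQ_mul, GQ_inv, GQ_one, ph_apply]
    unfold al
    split_ifs with h
    · rw [one_mul, inv_eq_one, qv_eq_one, Mv_mem h]
      exact hxS v.1 h
    · rw [← map_inv, ← map_mul, qv_eq_one, Mv_not h, ← map_inv, ← map_mul, loc_mem_Evn, Units.val_mul, Units.val_inv_eq_inv_val,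
        Units.val_zpow_eq_zpow_val, map_mul, map_inv₀, map_zpow₀, un_spec, hx v.1 h, ← WithZero.exp_zsmul,
        ← WithZero.exp_neg, ← WithZero.exp_add]
      have : m v.1 • (-1 : ℤ) + - -(m v.1) = 0 := by simp
      rw [this, WithZero.exp_zero]
      exact Pw.one
  rw [this, map_one]

/-- the exponents at the places of `S` are irrelevant -/
lemma E_supp (hE : IsE ψ E) (hST : S ⊆ T) {m : Pl K →₀ ℤ} (hm : ∀ v, v ∉ S → m v = 0) :
    E (Multiplicative.ofAdd m) = 1 := by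
  refine E_one hE (x := 1) (fun v _ => by rw [map_one]; exact one_mem _) hST fun v hv => ?_
  rw [hm v hv, Units.val_one, map_one, neg_zero, WithZero.exp_zero]

lemma E_pow (hE : IsE ψ E) (hT : ∀ m : Pl K → ℤ, {v | m v ≠ 0}.Finite →
      ∃ x : Kˣ, ∀ v, v ∉ T → v.valuation K (x : K) = WithZero.exp (-(m v)))
    (hL : ∀ v ∈ S, Pk ℓ _ ≤ L v) (m : Multiplicative (Pl K →₀ ℤ)) : E m ^ ℓ = 1 := by
  obtain ⟨n, hn⟩ : ∃ n : Pl K →₀ ℤ, m = Multiplicative.ofAdd n := ⟨Multiplicative.toAdd m, rfl⟩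
  obtain ⟨x, hx⟩ := hT n n.hasFiniteSupport
  rw [hn, hE n x hx, ← map_pow, GQ_pow hL, map_one]

/-- the character is not trivial -/
lemma E_ne (hE : IsE ψ E) (hWA : S_WA) (hℓ : ℓ.Prime) (hL : ∀ v ∈ S, Pk ℓ _ ≤ L v)
    (hψ : ∃ g, ψ g ≠ 1) (hST : S ⊆ T) :
    ∃ v, v ∉ S ∧ E (Multiplicative.ofAdd (Finsupp.single v 1)) ≠ 1 := by
  classical
  by_contra hcon
  push Not at hcon
  -- the character is trivial
  have h1 : ∀ v, E (Multiplicative.ofAdd (Finsupp.single v 1)) = 1 := by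
    intro v
    by_cases hv : v ∈ S
    · refine E_supp hE hST fun w hw => ?_
      rw [Finsupp.single_apply, if_neg]
      rintro rfl
      exact hw hv
    · exact hcon v hv
  have h2 : E = 1 := by
    apply Finsupp.mulHom_ext
    intro v n
    have : Finsupp.single v n = n • Finsupp.single v (1 : ℤ) := by
      rw [Finsupp.smul_single, smul_eq_mul, mul_one]
    rw [this, ofAdd_zsmul, map_zpow, map_zpow, h1 v]
    simp
  obtain ⟨g, hg⟩ := hψ
  apply hg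
  choose y hy using fun v : T => qv_surj v.1 (g v)
  obtain ⟨x, hx⟩ := hWA ℓ hℓ K S (fun v => if h : v ∈ T then y ⟨v, h⟩ else 1)
  -- the exponents
  obtain ⟨mx, hmx⟩ := exists_m x
  let f : Pl K →₀ ℤ := Finsupp.onFinset T (fun v => if h : v ∈ T then
    WithZero.log (Valued.v ((y ⟨v, h⟩ : (v.adicCompletion K)ˣ) : v.adicCompletion K) :
      WithZero (Multiplicative ℤ)) else 0) (fun v hv => by
        by_contra h
        exact hv (dif_neg h))
  have hf0 : ∀ v, v ∉ T → f v = 0 := fun v hv => dif_neg hv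
  have hf1 : ∀ v : T, f v.1 = WithZero.log (Valued.v ((y v : (v.1.adicCompletion K)ˣ) :
      v.1.adicCompletion K) : WithZero (Multiplicative ℤ)) := fun v => dif_pos v.2
  have h3 := hE (mx + f) x (fun v hv => by rw [hmx v, Finsupp.add_apply, hf0 v hv, add_zero])
  rw [h2, MonoidHom.one_apply] at h3
  have h4 : al ℓ S T L (mx + f) * (ph ℓ S T L x)⁻¹ * g = 1 := by
    funext v
    rw [GQ_mul, GQ_mul, GQ_inv, GQ_one, ph_apply, ← hy v]
    unfold al
    split_ifs with h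
    · obtain ⟨z, hz⟩ := hx v.1 h
      rw [dif_pos v.2] at hz
      rw [hz, map_mul, map_pow]
      have : qv ℓ S L v.1 z ^ ℓ = 1 := by
        rw [← map_pow]
        exact qv_eq_one.2 (pk_le_Mv hL v.1 (pow_mem_Pk ℓ z))
      rw [this, mul_one, one_mul, inv_mul_cancel]
    · rw [← map_inv, ← map_mul, ← map_mul, qv_eq_one, Mv_not h, ← map_inv, ← map_mul, mem_Evn,
        Units.val_mul, map_mul, v_loc, Units.val_mul, Units.val_inv_eq_inv_val,
        Units.val_zpow_eq_zpow_val, map_mul, map_inv₀, map_zpow₀, un_spec, hmx v.1, ← WithZero.exp_zsmul,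
        Finsupp.add_apply, hf1 v, ← WithZero.exp_neg, ← WithZero.exp_add]
      nth_rewrite 2 [← WithZero.exp_log (val_ne_zero v.1 (y v))]
      rw [← WithZero.exp_add]
      have : ∀ a b : ℤ, (a + b) • (-1 : ℤ) + - -a + b = 0 := by
        intro a b
        rw [smul_eq_mul]
        ring
      rw [this, WithZero.exp_zero]
      exact Pw.one
  have h5 := congrArg ψ h4
  rw [map_mul, ← h3, one_mul, map_one] at h5
  exact h5

end main

/-- CHR -/
theorem t_CHR (hCNT : S_CNT) (hPRD : S_PRD) (hNB : S_NB) (hWA : S_WA) : S_CHR := by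
  classical
  intro ℓ hℓ hℓ2 K _ _ ζ hζ S L hS hB hx
  obtain ⟨T₀, hT₀⟩ := hCNT ℓ hℓ hℓ2 K ζ hζ
  have hST : S ⊆ T₀ ∪ S := Finset.subset_union_right
  obtain ⟨hT, hne, hle⟩ := hT₀ (T₀ ∪ S) Finset.subset_union_left
  obtain ⟨T, hTe⟩ : ∃ T, T = T₀ ∪ S := ⟨_, rfl⟩
  rw [← hTe] at hST hT hne hle
  have hL : ∀ v ∈ S, Pk ℓ _ ≤ L v := fun v hv => (hB v hv).1
  obtain ⟨ψ, hψ, hψ1⟩ := exists_psi hℓ hST hB hne (hle.trans (card_ge hℓ hPRD hST hS hB)) hx
  obtain ⟨E, hE⟩ := exists_E hT ψ hψ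
  obtain ⟨v₁, hv₁S, hv₁⟩ := E_ne hE hWA hℓ hL hψ1 hST
  -- the modulus
  choose N hN1 hN using fun v : Pl K => hNB ℓ hℓ K v
  obtain ⟨𝔪, h𝔪⟩ : ∃ 𝔪 : Ideal (𝓞 K), 𝔪 = ∏ v ∈ S, v.asIdeal ^ N v := ⟨_, rfl⟩
  have hSne : S.Nonempty := by
    by_contra hcon
    rw [Finset.not_nonempty_iff_eq_empty] at hcon
    choose e he using fun v : Pl K => exists_e ℓ hℓ v
    have h1 := hPRD ℓ hℓ K S e hS he
    rw [hcon, Finset.prod_empty] at h1
    have h2 : 0 < Module.finrank ℚ K := Module.finrank_pos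
    have h3 : 1 < ℓ ^ Module.finrank ℚ K := Nat.one_lt_pow h2.ne' hℓ.one_lt
    omega
  have hbot : 𝔪 ≠ ⊥ := by
    rw [h𝔪, ← Ideal.zero_eq_bot]
    exact Finset.prod_ne_zero_iff.2 fun v _ => pow_ne_zero _ v.ne_bot
  have hdvd : ∀ v ∈ S, 𝔪 ≤ v.asIdeal ^ N v := by
    intro v hv
    rw [h𝔪]
    exact Ideal.le_of_dvd (Finset.dvd_prod_of_mem _ hv)
  have htop : 𝔪 ≠ ⊤ := by
    obtain ⟨v, hv⟩ := hSne
    intro h
    have h1 := hdvd v hv
    rw [h, top_le_iff] at h1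
    have h2 : v.asIdeal ^ N v ≤ v.asIdeal := Ideal.pow_le_self (by have := hN1 v; omega)
    rw [h1, top_le_iff] at h2
    exact v.isPrime.ne_top h2
  have hcop : ∀ v : Pl K, v ∉ S → IsCoprime v.asIdeal 𝔪 := by
    intro v hv
    rw [h𝔪]
    refine IsCoprime.prod_right fun w hw => IsCoprime.pow_right ?_
    have hvw : v.asIdeal ≠ w.asIdeal := by
      intro h
      apply hv
      rw [HeightOneSpectrum.ext h]
      exact hw
    rw [Ideal.isCoprime_iff_sup_eq]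
    exact v.isMaximal.coprime_of_ne w.isMaximal hvw
  have hne0 : ∀ 𝔞 : Ideal (𝓞 K), IsCoprime 𝔞 𝔪 → 𝔞 ≠ 0 := by
    rintro 𝔞 h rfl
    rw [Ideal.isCoprime_iff_sup_eq, Ideal.zero_eq_bot, bot_sup_eq] at h
    exact htop h
  -- the character
  let η : Ideal (𝓞 K) →*₀ ℂ :=
    { toFun := fun 𝔞 => if IsCoprime 𝔞 𝔪 then ((E (Multiplicative.ofAdd (mI 𝔞)) : ℂˣ) : ℂ) else 0
      map_zero' := by
        rw [if_neg]
        intro h
        exact hne0 0 h rfl
      map_one' := by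
        rw [if_pos isCoprime_one_left, mI_one, ofAdd_zero, map_one, Units.val_one]
      map_mul' := by
        intro 𝔞 𝔟
        by_cases ha : IsCoprime 𝔞 𝔪
        · by_cases hb : IsCoprime 𝔟 𝔪
          · rw [if_pos (IsCoprime.mul_left ha hb), if_pos ha, if_pos hb, mI_mul (hne0 _ ha) (hne0 _ hb),
              ofAdd_add, map_mul, Units.val_mul]
          · rw [if_neg (fun h => hb (IsCoprime.mul_left_iff.1 h).2), if_neg hb, mul_zero]
        · rw [if_neg (fun h => ha (IsCoprime.mul_left_iff.1 h).1), if_neg ha, zero_mul] }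
  have hη : ∀ 𝔞, IsCoprime 𝔞 𝔪 → η 𝔞 = ((E (Multiplicative.ofAdd (mI 𝔞)) : ℂˣ) : ℂ) :=
    fun 𝔞 h => if_pos h
  have hη0 : ∀ 𝔞, ¬ IsCoprime 𝔞 𝔪 → η 𝔞 = 0 := fun 𝔞 h => if_neg h
  refine ⟨𝔪, η, ⟨hbot, htop, fun _ => Nat.zero_le _, fun _ _ => rfl, ?_, ?_⟩, hcop, ?_, ?_, ?_⟩
  · intro 𝔞
    constructor
    · intro h
      by_contra hcon
      exact h (hη0 𝔞 hcon)
    · intro h
      rw [hη 𝔞 h]
      exact Units.ne_zero _
  · intro x hx0 hx1
    have hco : IsCoprime (Ideal.span {x}) 𝔪 := by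
      rw [Ideal.isCoprime_iff_exists]
      exact ⟨x, Ideal.mem_span_singleton_self x, 1 - x, by
        rw [← neg_sub]; exact neg_mem hx1, by ring⟩
    have hsg : sg (K := K) (fun _ => 0) (x : K) = 1 := by
      unfold sg
      exact Finset.prod_eq_one fun w _ => pow_zero _
    rw [hη _ hco, hsg]
    have hxK : (x : K) ≠ 0 := by
      exact_mod_cast hx0
    have h1 : E (Multiplicative.ofAdd (mI (Ideal.span {x}))) = 1 := by
      refine E_one hE (x := Units.mk0 (x : K) hxK) (fun v hv => ?_) hST fun v _ => mI_span x hx0 v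
      obtain ⟨z, hz⟩ := hN v (Units.mk0 (x : K) hxK) (by
        have h2 : x - 1 ∈ v.asIdeal ^ N v := hdvd v hv hx1
        have h3 := (v.intValuation_le_pow_iff_mem (x - 1) (N v)).2 h2
        rw [← v.valuation_of_algebraMap (K := K)] at h3
        change v.valuation K (algebraMap (𝓞 K) K (x - 1)) ≤ _ at h3
        rw [map_sub, map_one] at h3
        exact h3)
      rw [hz]
      exact hL v hv (pow_mem_Pk ℓ z)
    rw [h1, Units.val_one]
  · intro 𝔞 h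
    rw [hη 𝔞 h, ← Units.val_pow_eq_pow_val, E_pow hE hT hL, Units.val_one]
  · refine ⟨v₁.asIdeal, hcop v₁ hv₁S, ?_⟩
    rw [hη _ (hcop v₁ hv₁S), mI_prime]
    intro h
    exact hv₁ (Units.ext h)
  · intro x hxL q hq hpw hqη
    rw [hη _ (hcop q hq), mI_prime] at hqη
    have hqE : E (Multiplicative.ofAdd (Finsupp.single q 1)) ≠ 1 := by
      intro h
      apply hqη
      rw [h, Units.val_one]
    obtain ⟨m, hm⟩ := exists_m x
    have h1 : E (Multiplicative.ofAdd m) = 1 := E_one hE hxL hST fun v _ => hm v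
    have h2 : ∀ v, v ∉ S → v ≠ q → (ℓ : ℤ) ∣ m v := by
      intro v hv hvq
      have h3 := hpw v hv hvq
      rw [hm v, pw_exp hℓ.pos, dvd_neg] at h3
      exact h3
    -- the decomposition
    let b : Pl K →₀ ℤ := Finsupp.onFinset m.support (fun v => if v ∈ S ∨ v = q then 0 else m v / ℓ) (by
      intro v hv
      rw [Finsupp.mem_support_iff]
      intro h
      apply hv
      rw [h]
      simp)
    have hb : ∀ v, b v = if v ∈ S ∨ v = q then 0 else m v / ℓ := fun v => rfl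
    have h3 : E (Multiplicative.ofAdd (m - m q • Finsupp.single q 1 - (ℓ : ℤ) • b)) = 1 := by
      refine E_supp hE hST fun v hv => ?_
      rw [Finsupp.sub_apply, Finsupp.sub_apply, Finsupp.smul_apply, Finsupp.smul_apply, hb,
        Finsupp.single_apply]
      by_cases hvq : v = q
      · subst hvq
        simp
      · rw [if_neg (fun h => hvq h.symm), if_neg (by tauto), smul_zero, sub_zero, smul_eq_mul,
          Int.mul_ediv_cancel' (h2 v hv hvq), sub_self]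
    rw [ofAdd_sub, ofAdd_sub, ofAdd_zsmul, ofAdd_zsmul, _root_.map_div, _root_.map_div, map_zpow, map_zpow, h1,
      zpow_natCast, E_pow hE hT hL, div_one, one_div, inv_eq_one] at h3
    -- the order
    have h4 := E_pow hE hT hL (Multiplicative.ofAdd (Finsupp.single q 1))
    have : Fact ℓ.Prime := ⟨hℓ⟩
    have h5 : orderOf (E (Multiplicative.ofAdd (Finsupp.single q 1))) = ℓ :=
      orderOf_eq_prime h4 hqE
    have h6 := orderOf_dvd_iff_zpow_eq_one.2 h3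
    rw [h5] at h6
    rw [hm q, pw_exp hℓ.pos, dvd_neg]
    exact h6

end Pool.Agent.T3h73.SL.Chr
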