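import Pool.Agent.T3h73.SL.Stm

/-! # CYC: the valuation of `ℓ` in a valued field with a primitive `ℓ`-th root of unity -/

set_option autoImplicit false
set_option linter.all false

namespace Pool.Agent.T3h73.SL.Cyc

variable {k : Type} [Field k] (v : Valuation k (WithZero (Multiplicative ℤ)))

lemma val_root {ℓ : ℕ} (hℓ : ℓ.Prime) {ζ : k} (hζ : ζ ^ ℓ = 1) : v ζ = 1 := by
  have h1 : (v ζ) ^ ℓ = 1 := by rw [← map_pow, hζ, map_one]
  simpa [hℓ.ne_zero] using h1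

lemma one_sub_pow_le {ζ : k} (h1 : v ζ ≤ 1) (i : ℕ) : v (1 - ζ ^ i) ≤ v (1 - ζ) := by
  have e : 1 - ζ ^ i = (1 - ζ) * ∑ j ∈ Finset.range i, ζ ^ j := by
    rw [mul_neg_geom_sum]
  rw [e, map_mul]
  refine mul_le_of_le_one_right' ?_
  refine v.map_sum_le fun j _ => ?_
  rw [map_pow]
  exact pow_le_one' h1 j

lemma val_one_sub_pow {ℓ : ℕ} (hℓ : ℓ.Prime) {ζ : k} (hζ : IsPrimitiveRoot ζ ℓ) {i : ℕ}
    (h0 : 0 < i) (hi : i < ℓ) : v (1 - ζ ^ i) = v (1 - ζ) := by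
  apply le_antisymm (one_sub_pow_le v (val_root v hℓ hζ.pow_eq_one).le i)
  have hc : Nat.Coprime i ℓ := (Nat.coprime_of_lt_prime h0.ne' hi hℓ).symm
  obtain ⟨j, -, hj⟩ := Nat.exists_mul_mod_eq_one_of_coprime hc hℓ.one_lt
  have e : ζ = (ζ ^ i) ^ j := by
    rw [← pow_mul, ← Nat.mod_add_div (i * j) ℓ, hj, pow_add, pow_one, pow_mul, hζ.pow_eq_one,
      one_pow, mul_one]
  have h2 : v (ζ ^ i) ≤ 1 := by
    rw [map_pow, val_root v hℓ hζ.pow_eq_one, one_pow]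
  have h3 := one_sub_pow_le v h2 j
  rwa [← e] at h3

/-- without the condition on the residue characteristic -/
theorem val_prime {ℓ : ℕ} (hℓ : ℓ.Prime) {ζ : k} (hζ : IsPrimitiveRoot ζ ℓ) :
    v (ℓ : k) = v (1 - ζ) ^ (ℓ - 1) := by
  obtain ⟨n, rfl⟩ : ∃ n, ℓ = n + 1 := ⟨ℓ - 1, by have := hℓ.pos; omega⟩
  have h1 : ∏ i ∈ Finset.range n, (1 - ζ ^ (i + 1)) = n + 1 := hζ.prod_one_sub_pow_eq_order
  have e : ((n + 1 : ℕ) : k) = ∏ i ∈ Finset.range n, (1 - ζ ^ (i + 1)) := by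
    rw [h1]; push_cast; ring
  rw [e, map_prod, Nat.add_sub_cancel, Finset.prod_congr rfl (g := fun _ => v (1 - ζ))]
  · rw [Finset.prod_const, Finset.card_range]
  · intro i hi
    rw [Finset.mem_range] at hi
    exact val_one_sub_pow v hℓ hζ (by omega) (by omega)

theorem t_CYC : S_CYC := fun ℓ hℓ k _ v ζ hζ _ => val_prime v hℓ hζ

end Pool.Agent.T3h73.SL.Cyc
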