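import Pool.Agent.T3h73.SL.T_HENS
import Pool.Agent.H723R3.EuclidLocal

/-! # FIN: the `ℓ`-th powers have finite index in the completion -/

set_option autoImplicit false
set_option linter.all false

open NumberField IsDedekindDomain Polynomial WithZero

namespace Pool.Agent.T3h73.SL.Fin

variable {K : Type} [Field K] [NumberField K] (v : Pl K)

lemma approx (N : ℕ) (x : v.adicCompletion K)
    (hx : (Valued.v x : WithZero (Multiplicative ℤ)) ≤ 1) :
    ∃ a : 𝓞 K, (Valued.v (algebraMap (𝓞 K) (v.adicCompletion K) a - x) : WithZero (Multiplicative ℤ)) ≤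
      WithZero.exp (-(N : ℤ)) := by
  obtain ⟨r, hr⟩ := Pool.Agent.H723R3.exists_approx_int (R := 𝓞 K) (K := K) v (ξ := x) hx
    (Units.mk0 (WithZero.exp (-(N : ℤ))) WithZero.exp_ne_zero)
  exact ⟨r, hr.le⟩

lemma near_of_mem {N : ℕ} {a b : 𝓞 K} (h : a - b ∈ v.asIdeal ^ N) :
    (Valued.v (algebraMap (𝓞 K) (v.adicCompletion K) a - algebraMap (𝓞 K) (v.adicCompletion K) b) :
      WithZero (Multiplicative ℤ)) ≤ WithZero.exp (-(N : ℤ)) := by
  rw [← map_sub]
  have h5 := HeightOneSpectrum.valuedAdicCompletion_eq_valuation (K := K) v (a - b)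
  have h6 : v.valuation K (algebraMap (𝓞 K) K (a - b)) ≤ WithZero.exp (-(N : ℤ)) := by
    rw [HeightOneSpectrum.valuation_of_algebraMap]
    rwa [HeightOneSpectrum.intValuation_le_pow_iff_mem]
  rw [← h5] at h6
  exact h6

theorem t_FIN : S_FIN := by
  intro ℓ hℓ K _ _ v
  obtain ⟨N, hN, hP⟩ := Hens.near_comp hℓ v
  set G := (v.adicCompletion K)ˣ
  obtain ⟨π, hπ⟩ : ∃ π : G, (Valued.v (π : v.adicCompletion K) : WithZero (Multiplicative ℤ)) =
      WithZero.exp (-1 : ℤ) := by
    obtain ⟨p, hp⟩ := v.valuation_exists_uniformizer K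
    have h5 := HeightOneSpectrum.valuedAdicCompletion_eq_valuation' v p
    rw [hp] at h5
    refine ⟨Units.mk0 (algebraMap K (v.adicCompletion K) p) ?_, ?_⟩
    · intro h0
      have h6 : (Valued.v (algebraMap K (v.adicCompletion K) p) : WithZero (Multiplicative ℤ)) =
        WithZero.exp (-1 : ℤ) := h5
      rw [h0, map_zero] at h6
      exact WithZero.exp_ne_zero h6.symm
    · rw [Units.val_mk0]; exact h5
  -- the exponent of the valuation
  have hm : ∀ x : G, ∃ m : ℤ, (Valued.v (x : v.adicCompletion K) : WithZero (Multiplicative ℤ)) =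
      WithZero.exp m := fun x => ⟨_, (WithZero.exp_log ((Valuation.ne_zero_iff _).2 x.ne_zero)).symm⟩
  choose m hm using hm
  have hu : ∀ x : G, (Valued.v ((x * π ^ (m x) : G) : v.adicCompletion K) :
      WithZero (Multiplicative ℤ)) = 1 := by
    intro x
    rw [Units.val_mul, map_mul, hm, Units.val_zpow_eq_zpow_val, map_zpow₀, hπ, ← WithZero.exp_zsmul,
      ← WithZero.exp_add]
    simp
  have ha : ∀ x : G, ∃ a : 𝓞 K, (Valued.v (algebraMap (𝓞 K) (v.adicCompletion K) a -
      ((x * π ^ (m x) : G) : v.adicCompletion K)) : WithZero (Multiplicative ℤ)) ≤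
      WithZero.exp (-(N : ℤ)) := fun x => approx v N _ (hu x).le
  choose a ha using ha
  let g : G → ZMod ℓ × (𝓞 K ⧸ v.asIdeal ^ N) := fun x => ((m x : ZMod ℓ), Ideal.Quotient.mk _ (a x))
  have hg : ∀ x y : G, g x = g y → x⁻¹ * y ∈ Pk ℓ G := by
    intro x y hxy
    have h1 : ((m x : ℤ) : ZMod ℓ) = (m y : ZMod ℓ) := congrArg Prod.fst hxy
    have h2 : (Ideal.Quotient.mk (v.asIdeal ^ N) (a y)) = Ideal.Quotient.mk _ (a x) :=
      (congrArg Prod.snd hxy).symm
    rw [Ideal.Quotient.eq] at h2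
    have h3 := near_of_mem v h2
    set U := x * π ^ (m x) with hU
    set W := y * π ^ (m y) with hW
    have h4 : (Valued.v ((W : v.adicCompletion K) - (U : v.adicCompletion K)) :
        WithZero (Multiplicative ℤ)) ≤ WithZero.exp (-(N : ℤ)) := by
      have e : (W : v.adicCompletion K) - (U : v.adicCompletion K) =
          (algebraMap (𝓞 K) (v.adicCompletion K) (a y) - algebraMap (𝓞 K) (v.adicCompletion K) (a x)) +
          ((algebraMap (𝓞 K) (v.adicCompletion K) (a x) - U) -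
          (algebraMap (𝓞 K) (v.adicCompletion K) (a y) - W)) := by ring
      rw [e]
      refine (Valuation.map_add _ _ _).trans (max_le h3 ?_)
      exact (Valuation.map_sub _ _ _).trans (max_le (ha x) (ha y))
    have h5 : (Valued.v (((U⁻¹ * W : G) : v.adicCompletion K) - 1) :
        WithZero (Multiplicative ℤ)) ≤ WithZero.exp (-(N : ℤ)) := by
      have hU0 : (U : v.adicCompletion K) ≠ 0 := U.ne_zero
      have e : ((U⁻¹ * W : G) : v.adicCompletion K) - 1 = ((W : v.adicCompletion K) - U) / U := by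
        rw [Units.val_mul, Units.val_inv_eq_inv_val]
        field_simp
      rw [e, map_div₀, hu, div_one]
      exact h4
    obtain ⟨z, hz⟩ := hP _ h5
    obtain ⟨c, hc⟩ := (ZMod.intCast_eq_intCast_iff_dvd_sub _ _ _).1 h1
    refine ⟨z * π ^ (-c), ?_⟩
    show (z * π ^ (-c)) ^ ℓ = x⁻¹ * y
    rw [mul_pow, ← hz, hU, hW, ← zpow_natCast, ← zpow_mul]
    have e : -c * (ℓ : ℤ) = m x - m y := by rw [← neg_sub, hc]; ring
    rw [e, zpow_sub, mul_inv]
    rw [show x⁻¹ * (π ^ m x)⁻¹ * (y * π ^ m y) * (π ^ m x * (π ^ m y)⁻¹) =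
      x⁻¹ * y * ((π ^ m x)⁻¹ * π ^ m x) * (π ^ m y * (π ^ m y)⁻¹) by
        simp only [mul_comm, mul_left_comm, mul_assoc]]
    rw [inv_mul_cancel, mul_inv_cancel, mul_one, mul_one]
  haveI : NeZero ℓ := ⟨hℓ.ne_zero⟩
  haveI : Finite (𝓞 K ⧸ v.asIdeal ^ N) :=
    Ideal.finiteQuotientOfFreeOfNeBot _ (pow_ne_zero _ v.ne_bot)
  haveI : Finite (G ⧸ Pk ℓ G) := by
    refine Finite.of_injective (fun q : G ⧸ Pk ℓ G => g q.out) ?_
    intro q q' h
    have h7 := hg _ _ h
    rw [← QuotientGroup.out_eq' q, ← QuotientGroup.out_eq' q']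
    exact QuotientGroup.eq.2 h7
  exact Subgroup.index_ne_zero_of_finite

end Pool.Agent.T3h73.SL.Fin
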