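import Pool.Agent.T3h73.SL.Near
import Pool.Agent.T3h73.SL.T_CYC

/-! # HENS and NB -/

set_option autoImplicit false
set_option linter.all false

open NumberField IsDedekindDomain Polynomial WithZero

namespace Pool.Agent.T3h73.SL.Hens

lemma isP_units {ℓ : ℕ} (hℓ : ℓ.Prime) {L : Type} [Field L] {x : Lˣ} {y : L} (h : y ^ ℓ = (x : L)) :
    IsP ℓ x := by
  have hy : y ≠ 0 := by
    rintro rfl
    rw [zero_pow hℓ.ne_zero] at h
    exact x.ne_zero h.symm
  exact ⟨Units.mk0 y hy, Units.ext (by rw [Units.val_pow_eq_pow_val, Units.val_mk0, h])⟩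

theorem t_HENS : S_HENS := by
  intro ℓ hℓ K _ _ v ζ hζ x hx
  haveI : CharZero (v.adicCompletion K) := algebraRat.charZero _
  have hl0 : (ℓ : v.adicCompletion K) ≠ 0 := by exact_mod_cast hℓ.ne_zero
  have h0 : (1 - ζ : v.adicCompletion K) ≠ 0 := by
    rw [sub_ne_zero]
    exact (hζ.ne_one hℓ.one_lt).symm
  have hv := Cyc.val_prime (Valued.v : Valuation (v.adicCompletion K) (WithZero (Multiplicative ℤ))) hℓ hζ
  have h1 : (Valued.v (1 - ζ) : WithZero (Multiplicative ℤ)) ≤ 1 := by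
    refine (Valuation.map_sub _ _ _).trans (max_le (by rw [map_one]) ?_)
    rw [Cyc.val_root (Valued.v : Valuation (v.adicCompletion K) (WithZero (Multiplicative ℤ))) hℓ hζ.pow_eq_one]
  obtain ⟨y, hy⟩ := Near.isP_of_near (L := v.adicCompletion K) hℓ h0 hl0 h1 (by rw [hv]) (x := x) (by
    rw [map_mul, hv, ← pow_succ, Nat.sub_add_cancel hℓ.one_lt.le]
    exact hx)
  exact isP_units hℓ hy

/-- elements close to `1` -/
lemma near_comp {ℓ : ℕ} (hℓ : ℓ.Prime) {K : Type} [Field K] [NumberField K] (v : Pl K) :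
    ∃ N : ℕ, 1 ≤ N ∧ ∀ x : (v.adicCompletion K)ˣ,
      (Valued.v ((x : v.adicCompletion K) - 1) : WithZero (Multiplicative ℤ)) ≤ WithZero.exp (-(N : ℤ)) →
        IsP ℓ x := by
  haveI : CharZero (v.adicCompletion K) := algebraRat.charZero _
  have hl0 : (ℓ : v.adicCompletion K) ≠ 0 := by exact_mod_cast hℓ.ne_zero
  have h1 : (Valued.v ((ℓ : v.adicCompletion K) * ℓ) : WithZero (Multiplicative ℤ)) ≠ 0 :=
    (Valuation.ne_zero_iff _).2 (mul_ne_zero hl0 hl0)
  obtain ⟨m, hm⟩ : ∃ m : ℤ, (Valued.v ((ℓ : v.adicCompletion K) * ℓ) : WithZero (Multiplicative ℤ)) =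
      WithZero.exp m := ⟨_, (WithZero.exp_log h1).symm⟩
  refine ⟨(|m| + 1).toNat, ?_, ?_⟩
  · have := abs_nonneg m
    omega
  · intro x hx
    have h2 : (Valued.v ((x : v.adicCompletion K) - 1) : WithZero (Multiplicative ℤ)) <
        Valued.v ((ℓ : v.adicCompletion K) * ℓ) := by
      refine lt_of_le_of_lt hx ?_
      rw [hm, WithZero.exp_lt_exp]
      have h3 := neg_abs_le m
      have h4 := abs_nonneg m
      omega
    obtain ⟨y, hy⟩ := Near.isP_of_near_sq (L := v.adicCompletion K) hℓ hl0 h2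
    exact isP_units hℓ hy

theorem t_NB : S_NB := by
  intro ℓ hℓ K _ _ v
  obtain ⟨N, hN, h⟩ := near_comp hℓ v
  refine ⟨N, hN, fun x hx => h _ ?_⟩
  have e : ((loc v x : (v.adicCompletion K)ˣ) : v.adicCompletion K) - 1 =
      algebraMap K (v.adicCompletion K) ((x : K) - 1) := by
    rw [map_sub, map_one]; rfl
  rw [e]
  have h5 := HeightOneSpectrum.valuedAdicCompletion_eq_valuation' v ((x : K) - 1)
  rw [← h5] at hx
  exact hx

end Pool.Agent.T3h73.SL.Hens
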