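import Pool.Agent.T3h73.SL.T_HENS

/-! # NB -/

namespace Pool.Agent.T3h73.SL.Nb

theorem t_NB : S_NB := Hens.t_NB

end Pool.Agent.T3h73.SL.Nb
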