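import Mathlib
import Pool.Agent.H552R3.SymFinal
import Pool.Agent.Y713.SE.Glo
import Pool.Agent.Y713.SE.Stm
import Pool.Agent.Y773.HG.Defs

/-!
# Project SL (helper73, MP_a43263): definitions and statements of the parts

`ℓ` is an odd prime, `K` a number field containing a primitive `ℓ`-th root of unity. Aim: infinitely
many `δ` such that the Jacobian of `y ^ ℓ = δ x (x + 1)` has rank zero and no `ℓ`-primary
Tate-Shafarevich group over `K`, simultaneously for all the powers `δ ^ a`, `1 ≤ a < ℓ`.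
-/

set_option autoImplicit false
set_option linter.all false

open NumberField IsDedekindDomain Polynomial

namespace Pool.Agent.T3h73.SL

open Pool.Agent.H552R3.SymBr (symCl rootK ι)
open Pool.Agent.Y713.SE (Pw)
open Pool.Agent.Y773.G (IsModChar)

/-- `x` is an `ℓ`-th power -/
def IsP (ℓ : ℕ) {G : Type} [Monoid G] (x : G) : Prop := ∃ z, x = z ^ ℓ

/-- the subgroup of the `ℓ`-th powers -/
def Pk (ℓ : ℕ) (G : Type) [CommGroup G] : Subgroup G := (powMonoidHom ℓ : G →* G).range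

/-! ## the local conditions -/

/-- `U` is monic of degree less than `ℓ`, prime to `x (x + 1)`, and `δ r (r + 1)` is an `ℓ`-th power
in the splitting field of `U` for every root `r` of `U` -/
def Adm (ℓ : ℕ) {k : Type} [Field k] (δ : k) (U : k[X]) : Prop :=
  U.Monic ∧ U.natDegree < ℓ ∧ U.eval 0 ≠ 0 ∧ U.eval (-1) ≠ 0 ∧
  ∀ r : U.SplittingField, aeval r U = 0 →
    ∃ s : U.SplittingField, s ^ ℓ = algebraMap k U.SplittingField δ * (r * (r + 1))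

/-- the generators of the local condition at the places above `ℓ` -/
def LoGen (ℓ : ℕ) {k : Type} [Field k] (δ : kˣ) : Set kˣ :=
  {x | IsP ℓ x ∨ x = δ ∨ ∃ U : k[X], Adm ℓ (δ : k) U ∧ (x : k) * U.eval 0 = U.eval (-1)}

/-- the local condition at the places above `ℓ` -/
def Lo (ℓ : ℕ) {k : Type} [Field k] (δ : kˣ) : Subgroup kˣ := Subgroup.closure (LoGen ℓ δ)

section global

variable (ℓ : ℕ) {K : Type} [Field K] [NumberField K]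

/-- the finite places -/
abbrev Pl (K : Type) [Field K] [NumberField K] : Type := HeightOneSpectrum (𝓞 K)

/-- the map to the completion -/
noncomputable def loc (v : Pl K) : Kˣ →* (v.adicCompletion K)ˣ :=
  Units.map (algebraMap K (v.adicCompletion K) : K →* v.adicCompletion K)

/-- the elements of valuation divisible by `ℓ` -/
def Evn (v : Pl K) : Subgroup (v.adicCompletion K)ˣ where
  carrier := {x | Pw ℓ (Valued.v (x : v.adicCompletion K))}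
  mul_mem' := by
    intro a b ha hb
    show Pw ℓ (Valued.v ((a * b : (v.adicCompletion K)ˣ) : v.adicCompletion K))
    rw [Units.val_mul, map_mul]
    exact Pw.mul ha hb
  one_mem' := by
    show Pw ℓ (Valued.v ((1 : (v.adicCompletion K)ˣ) : v.adicCompletion K))
    rw [Units.val_one, map_one]
    exact Pw.one
  inv_mem' := by
    intro a ha
    show Pw ℓ (Valued.v ((a⁻¹ : (v.adicCompletion K)ˣ) : v.adicCompletion K))
    rw [Units.val_inv_eq_inv_val, map_inv₀]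
    exact Pw.inv ha

open Classical in
/-- the local condition at the place `v` of the twist by `d` -/
noncomputable def LC (v : Pl K) (d : (v.adicCompletion K)ˣ) : Subgroup (v.adicCompletion K)ˣ :=
  if v.valuation K (ℓ : K) ≠ 1 then Lo ℓ d
  else if Pw ℓ (Valued.v (d : v.adicCompletion K)) then Evn ℓ v
  else Pk ℓ _ ⊔ Subgroup.zpowers d

/-- lower bound for the index of a local condition -/
def Big (v : Pl K) (L : Subgroup (v.adicCompletion K)ˣ) : Prop :=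
  Pk ℓ _ ≤ L ∧ L.index ≠ 0 ∧ ∀ e : ℕ, v.valuation K (ℓ : K) = WithZero.exp (-(e : ℤ)) →
    ℓ ^ 2 * Ideal.absNorm v.asIdeal ^ e ≤ L.index ^ 2

/-- the elements of `K` satisfying the local conditions `L v`, `v ∈ S`, of valuation divisible by
`ℓ` outside `S` -/
def Sg (S : Finset (Pl K)) (L : ∀ v : Pl K, Subgroup (v.adicCompletion K)ˣ) : Subgroup Kˣ where
  carrier := {x | (∀ v ∈ S, loc v x ∈ L v) ∧ ∀ v, v ∉ S → Pw ℓ (v.valuation K (x : K))}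
  mul_mem' := by
    rintro a b ⟨ha, ha'⟩ ⟨hb, hb'⟩
    refine ⟨fun v hv => ?_, fun v hv => ?_⟩
    · rw [map_mul]; exact mul_mem (ha v hv) (hb v hv)
    · rw [Units.val_mul, map_mul]; exact Pw.mul (ha' v hv) (hb' v hv)
  one_mem' := by
    refine ⟨fun v hv => ?_, fun v hv => ?_⟩
    · rw [map_one]; exact one_mem _
    · rw [Units.val_one, map_one]; exact Pw.one
  inv_mem' := by
    rintro a ⟨ha, ha'⟩
    refine ⟨fun v hv => ?_, fun v hv => ?_⟩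
    · rw [map_inv]; exact inv_mem (ha v hv)
    · rw [Units.val_inv_eq_inv_val, map_inv₀]; exact Pw.inv (ha' v hv)

end global

/-! ## SYM: symbols in the Brauer group -/

/-- SYM1: a symbol of prime degree which is trivial over an extension of degree prime to `ℓ` is
trivial -/
def S_SYM1 : Prop := ∀ (ℓ : ℕ) (hℓ : ℓ.Prime) (k M : Type) [Field k] [Field M] [Algebra k M]
  [FiniteDimensional k M] (ζ : k) (hζ : IsPrimitiveRoot ζ ℓ) (a b : kˣ),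
  ¬ ℓ ∣ Module.finrank k M → symCl hℓ.pos (rootK M hζ) (ι M a) (ι M b) = 1 →
    symCl hℓ.pos hζ a b = 1

/-- NRM: if the symbol of `a` and `b` is trivial, `b` is a norm from `k(a ^ (1/ℓ))` -/
def S_NRM : Prop := ∀ (ℓ : ℕ) (hℓ : ℓ.Prime) (k : Type) [Field k] (ζ : k)
  (hζ : IsPrimitiveRoot ζ ℓ) (a b : kˣ), ¬ IsP ℓ a → symCl hℓ.pos hζ a b = 1 →
    ∃ c : AdjoinRoot (X ^ ℓ - C (a : k) : k[X]), Algebra.norm k c = (b : k)

/-- ISO: the local condition above `ℓ` is isotropic -/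
def S_ISO : Prop := ∀ (ℓ : ℕ) (hℓ : ℓ.Prime) (_ : ℓ ≠ 2) (k : Type) [Field k] [CharZero k] (ζ : k)
  (hζ : IsPrimitiveRoot ζ ℓ) (δ : kˣ), ∀ x ∈ Lo ℓ δ, ∀ y ∈ Lo ℓ δ, symCl hℓ.pos hζ x y = 1

/-! ## LOC: discretely valued fields with finite residue field of characteristic `ℓ` -/

/-- CYC: the valuation of `ℓ` -/
def S_CYC : Prop := ∀ (ℓ : ℕ) (_ : ℓ.Prime) (k : Type) [Field k]
  (v : Valuation k (WithZero (Multiplicative ℤ))) (ζ : k) (_ : IsPrimitiveRoot ζ ℓ),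
  v (1 - ζ) < 1 → v (ℓ : k) = v (1 - ζ) ^ (ℓ - 1)

/-- UNR: a unit which generates the unramified extension of degree `ℓ` -/
def S_UNR : Prop := ∀ (ℓ : ℕ) (_ : ℓ.Prime) (k : Type) [Field k]
  (v : Valuation k (WithZero (Multiplicative ℤ))) (π : k), v π = WithZero.exp (-1 : ℤ) →
  Finite (IsLocalRing.ResidueField v.valuationSubring) → ∀ (ζ : k) (_ : IsPrimitiveRoot ζ ℓ),
  v (1 - ζ) < 1 → ∃ u : kˣ, v ((u : k) - 1) ≤ v (1 - ζ) ^ ℓ ∧ ¬ IsP ℓ u ∧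
    ∀ c : AdjoinRoot (X ^ ℓ - C (u : k) : k[X]), Algebra.norm k c ≠ 0 →
      Pw ℓ (v (Algebra.norm k c))

/-- LOCC: the index of an isotropic subgroup -/
def S_LOCC : Prop := ∀ (ℓ : ℕ) (_ : ℓ.Prime) (k : Type) [Field k]
  (v : Valuation k (WithZero (Multiplicative ℤ))) (e₀ q : ℕ) (π : kˣ),
  v (π : k) = WithZero.exp (-1 : ℤ) →
  Nat.card (IsLocalRing.ResidueField v.valuationSubring) = q → q ≠ 0 → 1 ≤ e₀ →
  v (ℓ : k) = WithZero.exp (-(((ℓ - 1) * e₀ : ℕ) : ℤ)) →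
  (∀ x : kˣ, v ((x : k) - 1) < WithZero.exp (-((ℓ * e₀ : ℕ) : ℤ)) → IsP ℓ x) →
  ∀ (G : Type 1) [CommGroup G] (s : kˣ → kˣ → G), (∀ a b c, s (a * b) c = s a c * s b c) →
  (∀ a b c, s a (b * c) = s a b * s a c) → (∀ a b : kˣ, (a : k) + b = 1 → s a b = 1) →
  (∀ a b, s a b ^ ℓ = 1) →
  (∃ u : kˣ, v ((u : k) - 1) ≤ WithZero.exp (-((ℓ * e₀ : ℕ) : ℤ)) ∧ s u π ≠ 1) →
  ∀ L : Subgroup kˣ, L.index ≠ 0 → (∀ x : kˣ, x ^ ℓ ∈ L) → (∀ x ∈ L, ∀ y ∈ L, s x y = 1) →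
    ℓ ^ 2 * q ^ ((ℓ - 1) * e₀) ≤ L.index ^ 2

/-- HENS: elements close to `1` are `ℓ`-th powers in the completion -/
def S_HENS : Prop := ∀ (ℓ : ℕ) (_ : ℓ.Prime) (K : Type) [Field K] [NumberField K] (v : Pl K)
  (ζ : v.adicCompletion K) (_ : IsPrimitiveRoot ζ ℓ) (x : (v.adicCompletion K)ˣ),
  Valued.v ((x : v.adicCompletion K) - 1) < (Valued.v (1 - ζ) : WithZero (Multiplicative ℤ)) ^ ℓ →
    IsP ℓ x

/-- FIN: the `ℓ`-th powers have finite index in the completion -/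
def S_FIN : Prop := ∀ (ℓ : ℕ) (_ : ℓ.Prime) (K : Type) [Field K] [NumberField K] (v : Pl K),
  (Pk ℓ (v.adicCompletion K)ˣ).index ≠ 0

/-- TAM: the completion at a place not above `ℓ`: the index of the `ℓ`-th powers is `ℓ ^ 2`, the
index of the elements of valuation divisible by `ℓ` is `ℓ` -/
def S_TAM : Prop := ∀ (ℓ : ℕ) (_ : ℓ.Prime) (K : Type) [Field K] [NumberField K] (ζ : K)
  (_ : IsPrimitiveRoot ζ ℓ) (v : Pl K), v.valuation K (ℓ : K) = 1 →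
  (Pk ℓ (v.adicCompletion K)ˣ).index = ℓ ^ 2 ∧ (Evn ℓ v).index = ℓ

/-- RES: the residue field of the completion -/
def S_RES : Prop := ∀ (K : Type) [Field K] [NumberField K] (v : Pl K),
  Nat.card (IsLocalRing.ResidueField
    (Valued.v : Valuation (v.adicCompletion K) (WithZero (Multiplicative ℤ))).valuationSubring) =
      Ideal.absNorm v.asIdeal

/-- BIG: all the local conditions have large index -/
def S_BIG : Prop := ∀ (ℓ : ℕ) (_ : ℓ.Prime) (_ : ℓ ≠ 2) (K : Type) [Field K] [NumberField K] (ζ : K)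
  (_ : IsPrimitiveRoot ζ ℓ) (v : Pl K) (d : (v.adicCompletion K)ˣ), Big ℓ v (LC ℓ v d)

/-! ## GLOB: ray class characters and the choice of primes -/

/-- PRD: the norms of the places above `ℓ` -/
def S_PRD : Prop := ∀ (ℓ : ℕ) (_ : ℓ.Prime) (K : Type) [Field K] [NumberField K]
  (S : Finset (Pl K)) (e : Pl K → ℕ), (∀ v, v.valuation K (ℓ : K) ≠ 1 → v ∈ S) →
  (∀ v, v.valuation K (ℓ : K) = WithZero.exp (-(e v : ℤ))) →
  ∏ v ∈ S, Ideal.absNorm v.asIdeal ^ e v = ℓ ^ Module.finrank ℚ K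

/-- CNT: the group of elements of valuation divisible by `ℓ` outside a large finite set `T`, and
elements with given valuations outside `T` -/
def S_CNT : Prop := ∀ (ℓ : ℕ) (_ : ℓ.Prime) (_ : ℓ ≠ 2) (K : Type) [Field K] [NumberField K] (ζ : K)
  (_ : IsPrimitiveRoot ζ ℓ), ∃ T₀ : Finset (Pl K), ∀ T : Finset (Pl K), T₀ ⊆ T →
    (∀ m : Pl K → ℤ, {v | m v ≠ 0}.Finite →
      ∃ x : Kˣ, ∀ v, v ∉ T → v.valuation K (x : K) = WithZero.exp (-(m v))) ∧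
    (Pk ℓ Kˣ).relIndex (Sg ℓ T (fun _ => ⊤)) ≠ 0 ∧
    (Pk ℓ Kˣ).relIndex (Sg ℓ T (fun _ => ⊤)) ^ 2 ≤ ℓ ^ (2 * T.card + Module.finrank ℚ K)

/-- WA: weak approximation modulo `ℓ`-th powers -/
def S_WA : Prop := ∀ (ℓ : ℕ) (_ : ℓ.Prime) (K : Type) [Field K] [NumberField K]
  (S : Finset (Pl K)) (d : ∀ v : Pl K, (v.adicCompletion K)ˣ),
  ∃ x : Kˣ, ∀ v ∈ S, ∃ z, loc v x = d v * z ^ ℓ

/-- NB: elements of the ring of integers congruent to `1` modulo a high power are `ℓ`-th powers -/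
def S_NB : Prop := ∀ (ℓ : ℕ) (_ : ℓ.Prime) (K : Type) [Field K] [NumberField K] (v : Pl K),
  ∃ N : ℕ, 1 ≤ N ∧ ∀ x : Kˣ, v.valuation K ((x : K) - 1) ≤ WithZero.exp (-(N : ℤ)) →
    IsP ℓ (loc v x)

/-- CHR: a ray class character of order `ℓ` which is trivial on the elements satisfying the local
conditions, if there are too many elements satisfying all the conditions -/
def S_CHR : Prop := ∀ (ℓ : ℕ) (_ : ℓ.Prime) (_ : ℓ ≠ 2) (K : Type) [Field K] [NumberField K] (ζ : K)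
  (_ : IsPrimitiveRoot ζ ℓ) (S : Finset (Pl K)) (L : ∀ v : Pl K, Subgroup (v.adicCompletion K)ˣ),
  (∀ v, v.valuation K (ℓ : K) ≠ 1 → v ∈ S) → (∀ v ∈ S, Big ℓ v (L v)) →
  (∃ x ∈ Sg ℓ S L, ¬ IsP ℓ x) →
  ∃ (𝔪 : Ideal (𝓞 K)) (η : Ideal (𝓞 K) →*₀ ℂ), IsModChar 𝔪 (fun _ => 0) η ∧
    (∀ v : Pl K, v ∉ S → IsCoprime v.asIdeal 𝔪) ∧
    (∀ 𝔞, IsCoprime 𝔞 𝔪 → η 𝔞 ^ ℓ = 1) ∧ (∃ 𝔞, IsCoprime 𝔞 𝔪 ∧ η 𝔞 ≠ 1) ∧
    ∀ x : Kˣ, (∀ v ∈ S, loc v x ∈ L v) → ∀ q : Pl K, q ∉ S →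
      (∀ v, v ∉ S → v ≠ q → Pw ℓ (v.valuation K (x : K))) → η q.asIdeal ≠ 1 →
        Pw ℓ (q.valuation K (x : K))

/-- DEN1: the primes at which a character of order `ℓ` is trivial have density `1/ℓ` -/
def S_DEN1 : Prop := ∀ (ℓ : ℕ) (_ : ℓ.Prime) (K : Type) [Field K] [NumberField K]
  (𝔪 : Ideal (𝓞 K)) (η : Ideal (𝓞 K) →*₀ ℂ), IsModChar 𝔪 (fun _ => 0) η →
  (∀ 𝔞, IsCoprime 𝔞 𝔪 → η 𝔞 ^ ℓ = 1) → (∃ 𝔞, IsCoprime 𝔞 𝔪 ∧ η 𝔞 ≠ 1) →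
  Filter.Tendsto (fun x : ℝ => (∑ᶠ q ∈ {q : Pl K | (Ideal.absNorm q.asIdeal : ℝ) ≤ x ∧
    η q.asIdeal = 1}, Real.log (Ideal.absNorm q.asIdeal)) / x) Filter.atTop (nhds (1 / (ℓ : ℝ)))

/-- DEN0: the prime ideal theorem -/
def S_DEN0 : Prop := ∀ (K : Type) [Field K] [NumberField K],
  Filter.Tendsto (fun x : ℝ => (∑ᶠ q ∈ {q : Pl K | (Ideal.absNorm q.asIdeal : ℝ) ≤ x},
    Real.log (Ideal.absNorm q.asIdeal)) / x) Filter.atTop (nhds 1)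

/-- DEN2: the primes at which `y` is an `ℓ`-th power have upper density at most `1/ℓ` -/
def S_DEN2 : Prop := ∀ (ℓ : ℕ) (_ : ℓ.Prime) (K : Type) [Field K] [NumberField K] (ζ : K)
  (_ : IsPrimitiveRoot ζ ℓ) (y : Kˣ), ¬ IsP ℓ y → ∀ ε : ℝ, 0 < ε →
  ∀ᶠ x : ℝ in Filter.atTop, (∑ᶠ q ∈ {q : Pl K | (Ideal.absNorm q.asIdeal : ℝ) ≤ x ∧
    IsP ℓ (loc q y)}, Real.log (Ideal.absNorm q.asIdeal)) ≤ (1 / (ℓ : ℝ) + ε) * x

/-- DEN: a prime at which the character is not trivial and `y` is not an `ℓ`-th power -/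
def S_DEN : Prop := ∀ (ℓ : ℕ) (_ : ℓ.Prime) (_ : ℓ ≠ 2) (K : Type) [Field K] [NumberField K] (ζ : K)
  (_ : IsPrimitiveRoot ζ ℓ) (𝔪 : Ideal (𝓞 K)) (η : Ideal (𝓞 K) →*₀ ℂ),
  IsModChar 𝔪 (fun _ => 0) η → (∀ 𝔞, IsCoprime 𝔞 𝔪 → η 𝔞 ^ ℓ = 1) →
  (∃ 𝔞, IsCoprime 𝔞 𝔪 ∧ η 𝔞 ≠ 1) → ∀ y : Kˣ, ¬ IsP ℓ y → ∀ B : Finset (Pl K),
  ∃ q : Pl K, q ∉ B ∧ η q.asIdeal ≠ 1 ∧ ¬ IsP ℓ (loc q y)

/-- RAYP: every ray class of a totally complex field contains a positive proportion of primes -/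
def S_RAYP : Prop := ∀ (K : Type) [Field K] [NumberField K] [IsTotallyComplex K] (𝔪 : Ideal (𝓞 K)),
  𝔪 ≠ ⊥ → 𝔪 ≠ ⊤ → ∀ 𝔟 : Ideal (𝓞 K), IsCoprime 𝔟 𝔪 → ∃ c X₀ : ℝ, 0 < c ∧ ∀ x : ℝ, X₀ ≤ x →
    c * (x / Real.log x) ≤ (Set.ncard {𝔭 : Pl K | (Ideal.absNorm 𝔭.asIdeal : ℝ) ≤ x ∧
      ∃ a b : 𝓞 K, a ≠ 0 ∧ b ≠ 0 ∧ a - 1 ∈ 𝔪 ∧ b - 1 ∈ 𝔪 ∧
        Ideal.span {a} * 𝔭.asIdeal = Ideal.span {b} * 𝔟} : ℝ)

/-- QST: the choice of a prime -/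
def S_QST : Prop := ∀ (ℓ : ℕ) (_ : ℓ.Prime) (_ : ℓ ≠ 2) (K : Type) [Field K] [NumberField K] (ζ : K)
  (_ : IsPrimitiveRoot ζ ℓ) (S : Finset (Pl K)) (L : ∀ v : Pl K, Subgroup (v.adicCompletion K)ˣ),
  (∀ v, v.valuation K (ℓ : K) ≠ 1 → v ∈ S) → (∀ v ∈ S, Big ℓ v (L v)) →
  ∀ y ∈ Sg ℓ S L, ¬ IsP ℓ y →
  ∃ q : Pl K, q ∉ S ∧ ¬ IsP ℓ (loc q y) ∧ ∀ x : Kˣ, (∀ v ∈ S, loc v x ∈ L v) →
    (∀ v, v ∉ S → v ≠ q → Pw ℓ (v.valuation K (x : K))) → Pw ℓ (q.valuation K (x : K))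

/-- IND: killing all the groups simultaneously -/
def S_IND : Prop := ∀ (ℓ : ℕ) (_ : ℓ.Prime) (_ : ℓ ≠ 2) (K : Type) [Field K] [NumberField K] (ζ : K)
  (_ : IsPrimitiveRoot ζ ℓ) (S : Finset (Pl K)) (d : ∀ v : Pl K, (v.adicCompletion K)ˣ),
  (∀ v, v.valuation K (ℓ : K) ≠ 1 → v ∈ S) →
  ∃ (S' : Finset (Pl K)) (d' : ∀ v : Pl K, (v.adicCompletion K)ˣ), S ⊆ S' ∧ (∀ v ∈ S, d' v = d v) ∧
    ∀ a : ℕ, 1 ≤ a → a < ℓ → ∀ x ∈ Sg ℓ S' (fun v => LC ℓ v (d' v ^ a)), IsP ℓ x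

/-- DEL: elements with given local classes and one further prime -/
def S_DEL : Prop := ∀ (ℓ : ℕ) (_ : ℓ.Prime) (K : Type) [Field K] [NumberField K]
  [IsTotallyComplex K] (S : Finset (Pl K)) (d : ∀ v : Pl K, (v.adicCompletion K)ˣ),
  ∃ c X₀ : ℝ, 0 < c ∧ ∀ x : ℝ, X₀ ≤ x → c * (x / Real.log x) ≤
    (Set.ncard {𝔭 : Pl K | (Ideal.absNorm 𝔭.asIdeal : ℝ) ≤ x ∧ 𝔭 ∉ S ∧ ∃ δ : Kˣ,
      𝔭.valuation K (δ : K) = WithZero.exp (-1 : ℤ) ∧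
      (∀ v, v ∉ S → v ≠ 𝔭 → v.valuation K (δ : K) = 1) ∧
      ∀ v ∈ S, ∃ z, loc v δ = d v * z ^ ℓ} : ℝ)

/-! ## DESC: the descent -/

/-- the conclusion for the curve `y ^ ℓ = δ x (x + 1)` -/
def Good (ℓ : ℕ) (K : Type) [Field K] [NumberField K] (δ : K) : Prop :=
  Pool.Agent.Y713.Jac.ShaPrimaryTrivial ℓ (C δ * (X * (X + 1)) : K[X]) (𝓞 K) ∧
  ∃ T : Pool.Agent.Y713.Jac.J ℓ (C δ * (X * (X + 1)) : K[X]) K, T ^ ℓ = 1 ∧
    ∀ P : Pool.Agent.Y713.Jac.J ℓ (C δ * (X * (X + 1)) : K[X]) K, ∃ (b : ℕ)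
      (Q : Pool.Agent.Y713.Jac.J ℓ (C δ * (X * (X + 1)) : K[X]) K), P = T ^ b * Q ^ ℓ

/-- DESC: the descent -/
def S_DESC : Prop := ∀ (ℓ : ℕ) (_ : ℓ.Prime) (_ : ℓ ≠ 2) (K : Type) [Field K] [NumberField K] (ζ : K)
  (_ : IsPrimitiveRoot ζ ℓ) (δ : Kˣ),
  (∀ x : Kˣ, (∀ v : Pl K, loc v x ∈ LC ℓ v (loc v δ)) → ∃ (m : ℤ) (z : Kˣ), x = δ ^ m * z ^ ℓ) →
  Good ℓ K (δ : K)

end Pool.Agent.T3h73.SL
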