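import Mathlib
import Pool.Agent.T3h73.SL.Stm

/-!
# Project SL (MP_a43263), task LOCC (helper4)

The index of a subgroup of the multiplicative group of a discretely valued field with finite residue
field of characteristic `ℓ` which is isotropic for a nondegenerate Steinberg symbol of order `ℓ`.
-/

set_option autoImplicit false
set_option linter.all false

open WithZero

namespace Pool.Agent.T3h73.SL.Locc


/-- a nontrivial finite group killed by a prime has at least that many elements -/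
theorem le_card_of_pow {Q : Type*} [Group Q] [Finite Q] {ℓ : ℕ} (hℓ : ℓ.Prime)
    (hp : ∀ x : Q, x ^ ℓ = 1) (hn : ∃ x : Q, x ≠ 1) : ℓ ≤ Nat.card Q := by
  obtain ⟨x, hx⟩ := hn
  have h := orderOf_eq_prime (p := ℓ) (hp := ⟨hℓ⟩) (hp x) hx
  have := Nat.le_of_dvd Nat.card_pos (orderOf_dvd_natCard x)
  omega

theorem le_index_of_pow {Q : Type*} [CommGroup Q] {ℓ : ℕ} (hℓ : ℓ.Prime) (H : Subgroup Q)
    (hf : H.index ≠ 0) (hp : ∀ x : Q, x ^ ℓ ∈ H) (hn : H ≠ ⊤) : ℓ ≤ H.index := by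
  have : Finite (Q ⧸ H) := Nat.finite_of_card_ne_zero hf
  apply le_card_of_pow hℓ
  · intro x
    induction x using QuotientGroup.induction_on with
    | H z =>
      rw [← QuotientGroup.mk_pow, QuotientGroup.eq_one_iff]
      exact hp z
  · obtain ⟨x, hx⟩ : ∃ x, x ∉ H := by
      by_contra hcon
      push Not at hcon
      exact hn (by ext x; simp [hcon x])
    exact ⟨(x : Q ⧸ H), fun h => hx ((QuotientGroup.eq_one_iff x).1 h)⟩

/-- the pairing lemma -/
theorem pairing {κ : Type*} [Field κ] [Finite κ] (W A B : Subgroup (Multiplicative κ)) (hW : W ≠ ⊤)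
    (h : ∀ a ∈ A, ∀ b ∈ B, Multiplicative.ofAdd (a.toAdd * b.toAdd) ∈ W) :
    Nat.card κ ≤ A.index * B.index := by
  classical
  set Q := Multiplicative κ with hQ
  have hfQ : Finite Q := inferInstanceAs (Finite κ)
  obtain ⟨c, hc⟩ : ∃ x, x ∉ W := by
    by_contra hcon
    push Not at hcon
    exact hW (by ext x; simp [hcon x])
  have hc' : (c : Q ⧸ W) ≠ 1 := fun h => hc ((QuotientGroup.eq_one_iff c).1 h)
  obtain ⟨φ, hφ⟩ := CommGroup.exists_apply_ne_one_of_hasEnoughRootsOfUnity (Q ⧸ W) ℂ hc'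
  let ψ : Q →* ℂˣ := φ.comp (QuotientGroup.mk' W)
  have hψW : ∀ w ∈ W, ψ w = 1 := by
    intro w hw
    show φ (w : Q ⧸ W) = 1
    rw [(QuotientGroup.eq_one_iff w).2 hw, map_one]
  have hψc : ψ c ≠ 1 := hφ
  -- the multiplication maps
  let μ : B → (Q →* Q) := fun b =>
    { toFun := fun a => Multiplicative.ofAdd (a.toAdd * (b : Q).toAdd)
      map_one' := by simp
      map_mul' := by
        intro x y
        show Multiplicative.ofAdd ((x.toAdd + y.toAdd) * (b : Q).toAdd) = _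
        rw [add_mul]
        rfl }
  let χ : B → (Q ⧸ A →* ℂˣ) := fun b => QuotientGroup.lift A (ψ.comp (μ b)) (by
    intro a ha
    exact hψW _ (h a ha b b.2))
  have hχ : Function.Injective χ := by
    intro b b' hbb
    by_contra hne
    have hne' : ((b : Q).toAdd - (b' : Q).toAdd) ≠ 0 := by
      intro h0
      apply hne
      apply Subtype.ext
      have : (b : Q).toAdd = (b' : Q).toAdd := sub_eq_zero.1 h0
      exact this
    have hev : ∀ x : Q, ψ (μ b x) = ψ (μ b' x) := by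
      intro x
      have := DFunLike.congr_fun hbb (x : Q ⧸ A)
      exact this
    set x : Q := Multiplicative.ofAdd (c.toAdd / ((b : Q).toAdd - (b' : Q).toAdd)) with hx
    have h1 := hev x
    apply hψc
    have h2 : μ b x = c * μ b' x := by
      show Multiplicative.ofAdd (x.toAdd * (b : Q).toAdd) = c * Multiplicative.ofAdd (x.toAdd * (b' : Q).toAdd)
      have h3 : x.toAdd * (b : Q).toAdd = c.toAdd + x.toAdd * (b' : Q).toAdd := by
        rw [hx, toAdd_ofAdd]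
        field_simp
        ring
      rw [h3, ofAdd_add, ofAdd_toAdd]
    rw [h2, map_mul] at h1
    simpa using h1
  have hfin : Finite (Q ⧸ A →* ℂˣ) := by
    have := CommGroup.card_monoidHom_of_hasEnoughRootsOfUnity (Q ⧸ A) ℂ
    apply Nat.finite_of_card_ne_zero
    rw [this]
    exact Nat.card_pos.ne'
  have hcard : Nat.card B ≤ A.index := by
    have h1 := Nat.card_le_card_of_injective χ hχ
    rw [CommGroup.card_monoidHom_of_hasEnoughRootsOfUnity (Q ⧸ A) ℂ] at h1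
    exact h1
  have h2 : Nat.card B * B.index = Nat.card Q := B.card_mul_index
  have h3 : Nat.card Q = Nat.card κ := rfl
  rw [← h3, ← h2]
  exact Nat.mul_le_mul_right _ hcard

/-- counting -/
theorem count (ℓ e : ℕ) (hℓ : 1 ≤ ℓ) (he : 1 ≤ e) :
    (ℓ - 1) * e ≤ ((Finset.Ico 1 (ℓ * e)).filter (fun i => ¬ ℓ ∣ i)).card := by
  have h1 := Finset.card_filter_add_card_filter_not (s := Finset.Ico 1 (ℓ * e)) (fun i => ℓ ∣ i)
  have h2 : ((Finset.Ico 1 (ℓ * e)).filter (fun i => ℓ ∣ i)).card = e - 1 := by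
    have : Finset.Ico 1 (ℓ * e) = Finset.Ioc 0 (ℓ * e - 1) := by
      ext x
      simp only [Finset.mem_Ico, Finset.mem_Ioc]
      have : 1 ≤ ℓ * e := Nat.mul_pos hℓ he
      omega
    rw [this, Nat.Ioc_filter_dvd_card_eq_div]
    have h3 : ℓ * e - 1 = (ℓ - 1) + ℓ * (e - 1) := by
      obtain ⟨a, rfl⟩ := Nat.exists_eq_add_of_le hℓ
      obtain ⟨b, rfl⟩ := Nat.exists_eq_add_of_le he
      simp only [Nat.add_sub_cancel_left]
      have : (1 + a) * (1 + b) = 1 + a + (1 + a) * b := by ring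
      omega
    rw [h3, Nat.add_mul_div_left _ _ hℓ, Nat.div_eq_of_lt (by omega)]
    omega
  rw [Nat.card_Ico] at h1
  have h4 : ℓ * e = (ℓ - 1) * e + e := by
    obtain ⟨a, rfl⟩ := Nat.exists_eq_add_of_le hℓ
    simp only [Nat.add_sub_cancel_left]
    ring
  omega

/-- the product of the indices -/
theorem prod_bound (ℓ e q : ℕ) (hℓ : 1 ≤ ℓ) (he : 1 ≤ e) (hq : 1 ≤ q) (a : ℕ → ℕ)
    (h1 : ∀ i, 1 ≤ a i)
    (h : ∀ i, 1 ≤ i → i < ℓ * e → ¬ ℓ ∣ i → q ≤ a i * a (ℓ * e - i)) :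
    q ^ ((ℓ - 1) * e) ≤ (∏ i ∈ Finset.Ico 1 (ℓ * e), a i) ^ 2 := by
  have hr : ∏ i ∈ Finset.Ico 1 (ℓ * e), a i = ∏ i ∈ Finset.Ico 1 (ℓ * e), a (ℓ * e - i) := by
    refine Finset.prod_bij' (fun i _ => ℓ * e - i) (fun i _ => ℓ * e - i) ?_ ?_ ?_ ?_ ?_
    · intro i hi
      simp only [Finset.mem_Ico] at hi ⊢
      omega
    · intro i hi
      simp only [Finset.mem_Ico] at hi ⊢
      omega
    · intro i hi
      simp only [Finset.mem_Ico] at hi ⊢
      omega
    · intro i hi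
      simp only [Finset.mem_Ico] at hi ⊢
      omega
    · intro i hi
      simp only [Finset.mem_Ico] at hi
      congr 1
      omega
  have h2 : (∏ i ∈ Finset.Ico 1 (ℓ * e), a i) ^ 2 =
      ∏ i ∈ Finset.Ico 1 (ℓ * e), (a i * a (ℓ * e - i)) := by
    rw [Finset.prod_mul_distrib, ← hr, sq]
  rw [h2]
  calc q ^ ((ℓ - 1) * e) ≤ q ^ ((Finset.Ico 1 (ℓ * e)).filter (fun i => ¬ ℓ ∣ i)).card :=
        Nat.pow_le_pow_right hq (count ℓ e hℓ he)
    _ = ∏ i ∈ Finset.Ico 1 (ℓ * e), (if ¬ ℓ ∣ i then q else 1) := by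
        rw [Finset.prod_ite, Finset.prod_const, Finset.prod_const_one, mul_one]
    _ ≤ _ := by
        apply Finset.prod_le_prod'
        intro i hi
        simp only [Finset.mem_Ico] at hi
        by_cases hd : ℓ ∣ i
        · rw [if_neg (not_not.2 hd)]
          exact Nat.mul_pos (h1 _) (h1 _)
        · rw [if_pos hd]
          exact h i hi.1 hi.2 hd



section val

variable {k : Type} [Field k] (v : Valuation k (WithZero (Multiplicative ℤ)))

/-- the residue field -/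
abbrev κ := IsLocalRing.ResidueField v.valuationSubring

theorem res_eq_zero (a : v.valuationSubring) :
    IsLocalRing.residue v.valuationSubring a = 0 ↔ v (a : k) < 1 := by
  rw [IsLocalRing.residue_eq_zero_iff, ValuationSubring.valuation_lt_one_iff,
    ← (Valuation.isEquiv_iff_val_lt_one.1 v.isEquiv_valuation_valuationSubring)]

theorem res_eq (a b : v.valuationSubring) :
    IsLocalRing.residue v.valuationSubring a = IsLocalRing.residue v.valuationSubring b ↔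
      v ((a : k) - b) < 1 := by
  rw [← sub_eq_zero, ← map_sub, res_eq_zero]
  rfl

theorem exp_le_one (i : ℕ) : exp (-(i : ℤ)) ≤ (1 : WithZero (Multiplicative ℤ)) := by
  rw [← exp_zero, exp_le_exp]
  omega

theorem exp_lt_one {i : ℕ} (hi : 1 ≤ i) : exp (-(i : ℤ)) < (1 : WithZero (Multiplicative ℤ)) := by
  rw [← exp_zero, exp_lt_exp]
  omega

/-- `U i` -/
def U (i : ℕ) : Subgroup kˣ where
  carrier := {x | v (x : k) = 1 ∧ v ((x : k) - 1) ≤ exp (-(i : ℤ))}
  mul_mem' := by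
    rintro a b ⟨ha, ha'⟩ ⟨hb, hb'⟩
    refine ⟨by rw [Units.val_mul, map_mul, ha, hb, one_mul], ?_⟩
    have h : ((a * b : kˣ) : k) - 1 = a * ((b : k) - 1) + ((a : k) - 1) := by
      rw [Units.val_mul]; ring
    rw [h]
    refine (v.map_add _ _).trans (max_le ?_ ha')
    rw [map_mul, ha, one_mul]
    exact hb'
  one_mem' := by
    refine ⟨by rw [Units.val_one, map_one], ?_⟩
    rw [Units.val_one, sub_self, map_zero]
    exact zero_le
  inv_mem' := by
    rintro a ⟨ha, ha'⟩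
    have h0 : v (((a⁻¹ : kˣ) : k)) = 1 := by
      rw [Units.val_inv_eq_inv_val, map_inv₀, ha, inv_one]
    refine ⟨h0, ?_⟩
    have h : ((a⁻¹ : kˣ) : k) - 1 = ((a⁻¹ : kˣ) : k) * (1 - (a : k)) := by
      rw [mul_sub, mul_one, Units.inv_mul]
    rw [h, map_mul, h0, one_mul, v.map_sub_swap]
    exact ha'

theorem mem_U {i : ℕ} {x : kˣ} : x ∈ U v i ↔ v (x : k) = 1 ∧ v ((x : k) - 1) ≤ exp (-(i : ℤ)) :=
  Iff.rfl

theorem U_le {i j : ℕ} (h : i ≤ j) : U v j ≤ U v i := by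
  rintro x ⟨hx, hx'⟩
  refine ⟨hx, hx'.trans ?_⟩
  rw [exp_le_exp]
  omega

theorem mem_U' {i : ℕ} (hi : 1 ≤ i) {x : kˣ} : x ∈ U v i ↔ v ((x : k) - 1) ≤ exp (-(i : ℤ)) := by
  refine ⟨fun h => h.2, fun h => ⟨?_, h⟩⟩
  have h1 : v ((x : k) - 1) < 1 := h.trans_lt (exp_lt_one hi)
  have h2 := Valuation.map_one_add_of_lt v h1
  rwa [add_sub_cancel] at h2

/-- the unit `1 + a` -/
noncomputable def up (a : k) (h : v a < 1) : kˣ :=
  Units.mk0 (1 + a) (by
    intro h0
    have := Valuation.map_one_add_of_lt v h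
    rw [h0, map_zero] at this
    exact zero_ne_one this)

theorem up_val (a : k) (h : v a < 1) : ((up v a h : kˣ) : k) = 1 + a := rfl

variable (π : kˣ) (hπ : v (π : k) = exp (-1 : ℤ))

include hπ in
theorem v_pi (i : ℕ) : v ((π : k) ^ i) = exp (-(i : ℤ)) := by
  rw [map_pow, hπ, ← exp_nsmul]
  congr 1
  simp

include hπ in
theorem quo_mem (i : ℕ) {x : k} (hx : v x ≤ exp (-(i : ℤ))) : x / (π : k) ^ i ∈ v.valuationSubring := by
  rw [Valuation.mem_valuationSubring_iff, map_div₀, v_pi v π hπ]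
  exact div_le_one_of_le₀ hx zero_le

include hπ in
theorem quo_lt (i : ℕ) {x : k} (hx : v x ≤ exp (-((i : ℤ) + 1))) : v (x / (π : k) ^ i) < 1 := by
  rw [map_div₀, v_pi v π hπ, div_lt_one₀ exp_pos]
  refine hx.trans_lt ?_
  rw [exp_lt_exp]
  omega

/-- the leading coefficient -/
noncomputable def lc (i : ℕ) (x : U v i) : κ v :=
  IsLocalRing.residue v.valuationSubring ⟨(((x : kˣ) : k) - 1) / (π : k) ^ i, quo_mem v π hπ i x.2.2⟩

/-- the homomorphism -/
noncomputable def f (i : ℕ) (hi : 1 ≤ i) : U v i →* Multiplicative (κ v) :=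
  MonoidHom.mk' (fun x => Multiplicative.ofAdd (lc v π hπ i x)) (by
    intro x y
    rw [← ofAdd_add]
    congr 1
    rw [lc, lc, lc, ← map_add, res_eq]
    have h : (((((x * y : U v i) : kˣ) : k) - 1) / (π : k) ^ i) -
        ((((x : kˣ) : k) - 1) / (π : k) ^ i + (((y : kˣ) : k) - 1) / (π : k) ^ i) =
        ((((x : kˣ) : k) - 1) * (((y : kˣ) : k) - 1)) / (π : k) ^ i := by
      rw [Subgroup.coe_mul, Units.val_mul]
      ring
    have h2 := quo_lt v π hπ i (x := (((x : kˣ) : k) - 1) * (((y : kˣ) : k) - 1)) (by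
      rw [map_mul]
      refine (mul_le_mul' x.2.2 y.2.2).trans ?_
      rw [← exp_add, exp_le_exp]
      omega)
    rw [← h] at h2
    exact h2)

theorem f_eq (i : ℕ) (hi : 1 ≤ i) (x : U v i) (g : v.valuationSubring)
    (h : v (((x : kˣ) : k) - 1 - g * (π : k) ^ i) ≤ exp (-((i : ℤ) + 1))) :
    f v π hπ i hi x = Multiplicative.ofAdd (IsLocalRing.residue v.valuationSubring g) := by
  show Multiplicative.ofAdd (lc v π hπ i x) = _
  congr 1
  rw [lc, res_eq]
  have h1 := quo_lt v π hπ i h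
  have h2 : (((x : kˣ) : k) - 1) / (π : k) ^ i - (g : k) =
      (((x : kˣ) : k) - 1 - g * (π : k) ^ i) / (π : k) ^ i := by
    have : (π : k) ^ i ≠ 0 := pow_ne_zero _ π.ne_zero
    field_simp
  rw [← h2] at h1
  exact h1

theorem f_spec (i : ℕ) (hi : 1 ≤ i) (x : U v i) (g : v.valuationSubring)
    (h : f v π hπ i hi x = Multiplicative.ofAdd (IsLocalRing.residue v.valuationSubring g)) :
    v (((x : kˣ) : k) - 1 - g * (π : k) ^ i) ≤ exp (-((i : ℤ) + 1)) := by
  have h1 : IsLocalRing.residue v.valuationSubring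
    ⟨(((x : kˣ) : k) - 1) / (π : k) ^ i, quo_mem v π hπ i x.2.2⟩ =
      IsLocalRing.residue v.valuationSubring g := h
  rw [res_eq] at h1
  have h2 : ((x : kˣ) : k) - 1 - g * (π : k) ^ i =
      ((((x : kˣ) : k) - 1) / (π : k) ^ i - (g : k)) * (π : k) ^ i := by
    have : (π : k) ^ i ≠ 0 := pow_ne_zero _ π.ne_zero
    field_simp
  rw [h2, map_mul, v_pi v π hπ]
  have h3 : v ((((x : kˣ) : k) - 1) / (π : k) ^ i - (g : k)) ≤ exp (-1 : ℤ) := by
    have h1' : v ((((x : kˣ) : k) - 1) / (π : k) ^ i - (g : k)) < 1 := h1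
    rcases eq_or_ne (v ((((x : kˣ) : k) - 1) / (π : k) ^ i - (g : k))) 0 with h0 | h0
    · rw [h0]; exact zero_le
    · rw [← exp_log h0] at h1' ⊢
      rw [← exp_zero, exp_lt_exp] at h1'
      rw [exp_le_exp]
      omega
  refine (mul_le_mul_left h3 _).trans ?_
  rw [← exp_add, exp_le_exp]
  omega

theorem f_surj (i : ℕ) (hi : 1 ≤ i) : Function.Surjective (f v π hπ i hi) := by
  intro a
  obtain ⟨g, hg⟩ := IsLocalRing.residue_surjective (R := v.valuationSubring) a.toAdd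
  have hv : v ((g : k) * (π : k) ^ i) ≤ exp (-(i : ℤ)) := by
    rw [map_mul, v_pi v π hπ]
    exact mul_le_of_le_one_left' g.2
  have hv' : v ((g : k) * (π : k) ^ i) < 1 := hv.trans_lt (exp_lt_one hi)
  have hm : up v _ hv' ∈ U v i := by
    rw [mem_U' v hi, up_val, add_sub_cancel_left]
    exact hv
  refine ⟨⟨up v _ hv', hm⟩, ?_⟩
  rw [f_eq v π hπ i hi _ g, hg, ofAdd_toAdd]
  show v (1 + (g : k) * (π : k) ^ i - 1 - g * (π : k) ^ i) ≤ _
  have : 1 + (g : k) * (π : k) ^ i - 1 - g * (π : k) ^ i = 0 := by ring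
  rw [this, map_zero]
  exact zero_le

theorem f_one (i : ℕ) (hi : 1 ≤ i) (x : U v i) (h : f v π hπ i hi x = 1) :
    (x : kˣ) ∈ U v (i + 1) := by
  rw [mem_U' v (by omega)]
  have h1 := f_spec v π hπ i hi x 0 (by rw [h, map_zero]; rfl)
  simpa using h1

theorem f_one' (i : ℕ) (hi : 1 ≤ i) (x : U v i) (h : (x : kˣ) ∈ U v (i + 1)) :
    f v π hπ i hi x = 1 := by
  have := f_eq v π hπ i hi x 0 (by simpa using h.2)
  rw [this, map_zero]
  rfl

theorem chain_le (i : ℕ) (hi : 1 ≤ i) (L : Subgroup kˣ) (hL : L.index ≠ 0) :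
    ((L.subgroupOf (U v i)).map (f v π hπ i hi)).index ≤ (L ⊔ U v (i + 1)).relIndex (L ⊔ U v i) := by
  have hfin : (L ⊔ U v (i + 1)).index ≠ 0 := by
    intro h
    have := Subgroup.index_dvd_of_le (le_sup_left : L ≤ L ⊔ U v (i + 1))
    rw [h, zero_dvd_iff] at this
    exact hL this
  have hle : L ⊔ U v (i + 1) ≤ L ⊔ U v i := sup_le_sup_left (U_le v (Nat.le_succ i)) L
  have hrel : (L ⊔ U v (i + 1)).relIndex (L ⊔ U v i) ≠ 0 := by
    intro h
    have := Subgroup.relIndex_mul_index hle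
    rw [h, zero_mul] at this
    exact hfin this.symm
  have h1 : (L ⊔ U v (i + 1)).relIndex (U v i) ≤ (L ⊔ U v (i + 1)).relIndex (L ⊔ U v i) :=
    Subgroup.relIndex_le_of_le_right le_sup_right hrel
  refine le_trans ?_ h1
  have h2 : (L ⊔ U v (i + 1)).subgroupOf (U v i) ≤
      ((L.subgroupOf (U v i)).map (f v π hπ i hi)).comap (f v π hπ i hi) := by
    intro x hx
    rw [Subgroup.mem_subgroupOf, Subgroup.mem_sup] at hx
    obtain ⟨l, hl, u, hu, hlu⟩ := hx
    rw [Subgroup.mem_comap, Subgroup.mem_map]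
    have hui : u ∈ U v i := U_le v (Nat.le_succ i) hu
    have hli : l ∈ U v i := by
      have : l = (x : kˣ) * u⁻¹ := by rw [← hlu]; group
      rw [this]
      exact mul_mem x.2 (inv_mem hui)
    refine ⟨⟨l, hli⟩, hl, ?_⟩
    have h3 : x = ⟨l, hli⟩ * ⟨u, hui⟩ := Subtype.ext hlu.symm
    rw [h3, map_mul, f_one' v π hπ i hi ⟨u, hui⟩ hu, mul_one]
  have h3 := Subgroup.index_dvd_of_le h2
  rw [Subgroup.index_comap_of_surjective _ (f_surj v π hπ i hi)] at h3
  refine Nat.le_of_dvd ?_ h3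
  have h4 : (L ⊔ U v (i + 1)).relIndex (U v i) ≠ 0 := by
    intro h5
    exact hrel (Subgroup.relIndex_eq_zero_of_le_right le_sup_right h5)
  exact Nat.pos_of_ne_zero h4

theorem chain_prod (L : Subgroup kˣ) (hL : L.index ≠ 0) (a : ℕ → ℕ)
    (ha : ∀ i (hi : 1 ≤ i), a i = ((L.subgroupOf (U v i)).map (f v π hπ i hi)).index) (n : ℕ) :
    (L ⊔ U v 0).index * ∏ i ∈ Finset.Ico 1 (n + 1), a i ≤ (L ⊔ U v (n + 1)).index := by
  induction n with
  | zero =>
    have hle : L ⊔ U v 1 ≤ L ⊔ U v 0 := sup_le_sup_left (U_le v (by omega)) L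
    simp only [zero_add, Finset.Ico_self, Finset.prod_empty, mul_one]
    refine Nat.le_of_dvd ?_ (Subgroup.index_dvd_of_le hle)
    refine Nat.pos_of_ne_zero ?_
    intro h
    have := Subgroup.index_dvd_of_le (le_sup_left : L ≤ L ⊔ U v 1)
    rw [h, zero_dvd_iff] at this
    exact hL this
  | succ n ih =>
    have hle : L ⊔ U v (n + 1 + 1) ≤ L ⊔ U v (n + 1) := sup_le_sup_left (U_le v (by omega)) L
    rw [Finset.prod_Ico_succ_top (by omega), ← Subgroup.relIndex_mul_index hle]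
    have h1 := chain_le v π hπ (n + 1) (by omega) L hL
    rw [← ha] at h1
    calc _ = a (n + 1) * ((L ⊔ U v 0).index * ∏ i ∈ Finset.Ico 1 (n + 1), a i) := by ring
      _ ≤ _ := Nat.mul_le_mul h1 ih

section sym

variable {G : Type 1} [CommGroup G] (s : kˣ → kˣ → G)
  (hl : ∀ a b c, s (a * b) c = s a c * s b c) (hr : ∀ a b c, s a (b * c) = s a b * s a c)
  (hS : ∀ a b : kˣ, (a : k) + b = 1 → s a b = 1)

include hl in
theorem s_one_left (b : kˣ) : s 1 b = 1 := by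
  have := hl 1 1 b
  rw [mul_one] at this
  exact left_eq_mul.1 this

include hr in
theorem s_one_right (a : kˣ) : s a 1 = 1 := by
  have := hr a 1 1
  rw [mul_one] at this
  exact left_eq_mul.1 this

/-- the homomorphism `s(a, ·)` -/
def sR (a : kˣ) : kˣ →* G := MonoidHom.mk' (s a) (hr a)

/-- the homomorphism `s(·, b)` -/
def sL (b : kˣ) : kˣ →* G := MonoidHom.mk' (fun a => s a b) (fun a a' => hl a a' b)

include hl hr hS in
theorem s_neg (x : kˣ) : s x (-x) = 1 := by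
  rcases eq_or_ne x 1 with rfl | hx
  · exact s_one_left s hl _
  · have h1 : (1 : k) - x ≠ 0 := by
      intro h
      exact hx (Units.ext (sub_eq_zero.1 h).symm)
    have h2 : (1 : k) - ((x⁻¹ : kˣ) : k) ≠ 0 := by
      intro h
      have : (x⁻¹ : kˣ) = 1 := Units.ext (sub_eq_zero.1 h).symm
      exact hx (inv_eq_one.1 this)
    set y := Units.mk0 _ h1
    set z := Units.mk0 _ h2
    have e1 : s x y = 1 := hS x y (by show (x : k) + (1 - x) = 1; ring)
    have e2 : s x⁻¹ z = 1 := hS x⁻¹ z (by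
      show ((x⁻¹ : kˣ) : k) + (1 - ((x⁻¹ : kˣ) : k)) = 1; ring)
    have e3 : s x z = 1 := by
      have h := (sL s hl z).map_inv x
      have h' : s x⁻¹ z = (s x z)⁻¹ := h
      rw [e2] at h'
      exact (inv_eq_one.1 h'.symm)
    have e4 : y = -x * z := by
      apply Units.ext
      show (1 : k) - x = ((-x * z : kˣ) : k)
      rw [Units.val_mul, Units.val_neg]
      show (1 : k) - x = -(x : k) * (1 - ((x⁻¹ : kˣ) : k))
      rw [mul_sub, mul_one, neg_mul, Units.mul_inv]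
      ring
    rw [e4, hr, e3, mul_one] at e1
    exact e1

include hl hr hS in
theorem s_anti (x y : kˣ) : s x y * s y x = 1 := by
  have h1 := s_neg s hl hr hS (x * y)
  have h2 : -(x * y) = -x * y := by rw [neg_mul]
  have h3 : -(x * y) = x * -y := by rw [mul_neg]
  rw [hl] at h1
  rw [h2, hr, s_neg s hl hr hS x, one_mul] at h1
  have h4 : -x * y = x * -y := by rw [← h2, h3]
  rw [h4, hr, s_neg s hl hr hS y, mul_one] at h1
  exact h1

include hl hr hS in
theorem s_key (x y a w : kˣ) (hx : (x : k) = 1 + a) (hw : (x : k) * w = 1 + a * y) :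
    s x y = s (-a * y) w := by
  have e1 : s (-a * y) (x * w) = 1 := hS _ _ (by
    rw [Units.val_mul, Units.val_mul, Units.val_neg, hw]; ring)
  have e2 : s (-a) x = 1 := hS _ _ (by rw [Units.val_neg, hx]; ring)
  rw [hr, hl (-a) y x, e2, one_mul] at e1
  have e3 := s_anti s hl hr hS x y
  have e4 : s x y = (s y x)⁻¹ := eq_inv_of_mul_eq_one_left e3
  rw [e4]
  exact (eq_inv_of_mul_eq_one_right e1).symm

variable (ℓ e : ℕ) (hℓ : ℓ.Prime) (he : 1 ≤ e)
  (hP : ∀ x : kˣ, v ((x : k) - 1) < exp (-(e : ℤ)) → ∃ z, x = z ^ ℓ)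
  (hs : ∀ a b, s a b ^ ℓ = 1)

include hr hs hP in
theorem s_small (a w : kˣ) (hw : w ∈ U v (e + 1)) : s a w = 1 := by
  obtain ⟨z, rfl⟩ := hP w (hw.2.trans_lt (by rw [exp_lt_exp]; push_cast; omega))
  have : s a (z ^ ℓ) = s a z ^ ℓ := (sR s hr a).map_pow z ℓ
  rw [this, hs]

/-- existence of `w` -/
theorem exists_w {i j : ℕ} (hi : 1 ≤ i) {x y a : kˣ} (hx : x ∈ U v i) (hy : y ∈ U v j)
    (ha : (x : k) = 1 + a) : ∃ w : kˣ, (x : k) * w = 1 + a * y ∧ w ∈ U v (i + j) ∧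
      (w : k) - 1 = a * ((y : k) - 1) / x := by
  have hva : v (a : k) ≤ exp (-(i : ℤ)) := by
    have := hx.2
    rwa [ha, add_sub_cancel_left] at this
  have hay : v ((a : k) * y) < 1 := by
    rw [map_mul, hy.1, mul_one]
    exact hva.trans_lt (exp_lt_one hi)
  refine ⟨up v _ hay * x⁻¹, ?_, ?_, ?_⟩
  · rw [Units.val_mul, up_val, mul_comm, mul_assoc, Units.inv_mul, mul_one]
  · rw [mem_U' v (by omega)]
    have h : ((up v _ hay * x⁻¹ : kˣ) : k) - 1 = a * ((y : k) - 1) / x := by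
      rw [Units.val_mul, up_val, Units.val_inv_eq_inv_val, ha]
      have : (1 : k) + a ≠ 0 := by rw [← ha]; exact x.ne_zero
      field_simp
      ring
    rw [h, map_div₀, hx.1, div_one, map_mul]
    refine (mul_le_mul' hva hy.2).trans ?_
    rw [← exp_add, exp_le_exp]
    push_cast
    omega
  · rw [Units.val_mul, up_val, Units.val_inv_eq_inv_val, ha]
    have : (1 : k) + a ≠ 0 := by rw [← ha]; exact x.ne_zero
    field_simp
    ring

include hl hr hS hs hP in
theorem s_U {i j : ℕ} (hi : 1 ≤ i) (hij : e < i + j) {x y : kˣ} (hx : x ∈ U v i)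
    (hy : y ∈ U v j) : s x y = 1 := by
  rcases eq_or_ne x 1 with rfl | hx1
  · exact s_one_left s hl _
  · have h1 : (x : k) - 1 ≠ 0 := by
      intro h
      exact hx1 (Units.ext (sub_eq_zero.1 h))
    obtain ⟨w, hw1, hw2, -⟩ := exists_w v hi (a := Units.mk0 _ h1) hx hy (by
      rw [Units.val_mk0]; ring)
    rw [s_key s hl hr hS x y (Units.mk0 _ h1) w (by rw [Units.val_mk0]; ring) hw1]
    exact s_small v s hr ℓ e hP hs _ _ (U_le v (by omega) hw2)

theorem exists_frob [Finite (κ v)] (hvℓ : v (ℓ : k) < 1) (hℓ : ℓ.Prime) (u : kˣ)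
    (hu : v (u : k) = 1) : ∃ t : kˣ, u * t ^ ℓ ∈ U v 1 := by
  have hchar : CharP (κ v) ℓ := by
    have : Fact ℓ.Prime := ⟨hℓ⟩
    rw [CharP.charP_iff_prime_eq_zero hℓ]
    have h1 : ((ℓ : ℕ) : κ v) = IsLocalRing.residue v.valuationSubring (ℓ : v.valuationSubring) := by
      rw [map_natCast]
    rw [h1, res_eq_zero]
    exact_mod_cast hvℓ
  have : Fact ℓ.Prime := ⟨hℓ⟩
  have hsurj := Finite.surjective_of_injective (frobenius_inj (κ v) ℓ)
  have hu' : v ((u⁻¹ : kˣ) : k) = 1 := by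
    rw [Units.val_inv_eq_inv_val, map_inv₀, hu, inv_one]
  obtain ⟨b, hb⟩ := hsurj (IsLocalRing.residue v.valuationSubring ⟨((u⁻¹ : kˣ) : k), hu'.le⟩)
  obtain ⟨t, rfl⟩ := IsLocalRing.residue_surjective b
  rw [frobenius_def, ← map_pow, res_eq] at hb
  have hb' : v ((t : k) ^ ℓ - ((u⁻¹ : kˣ) : k)) < 1 := hb
  have ht : v ((t : k) ^ ℓ) = 1 := by
    have := Valuation.map_add_eq_of_lt_right v (x := (t : k) ^ ℓ - ((u⁻¹ : kˣ) : k))
      (y := ((u⁻¹ : kˣ) : k)) (by rw [hu']; exact hb')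
    rw [sub_add_cancel, hu'] at this
    exact this
  have ht0 : (t : k) ≠ 0 := by
    intro h
    rw [h, zero_pow hℓ.ne_zero, map_zero] at ht
    exact zero_ne_one ht
  refine ⟨Units.mk0 _ ht0, ?_⟩
  rw [mem_U' v le_rfl]
  have h2 : ((u * Units.mk0 _ ht0 ^ ℓ : kˣ) : k) - 1 = u * ((t : k) ^ ℓ - ((u⁻¹ : kˣ) : k)) := by
    rw [Units.val_mul, Units.val_pow_eq_pow_val, Units.val_mk0, mul_sub, Units.mul_inv]
  rw [h2, map_mul, hu, one_mul]
  generalize v ((t : k) ^ ℓ - ((u⁻¹ : kˣ) : k)) = c at hb'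
  rcases eq_or_ne c 0 with h0 | h0
  · rw [h0]; exact zero_le
  · rw [← exp_log h0] at hb' ⊢
    rw [← exp_zero, exp_lt_exp] at hb'
    rw [exp_le_exp]
    push_cast
    omega

include hl hr hS hs hP hℓ in
theorem s_unit [Finite (κ v)] (hvℓ : v (ℓ : k) < 1) (u y : kˣ) (hu : v (u : k) = 1)
    (hy : y ∈ U v e) : s u y = 1 := by
  obtain ⟨t, ht⟩ := exists_frob v ℓ hvℓ hℓ u hu
  have h1 := s_U v s hl hr hS ℓ e hP hs le_rfl (by omega) ht hy
  rw [hl] at h1
  have h2 : s (t ^ ℓ) y = s t y ^ ℓ := (sL s hl y).map_pow t ℓ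
  rw [h2, hs, mul_one] at h1
  exact h1

/-- the subgroup `W` -/
noncomputable def Wt : Subgroup (Multiplicative (κ v)) :=
  ((sR s hr π).ker.subgroupOf (U v e)).map (f v π hπ e he)

include hP hs in
theorem Wt_mem (w : kˣ) (hw : w ∈ U v e) : f v π hπ e he ⟨w, hw⟩ ∈ Wt v π hπ s hr e he ↔ s π w = 1 := by
  rw [Wt, Subgroup.mem_map]
  constructor
  · rintro ⟨y, hy, hyw⟩
    have hy' : s π (y : kˣ) = 1 := hy
    have h1 : f v π hπ e he (y⁻¹ * ⟨w, hw⟩) = 1 := by rw [map_mul, map_inv, hyw, inv_mul_cancel]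
    have h2 := f_one v π hπ e he _ h1
    have h3 := s_small v s hr ℓ e hP hs π _ h2
    have h4 : w = (y : kˣ) * ((y⁻¹ * ⟨w, hw⟩ : U v e) : kˣ) := by
      rw [Subgroup.coe_mul, Subgroup.coe_inv]; simp
    rw [h4, hr, hy', h3, one_mul]
  · intro h
    exact ⟨⟨w, hw⟩, h, rfl⟩

include hl hr hS hs hP hℓ in
theorem pair_mem [Finite (κ v)] (hvℓ : v (ℓ : k) < 1) {i j : ℕ} (hi : 1 ≤ i) (hj : 1 ≤ j)
    (hij : i + j = e) (hdi : ¬ ℓ ∣ i) (x : U v i) (y : U v j) (hxy : s x y = 1) :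
    Multiplicative.ofAdd ((f v π hπ i hi x).toAdd * (f v π hπ j hj y).toAdd) ∈
      Wt v π hπ s hr e he := by
  have hmemi := quo_mem v π hπ i x.2.2
  have hmemj := quo_mem v π hπ j y.2.2
  set g : v.valuationSubring := ⟨(((x : kˣ) : k) - 1) / (π : k) ^ i, hmemi⟩ with hg
  set h : v.valuationSubring := ⟨(((y : kˣ) : k) - 1) / (π : k) ^ j, hmemj⟩ with hh
  have hfg : f v π hπ i hi x = Multiplicative.ofAdd (IsLocalRing.residue v.valuationSubring g) := rfl
  have hfh : f v π hπ j hj y = Multiplicative.ofAdd (IsLocalRing.residue v.valuationSubring h) := rfl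
  rw [hfg, hfh, toAdd_ofAdd, toAdd_ofAdd]
  by_cases hg1 : v (g : k) < 1
  · rw [(res_eq_zero v g).2 hg1, zero_mul]
    exact one_mem _
  have hg2 : v (g : k) = 1 := le_antisymm hmemi (not_lt.1 hg1)
  have hπi : (π : k) ^ i ≠ 0 := pow_ne_zero _ π.ne_zero
  have hπj : (π : k) ^ j ≠ 0 := pow_ne_zero _ π.ne_zero
  have hga : (g : k) * (π : k) ^ i = ((x : kˣ) : k) - 1 := by
    show (((x : kˣ) : k) - 1) / (π : k) ^ i * (π : k) ^ i = _
    field_simp
  have hhb : (h : k) * (π : k) ^ j = ((y : kˣ) : k) - 1 := by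
    show (((y : kˣ) : k) - 1) / (π : k) ^ j * (π : k) ^ j = _
    field_simp
  have h0 : (g : k) ≠ 0 := by
    intro h0
    rw [h0, map_zero] at hg2
    exact zero_ne_one hg2
  have h1 : ((x : kˣ) : k) - 1 ≠ 0 := by
    rw [← hga]
    exact mul_ne_zero h0 hπi
  set a : kˣ := Units.mk0 _ h1 with ha
  obtain ⟨w, hw1, hw2, hw3⟩ := exists_w v hi (a := a) x.2 y.2 (by rw [ha, Units.val_mk0]; ring)
  rw [hij] at hw2
  have hk := s_key s hl hr hS x y a w (by rw [ha, Units.val_mk0]; ring) hw1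
  rw [hxy] at hk
  set u : kˣ := -(Units.mk0 _ h0) * y with hu
  have hau : -a * (y : kˣ) = π ^ i * u := by
    apply Units.ext
    rw [hu, Units.val_mul, Units.val_mul, Units.val_mul, Units.val_neg, Units.val_neg, ha,
      Units.val_mk0, Units.val_mk0, Units.val_pow_eq_pow_val, ← hga]
    ring
  have hvu : v (u : k) = 1 := by
    rw [hu, Units.val_mul, Units.val_neg, Units.val_mk0, map_mul, Valuation.map_neg, hg2,
      y.2.1, mul_one]
  rw [hau, hl, s_unit v s hl hr hS ℓ e hℓ hP hs hvℓ u w hvu hw2, mul_one] at hk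
  have hk2 : s (π ^ i) w = s π w ^ i := (sL s hl w).map_pow π i
  rw [hk2] at hk
  have hcop : Nat.Coprime i ℓ := ((Nat.Prime.coprime_iff_not_dvd hℓ).2 hdi).symm
  have hπw : s π w = 1 := by
    have h5 : orderOf (s π w) ∣ i := orderOf_dvd_of_pow_eq_one hk.symm
    have h6 : orderOf (s π w) ∣ ℓ := orderOf_dvd_of_pow_eq_one (hs _ _)
    have h7 := Nat.dvd_gcd h5 h6
    rw [hcop] at h7
    exact orderOf_eq_one_iff.1 (Nat.dvd_one.1 h7)
  have hfw : f v π hπ e he ⟨w, hw2⟩ =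
      Multiplicative.ofAdd (IsLocalRing.residue v.valuationSubring (g * h)) := by
    apply f_eq
    show v ((w : k) - 1 - ((g * h : v.valuationSubring) : k) * (π : k) ^ e) ≤ _
    have h8 : ((g * h : v.valuationSubring) : k) = (g : k) * (h : k) := rfl
    have h9 : (w : k) - 1 - (g : k) * (h : k) * (π : k) ^ e =
        (((x : kˣ) : k) - 1) * (((y : kˣ) : k) - 1) * (1 - ((x : kˣ) : k)) * (((x : kˣ) : k))⁻¹ := by
      rw [hw3, ha, Units.val_mk0, ← hij, pow_add]
      have : (g : k) * (h : k) * ((π : k) ^ i * (π : k) ^ j) =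
        ((g : k) * (π : k) ^ i) * ((h : k) * (π : k) ^ j) := by ring
      rw [this, hga, hhb]
      have hx0 : ((x : kˣ) : k) ≠ 0 := (x : kˣ).ne_zero
      field_simp
    rw [h8, h9, map_mul, map_mul, map_mul, map_inv₀, x.2.1, inv_one, mul_one,
      v.map_sub_swap 1 ((x : kˣ) : k)]
    refine (mul_le_mul' (mul_le_mul' x.2.2 y.2.2) (x.2.2.trans (exp_le_exp.2
      (show (-(i : ℤ)) ≤ -1 by omega)))).trans ?_
    rw [← exp_add, ← exp_add, exp_le_exp]
    omega
  rw [← map_mul, ← hfw]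
  exact (Wt_mem v π hπ s hr ℓ e he hP hs w hw2).2 hπw

end sym

end val


theorem t_LOCC : Pool.Agent.T3h73.SL.S_LOCC := by
  intro ℓ hℓ k _ v e₀ q π hπ hq hq0 he₀ hvℓ hP G _ s hl hr hS hs hu L hL hLp hLs
  have hfin : Finite (κ v) := Nat.finite_of_card_ne_zero (by rw [hq]; exact hq0)
  have hℓ2 := hℓ.two_le
  have hvℓ' : v (ℓ : k) < 1 := by
    rw [hvℓ]
    exact exp_lt_one (Nat.mul_pos (by omega) he₀)
  have he : 1 ≤ ℓ * e₀ := Nat.mul_pos hℓ.pos he₀
  have hP' : ∀ x : kˣ, v ((x : k) - 1) < exp (-((ℓ * e₀ : ℕ) : ℤ)) → ∃ z, x = z ^ ℓ := hP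
  -- the group W
  set W := Wt v π hπ s hr (ℓ * e₀) he with hWdef
  have hW : W ≠ ⊤ := by
    obtain ⟨u, hu1, hu2⟩ := hu
    have huU : u ∈ U v (ℓ * e₀) := (mem_U' v he).2 hu1
    intro htop
    have h1 : f v π hπ (ℓ * e₀) he ⟨u, huU⟩ ∈ W := by rw [htop]; exact Subgroup.mem_top _
    have h2 := (Wt_mem v π hπ s hr ℓ (ℓ * e₀) he hP' hs u huU).1 h1
    have h3 := s_anti s hl hr hS u π
    rw [h2, mul_one] at h3
    exact hu2 h3
  -- the indices
  classical
  let a : ℕ → ℕ := fun i => if h : 1 ≤ i then ((L.subgroupOf (U v i)).map (f v π hπ i h)).index else 1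
  have ha : ∀ i (hi : 1 ≤ i), a i = ((L.subgroupOf (U v i)).map (f v π hπ i hi)).index := by
    intro i hi
    simp only [a, dif_pos hi]
  have hfin2 : Finite (Multiplicative (κ v)) := inferInstanceAs (Finite (κ v))
  have ha1 : ∀ i, 1 ≤ a i := by
    intro i
    by_cases hi : 1 ≤ i
    · rw [ha i hi]
      exact Nat.pos_of_ne_zero Subgroup.index_ne_zero_of_finite
    · simp only [a, dif_neg hi]
      exact le_rfl
  have hpair : ∀ i, 1 ≤ i → i < ℓ * e₀ → ¬ ℓ ∣ i → q ≤ a i * a (ℓ * e₀ - i) := by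
    intro i hi hi2 hd
    have hj : 1 ≤ ℓ * e₀ - i := by omega
    rw [ha i hi, ha _ hj, ← hq]
    apply pairing W _ _ hW
    rintro _ ⟨x, hx, rfl⟩ _ ⟨y, hy, rfl⟩
    exact pair_mem v π hπ s hl hr hS ℓ (ℓ * e₀) hℓ he hP' hs hvℓ' hi hj (by omega) hd x y
      (hLs _ hx _ hy)
  have hprod := prod_bound ℓ e₀ q hℓ.pos he₀ (Nat.pos_of_ne_zero hq0) a ha1 hpair
  have hchain := chain_prod v π hπ L hL a ha (ℓ * e₀)
  have hUL : U v (ℓ * e₀ + 1) ≤ L := by
    intro x hx
    obtain ⟨z, rfl⟩ := hP' x (hx.2.trans_lt (by rw [exp_lt_exp]; push_cast; omega))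
    exact hLp z
  rw [sup_eq_left.2 hUL, Finset.prod_Ico_succ_top he] at hchain
  have h0 : (L ⊔ U v 0).index ≠ 0 := by
    intro h
    have := Subgroup.index_dvd_of_le (le_sup_left : L ≤ L ⊔ U v 0)
    rw [h, zero_dvd_iff] at this
    exact hL this
  have htop : ℓ ≤ (L ⊔ U v 0).index * a (ℓ * e₀) := by
    by_cases hH : L ⊔ U v 0 = ⊤
    · have h1 : ℓ ≤ a (ℓ * e₀) := by
        rw [ha _ he]
        apply le_index_of_pow hℓ _ Subgroup.index_ne_zero_of_finite
        · intro x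
          obtain ⟨y, rfl⟩ := f_surj v π hπ (ℓ * e₀) he x
          rw [← map_pow]
          refine ⟨y ^ ℓ, ?_, rfl⟩
          show ((y ^ ℓ : U v (ℓ * e₀)) : kˣ) ∈ L
          rw [Subgroup.coe_pow]
          exact hLp _
        · have hπm : π ∈ L ⊔ U v 0 := by rw [hH]; exact Subgroup.mem_top _
          rw [Subgroup.mem_sup] at hπm
          obtain ⟨x, hx, u, hu0, hxu⟩ := hπm
          intro htop
          apply hW
          rw [eq_top_iff, ← htop]
          rintro _ ⟨y, hy, rfl⟩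
          have hy' : (y : kˣ) ∈ L := hy
          have h2 : s π y = 1 := by
            rw [← hxu, hl, hLs x hx _ hy', one_mul]
            exact s_unit v s hl hr hS ℓ (ℓ * e₀) hℓ hP' hs hvℓ' u y hu0.1 y.2
          exact (Wt_mem v π hπ s hr ℓ (ℓ * e₀) he hP' hs y y.2).2 h2
      calc ℓ ≤ a (ℓ * e₀) := h1
        _ = 1 * a (ℓ * e₀) := (one_mul _).symm
        _ ≤ _ := Nat.mul_le_mul_right _ (Nat.pos_of_ne_zero h0)
    · have h1 : ℓ ≤ (L ⊔ U v 0).index := by
        apply le_index_of_pow hℓ _ h0 _ hH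
        intro x
        exact (le_sup_left : L ≤ L ⊔ U v 0) (hLp x)
      calc ℓ ≤ (L ⊔ U v 0).index := h1
        _ = (L ⊔ U v 0).index * 1 := (mul_one _).symm
        _ ≤ _ := Nat.mul_le_mul_left _ (ha1 _)
  calc ℓ ^ 2 * q ^ ((ℓ - 1) * e₀)
      ≤ ((L ⊔ U v 0).index * a (ℓ * e₀)) ^ 2 * (∏ i ∈ Finset.Ico 1 (ℓ * e₀), a i) ^ 2 :=
        Nat.mul_le_mul (Nat.pow_le_pow_left htop 2) hprod
    _ = ((L ⊔ U v 0).index * ((∏ i ∈ Finset.Ico 1 (ℓ * e₀), a i) * a (ℓ * e₀))) ^ 2 := by ring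
    _ ≤ L.index ^ 2 := Nat.pow_le_pow_left hchain 2

end Pool.Agent.T3h73.SL.Locc
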