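import Pool.Agent.T3h73.SL.Stm
import Pool.Agent.H723R3.EuclidLocal

/-! Project SL (helper93): Newton's lemma in the completion of a number field, powers near one,
approximation of elements of finitely many completions. -/

set_option autoImplicit false
set_option linter.all false

namespace Pool.Agent.T3h73.SL.Nwt

open IsDedekindDomain NumberField WithZero Polynomial

section

variable {E : Type} [Field E] (V : Valuation E (WithZero (Multiplicative ℤ)))

theorem pow_near (x y : E) (hx : V x ≤ 1) (hy : V y ≤ 1) (γ : WithZero (Multiplicative ℤ))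
    (h : V (x - y) ≤ γ) (n : ℕ) : V (x ^ n - y ^ n) ≤ γ := by
  induction n with
  | zero => simp
  | succ n ih =>
    have h1 : x ^ (n + 1) - y ^ (n + 1) = (x ^ n - y ^ n) * x + y ^ n * (x - y) := by ring
    rw [h1]
    refine (Valuation.map_add _ _ _).trans (max_le ?_ ?_)
    · rw [map_mul]
      exact mul_le_of_le_of_le_one ih hx
    · rw [map_mul, map_pow, mul_comm]
      exact mul_le_of_le_of_le_one h (pow_le_one' hy n)

theorem mul_near (x x' y y' : E) (hx : V x ≤ 1) (hy' : V y' ≤ 1)
    (γ : WithZero (Multiplicative ℤ)) (h : V (x - x') ≤ γ)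
    (h' : V (y - y') ≤ γ) : V (x * y - x' * y') ≤ γ := by
  have h1 : x * y - x' * y' = (x - x') * y' + (y - y') * x := by ring
  rw [h1]
  refine (Valuation.map_add _ _ _).trans (max_le ?_ ?_)
  · rw [map_mul]
    exact mul_le_of_le_of_le_one h hy'
  · rw [map_mul]
    exact mul_le_of_le_of_le_one h' hx

theorem diff_bound (h : E[X]) (hh : ∀ i, V (h.coeff i) ≤ 1) (b y z : E) (hb : V b ≤ 1)
    (hy : V y ≤ 1) (hz : V z ≤ 1) (γ : WithZero (Multiplicative ℤ)) (hyb : V (y - b) ≤ γ)
    (hzb : V (z - b) ≤ γ) :
    V (h.eval y - h.eval z - h.derivative.eval b * (y - z)) ≤ γ * V (y - z) := by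
  have key : ∀ n : ℕ, V (y ^ n - z ^ n - (n : E) * b ^ (n - 1) * (y - z)) ≤ γ * V (y - z) := by
    intro n
    have h1 : y ^ n - z ^ n - (n : E) * b ^ (n - 1) * (y - z) =
        (∑ i ∈ Finset.range n, (y ^ i * z ^ (n - 1 - i) - b ^ i * b ^ (n - 1 - i))) * (y - z) := by
      rw [Finset.sum_sub_distrib, sub_mul, ← geom_sum₂_mul]
      congr 2
      rw [Finset.sum_congr rfl (g := fun _ => b ^ (n - 1))]
      · simp
      · intro i hi
        rw [← pow_add]
        congr 1
        have := Finset.mem_range.1 hi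
        omega
    rw [h1, map_mul]
    refine mul_le_mul_left ?_ _
    refine Valuation.map_sum_le _ fun i _ => ?_
    refine mul_near V _ _ _ _ ?_ ?_ γ (pow_near V _ _ hy hb γ hyb i) (pow_near V _ _ hz hb γ hzb _)
    · rw [map_pow]
      exact pow_le_one' hy i
    · rw [map_pow]
      exact pow_le_one' hb _
  have h2 : h.eval y - h.eval z - h.derivative.eval b * (y - z) =
      ∑ n ∈ h.support, h.coeff n * (y ^ n - z ^ n - (n : E) * b ^ (n - 1) * (y - z)) := by
    rw [eval_eq_sum, eval_eq_sum, derivative_eval, Polynomial.sum, Polynomial.sum, Polynomial.sum,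
      Finset.sum_mul, ← Finset.sum_sub_distrib, ← Finset.sum_sub_distrib]
    refine Finset.sum_congr rfl fun n _ => ?_
    ring
  rw [h2]
  refine Valuation.map_sum_le _ fun n _ => ?_
  rw [map_mul]
  exact mul_le_of_le_one_of_le (hh n) (key n)

end

section

variable {L : Type} [Field L] [NumberField L] (v : HeightOneSpectrum (𝓞 L))

/-- the valuation of the completion -/
noncomputable abbrev vv : Valuation (v.adicCompletion L) (WithZero (Multiplicative ℤ)) := Valued.v

theorem norm_le_iff (x y : v.adicCompletion L) : ‖x‖ ≤ ‖y‖ ↔ vv v x ≤ vv v y :=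
  Valued.toNormedField.norm_le_iff

/-- **Newton's lemma** -/
theorem newton (h : (v.adicCompletion L)[X]) (hh : ∀ i, vv v (h.coeff i) ≤ 1)
    (b : v.adicCompletion L) (hb : vv v b ≤ 1) (π : v.adicCompletion L) (hπ : vv v π < 1)
    (h0 : vv v (h.eval b) ≤ vv v π) (h1 : vv v (h.derivative.eval b) = 1) :
    ∃ y, vv v (y - b) ≤ vv v π ∧ h.eval y = 0 := by
  set d := h.derivative.eval b with hd
  have hd0 : d ≠ 0 := by
    intro h2
    rw [h2, map_zero] at h1
    exact zero_ne_one h1
  let s : Set (v.adicCompletion L) := {y | ‖y - b‖ ≤ ‖π‖}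
  have hs : IsComplete s := by
    apply IsClosed.isComplete
    exact isClosed_le (by fun_prop) continuous_const
  have hint : ∀ y ∈ s, vv v y ≤ 1 := by
    intro y hy
    have h2 : vv v (y - b) ≤ vv v π := (norm_le_iff v _ _).1 hy
    have h3 : y = (y - b) + b := by ring
    rw [h3]
    exact (Valuation.map_add _ _ _).trans (max_le (h2.trans hπ.le) hb)
  let T : v.adicCompletion L → v.adicCompletion L := fun y => y - h.eval y / d
  have hT : ∀ y ∈ s, ∀ z ∈ s, vv v (T y - T z) ≤ vv v π * vv v (y - z) := by
    intro y hy z hz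
    have h2 : T y - T z = -((h.eval y - h.eval z - d * (y - z)) / d) := by
      simp only [T]
      field_simp
      ring
    rw [h2, Valuation.map_neg, map_div₀, h1, div_one]
    exact diff_bound (vv v) h hh b y z hb (hint y hy) (hint z hz) _
      ((norm_le_iff v _ _).1 hy) ((norm_le_iff v _ _).1 hz)
  have hbs : b ∈ s := by
    change ‖b - b‖ ≤ ‖π‖
    rw [sub_self, norm_zero]
    exact norm_nonneg _
  have hmaps : Set.MapsTo T s s := by
    intro y hy
    change ‖T y - b‖ ≤ ‖π‖
    rw [norm_le_iff]
    have h2 : T y - b = (T y - T b) + (T b - b) := by ring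
    rw [h2]
    refine (Valuation.map_add _ _ _).trans (max_le ?_ ?_)
    · refine (hT y hy b hbs).trans ?_
      have h3 : vv v (y - b) ≤ vv v π := (norm_le_iff v _ _).1 hy
      exact mul_le_of_le_one_right' (h3.trans hπ.le)
    · have h3 : T b - b = -(h.eval b / d) := by
        simp only [T]
        ring
      rw [h3, Valuation.map_neg, map_div₀, h1, div_one]
      exact h0
  have hπn : ‖π‖ < 1 := by
    rw [← norm_one (α := v.adicCompletion L)]
    rw [← not_le, norm_le_iff, not_le, map_one]
    exact hπ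
  have hcon : ContractingWith ⟨‖π‖, norm_nonneg _⟩ (hmaps.restrict T s s) := by
    refine ⟨by exact_mod_cast hπn, ?_⟩
    apply LipschitzWith.of_dist_le_mul
    rintro ⟨y, hy⟩ ⟨z, hz⟩
    change dist (T y) (T z) ≤ ‖π‖ * dist y z
    rw [dist_eq_norm, dist_eq_norm, ← norm_mul, norm_le_iff, map_mul]
    exact hT y hy z hz
  obtain ⟨y, hys, hy, -⟩ := hcon.exists_fixedPoint' hs hmaps hbs (edist_ne_top _ _)
  refine ⟨y, (norm_le_iff v _ _).1 hys, ?_⟩
  have h2 : y - h.eval y / d = y := hy
  have h3 : h.eval y / d = 0 := by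
    have := congrArg (fun t => y - t) h2
    simpa using this
  rcases div_eq_zero_iff.1 h3 with h4 | h4
  · exact h4
  · exact absurd h4 hd0

theorem vv_nat (n : ℕ) : vv v (n : v.adicCompletion L) ≤ 1 := by
  induction n with
  | zero => simp
  | succ n ih =>
    rw [Nat.cast_succ]
    exact (Valuation.map_add _ _ _).trans (max_le ih (by rw [map_one]))

/-- elements close to `1` are `n`-th powers -/
theorem near_pow (n : ℕ) (hn : n ≠ 0) (y : v.adicCompletion L)
    (hy : vv v (y - 1) < vv v (n : v.adicCompletion L) ^ 2) : ∃ z, y = z ^ n := by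
  set a : v.adicCompletion L := (n : v.adicCompletion L) with ha
  haveI : CharZero (v.adicCompletion L) :=
    charZero_of_injective_algebraMap (algebraMap L (v.adicCompletion L)).injective
  have ha0 : a ≠ 0 := by
    rw [ha, Nat.cast_ne_zero]; exact hn
  have hva : vv v a ≠ 0 := (Valuation.ne_zero_iff _).2 ha0
  set c : v.adicCompletion L := (y - 1) / a ^ 2 with hc
  have hcv : vv v c < 1 := by
    rw [hc, map_div₀, map_pow]
    rw [div_lt_one₀ (by exact pow_pos (zero_lt_iff.2 hva) 2)]
    exact hy
  let g : (v.adicCompletion L)[X] :=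
    ∑ i ∈ Finset.range (n - 1), C ((n.choose (i + 2) : v.adicCompletion L) * a ^ i) * X ^ (i + 2)
  let h : (v.adicCompletion L)[X] := X + g - C c
  have hgc : ∀ i, vv v (g.coeff i) ≤ 1 := by
    intro i
    rw [finset_sum_coeff]
    refine Valuation.map_sum_le _ fun j _ => ?_
    rw [coeff_C_mul, coeff_X_pow]
    split_ifs
    · rw [mul_one, map_mul, map_pow]
      exact mul_le_one' (vv_nat v _) (pow_le_one' (vv_nat v _) _)
    · rw [mul_zero, map_zero]; exact zero_le_one
  have hh : ∀ i, vv v (h.coeff i) ≤ 1 := by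
    intro i
    rw [coeff_sub, coeff_add]
    refine (Valuation.map_sub _ _ _).trans (max_le ((Valuation.map_add _ _ _).trans
      (max_le ?_ (hgc i))) ?_)
    · rw [coeff_X]
      split_ifs
      · rw [map_one]
      · rw [map_zero]; exact zero_le_one
    · rw [coeff_C]
      split_ifs
      · exact hcv.le
      · rw [map_zero]; exact zero_le_one
  have hg0 : g.eval 0 = 0 := by
    rw [eval_finset_sum]
    refine Finset.sum_eq_zero fun i _ => ?_
    simp
  have hgd : g.derivative.eval 0 = 0 := by
    simp only [g]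
    rw [derivative_sum, eval_finset_sum]
    refine Finset.sum_eq_zero fun i _ => ?_
    rw [derivative_C_mul, derivative_X_pow]
    simp
  obtain ⟨t, -, ht⟩ := newton v h hh 0 (by rw [map_zero]; exact zero_le_one) c hcv (by
      simp only [h]
      rw [eval_sub, eval_add, eval_X, hg0, eval_C, zero_add, zero_sub, Valuation.map_neg]) (by
      simp only [h]
      rw [derivative_sub, derivative_add, derivative_X, derivative_C, sub_zero, eval_add, eval_one,
        hgd, add_zero, map_one])
  refine ⟨1 + a * t, ?_⟩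
  have h1 : t + ∑ i ∈ Finset.range (n - 1), (n.choose (i + 2) : v.adicCompletion L) * a ^ i *
      t ^ (i + 2) = c := by
    have : h.eval t = t + (∑ i ∈ Finset.range (n - 1),
        (n.choose (i + 2) : v.adicCompletion L) * a ^ i * t ^ (i + 2)) - c := by
      simp only [h, g]
      rw [eval_sub, eval_add, eval_X, eval_C, eval_finset_sum]
      congr 2
      refine Finset.sum_congr rfl fun i _ => ?_
      simp
    rw [this] at ht
    exact sub_eq_zero.1 ht
  have h2 : y = 1 + a ^ 2 * c := by
    rw [hc]; field_simp; ring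
  rw [h2, ← h1, add_comm 1 (a * t), add_pow]
  obtain ⟨m, rfl⟩ : ∃ m, n = m + 1 := ⟨n - 1, by omega⟩
  rw [Finset.sum_range_succ', Finset.sum_range_succ']
  simp only [Nat.add_sub_cancel, pow_zero, one_pow, mul_one, zero_add, Nat.choose_zero_right,
    Nat.cast_one, Nat.choose_one_right, pow_one]
  rw [mul_add, Finset.mul_sum]
  have h3 : ∀ i ∈ Finset.range m, a ^ 2 * (((m + 1).choose (i + 2) : v.adicCompletion L) * a ^ i *
      t ^ (i + 2)) = (a * t) ^ (i + 1 + 1) * ((m + 1).choose (i + 1 + 1) : v.adicCompletion L) := by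
    intro i _
    ring
  rw [Finset.sum_congr rfl h3]
  rw [← ha]
  ring

end

end Pool.Agent.T3h73.SL.Nwt
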