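import Pool.Agent.T3h73.SL.D.Fin

/-! Project SL: the assembly. -/

set_option autoImplicit false
set_option linter.all false

open Polynomial IsDedekindDomain NumberField

namespace Pool.Agent.T3h73.SL

open Pool.Agent.Y713.SE (Pw)

section inv
variable {ℓ : ℕ}

lemma Adm.mul_pow {k : Type} [Field k] {δ : k} {U : k[X]} (h : Adm ℓ δ U) (z : k) :
    Adm ℓ (δ * z ^ ℓ) U := by
  refine ⟨h.1, h.2.1, h.2.2.1, h.2.2.2.1, fun r hr => ?_⟩
  obtain ⟨s, hs⟩ := h.2.2.2.2 r hr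
  refine ⟨s * algebraMap k U.SplittingField z, ?_⟩
  rw [_root_.mul_pow, hs, map_mul, map_pow]
  ring

lemma Lo_le {k : Type} [Field k] (δ z : kˣ) : Lo ℓ (δ * z ^ ℓ) ≤ Lo ℓ δ := by
  refine (Subgroup.closure_le _).2 ?_
  rintro x (h | h | ⟨U, hU, hx⟩)
  · exact Subgroup.subset_closure (Or.inl h)
  · rw [h]
    exact mul_mem (Subgroup.subset_closure (Or.inr (Or.inl rfl)))
      (Subgroup.subset_closure (Or.inl ⟨z, rfl⟩))
  · refine Subgroup.subset_closure (Or.inr (Or.inr ⟨U, ?_, hx⟩))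
    have h1 := hU.mul_pow ((z⁻¹ : kˣ) : k)
    have h2 : (((δ * z ^ ℓ : kˣ) : k) * ((z⁻¹ : kˣ) : k) ^ ℓ) = (δ : k) := by
      rw [← Units.val_pow_eq_pow_val, ← Units.val_mul, inv_pow, mul_inv_cancel_right]
    rwa [h2] at h1

lemma Lo_eq {k : Type} [Field k] (δ z : kˣ) : Lo ℓ (δ * z ^ ℓ) = Lo ℓ δ := by
  refine le_antisymm (Lo_le δ z) ?_
  have h := Lo_le (ℓ := ℓ) (δ * z ^ ℓ) z⁻¹
  rwa [inv_pow, mul_inv_cancel_right] at h

variable {K : Type} [Field K] [NumberField K]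

lemma pw_mul_pow_iff (hℓ : ℓ ≠ 0) (v : Pl K) (d z : (v.adicCompletion K)ˣ) :
    Pw ℓ (Valued.v ((d * z ^ ℓ : (v.adicCompletion K)ˣ) : v.adicCompletion K)) ↔
      Pw ℓ (Valued.v (d : v.adicCompletion K)) := by
  have h1 : Pw ℓ (Valued.v ((z ^ ℓ : (v.adicCompletion K)ˣ) : v.adicCompletion K)) := by
    rw [Units.val_pow_eq_pow_val, map_pow]
    exact Pw.pow _
  constructor
  · intro h
    have h2 := h.mul h1.inv
    rwa [Units.val_mul, map_mul, mul_inv_cancel_right₀] at h2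
    exact (Valuation.ne_zero_iff _).2 (Units.ne_zero _)
  · intro h
    rw [Units.val_mul, map_mul]
    exact h.mul h1

lemma sup_zpowers_le {G : Type} [CommGroup G] (d z : G) :
    Pk ℓ G ⊔ Subgroup.zpowers (d * z ^ ℓ) ≤ Pk ℓ G ⊔ Subgroup.zpowers d := by
  refine sup_le le_sup_left ?_
  rw [Subgroup.zpowers_le]
  exact mul_mem (Subgroup.mem_sup_right (Subgroup.mem_zpowers d))
    (Subgroup.mem_sup_left ⟨z, rfl⟩)

lemma LC_mul_pow (hℓ : ℓ ≠ 0) (v : Pl K) (d z : (v.adicCompletion K)ˣ) :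
    LC ℓ v (d * z ^ ℓ) = LC ℓ v d := by
  have h : Pk ℓ (v.adicCompletion K)ˣ ⊔ Subgroup.zpowers (d * z ^ ℓ) =
      Pk ℓ _ ⊔ Subgroup.zpowers d := by
    refine le_antisymm (sup_zpowers_le d z) ?_
    have h := sup_zpowers_le (ℓ := ℓ) (d * z ^ ℓ) z⁻¹
    rwa [inv_pow, mul_inv_cancel_right] at h
  unfold LC
  rw [Lo_eq, h, propext (pw_mul_pow_iff hℓ v d z)]

lemma self_mem_LC (v : Pl K) (d : (v.adicCompletion K)ˣ) : d ∈ LC ℓ v d := by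
  unfold LC
  split_ifs with h1 h2
  · exact Subgroup.subset_closure (Or.inr (Or.inl rfl))
  · exact h2
  · exact Subgroup.mem_sup_right (Subgroup.mem_zpowers d)

lemma not_pw_exp {ℓ : ℕ} (hpr : ℓ.Prime) : ¬ Pw ℓ (WithZero.exp (-1 : ℤ)) := by
  rintro ⟨β, hβ⟩
  have hβ0 : β ≠ 0 := by
    rintro rfl
    rw [zero_pow hpr.ne_zero] at hβ
    exact WithZero.exp_ne_zero hβ
  obtain ⟨m, rfl⟩ : ∃ m : ℤ, β = WithZero.exp m := ⟨_, (WithZero.exp_log hβ0).symm⟩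
  rw [← WithZero.exp_nsmul] at hβ
  have h1 := WithZero.exp_injective hβ
  rw [nsmul_eq_mul] at h1
  have h2 : (ℓ : ℤ) ∣ 1 := ⟨-m, by linarith⟩
  have h3 : ℓ ∣ 1 := by exact_mod_cast h2
  exact hpr.one_lt.ne' (Nat.dvd_one.1 h3)

lemma val_loc (v : Pl K) (x : Kˣ) :
    Valued.v ((loc v x : (v.adicCompletion K)ˣ) : v.adicCompletion K) =
      v.valuation K (x : K) := by
  show Valued.v (algebraMap K (v.adicCompletion K) x) = _
  exact v.valuedAdicCompletion_eq_valuation' _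

end inv

/-- the twists by the powers of `δ` -/
theorem good_pow (hDIM : S_DIM) {ℓ : ℕ} (hℓ : ℓ.Prime) (h2 : ℓ ≠ 2) {K : Type} [Field K]
    [NumberField K] {ζ : K} (hζ : IsPrimitiveRoot ζ ℓ) (S : Finset (Pl K))
    (d : ∀ v : Pl K, (v.adicCompletion K)ˣ) (hSℓ : ∀ v, v.valuation K (ℓ : K) ≠ 1 → v ∈ S)
    {a : ℕ} (ha : 1 ≤ a) (haℓ : a < ℓ)
    (hS : ∀ x ∈ Sg ℓ S (fun v => LC ℓ v (d v ^ a)), IsP ℓ x) (𝔭 : Pl K) (h𝔭 : 𝔭 ∉ S) (δ : Kˣ)
    (hδ : 𝔭.valuation K (δ : K) = WithZero.exp (-1 : ℤ))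
    (hδ' : ∀ v, v ∉ S → v ≠ 𝔭 → v.valuation K (δ : K) = 1)
    (hδS : ∀ v ∈ S, ∃ z, loc v δ = d v * z ^ ℓ) : Good2 ℓ K ((δ : K) ^ a) := by
  have hcop : Nat.Coprime a ℓ :=
    Nat.Coprime.symm ((Nat.Prime.coprime_iff_not_dvd hℓ).2
      (fun h => absurd (Nat.le_of_dvd (by omega) h) (by omega)))
  have hnp : ¬ Pw ℓ (𝔭.valuation K ((δ ^ a : Kˣ) : K)) := by
    rw [Units.val_pow_eq_pow_val, map_pow, hδ]
    intro h
    exact not_pw_exp hℓ (Pw.of_pow hcop hℓ.one_lt WithZero.exp_ne_zero h)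
  have hℓp : 𝔭.valuation K (ℓ : K) = 1 := by
    by_contra h
    exact h𝔭 (hSℓ _ h)
  rw [← Units.val_pow_eq_pow_val]
  refine t_DESC hDIM ℓ hℓ h2 K ζ hζ (δ ^ a) ?_ ?_
  · intro x hx
    have h1 := hx 𝔭
    unfold LC at h1
    rw [if_neg (not_not.2 hℓp), if_neg (by rw [val_loc]; exact hnp)] at h1
    obtain ⟨y, ⟨w, hw⟩, z, ⟨m, hm⟩, hyz⟩ := Subgroup.mem_sup.1 h1
    have key : x * (δ ^ a) ^ (-m) ∈ Sg ℓ S (fun v => LC ℓ v (d v ^ a)) := by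
      refine ⟨fun v hv => ?_, fun v hv => ?_⟩
      · show loc v (x * (δ ^ a) ^ (-m)) ∈ LC ℓ v (d v ^ a)
        obtain ⟨z, hz⟩ := hδS v hv
        have h3 : LC ℓ v (loc v (δ ^ a)) = LC ℓ v (d v ^ a) := by
          rw [map_pow, hz, mul_pow, ← pow_mul, mul_comm ℓ a, pow_mul, LC_mul_pow hℓ.ne_zero]
        have h4 := hx v
        have h5 := self_mem_LC (ℓ := ℓ) v (loc v (δ ^ a))
        rw [h3] at h4 h5
        rw [map_mul, map_zpow]
        exact mul_mem h4 (zpow_mem h5 _)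
      · by_cases hvp : v = 𝔭
        · subst hvp
          have h3 : loc v (x * (δ ^ a) ^ (-m)) = w ^ ℓ := by
            rw [map_mul, map_zpow, ← hyz, ← hm]
            simp only at hw ⊢
            rw [← hw, zpow_neg, mul_inv_cancel_right]
            rfl
          rw [← val_loc, h3, Units.val_pow_eq_pow_val, map_pow]
          exact Pw.pow _
        · have h3 : v.valuation K (ℓ : K) = 1 := by
            by_contra h
            exact hv (hSℓ _ h)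
          have h4 := hx v
          have h5 : v.valuation K ((δ ^ a : Kˣ) : K) = 1 := by
            rw [Units.val_pow_eq_pow_val, map_pow, hδ' v hv hvp, one_pow]
          unfold LC at h4
          rw [if_neg (not_not.2 h3), if_pos (by rw [val_loc, h5]; exact Pw.one)] at h4
          have h6 : Pw ℓ (v.valuation K (x : K)) := by
            rw [← val_loc]; exact h4
          rw [Units.val_mul, map_mul, Units.val_zpow_eq_zpow_val, map_zpow₀, h5, one_zpow, mul_one]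
          exact h6
    obtain ⟨z, hz⟩ := hS _ key
    refine ⟨m, z, ?_⟩
    rw [← hz, zpow_neg, mul_comm, inv_mul_cancel_right]
  · rintro ⟨z, hz⟩
    apply hnp
    rw [hz, Units.val_pow_eq_pow_val, map_pow]
    exact Pw.pow _

lemma totallyComplex_of_root {ℓ : ℕ} (hℓ : ℓ.Prime) (h2 : ℓ ≠ 2) {K : Type} [Field K]
    [NumberField K] {ζ : K} (hζ : IsPrimitiveRoot ζ ℓ) : IsTotallyComplex K := by
  have h3 : 2 < ℓ := lt_of_le_of_ne hℓ.two_le (Ne.symm h2)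
  exact NumberField.nrRealPlaces_eq_zero_iff.1
    (NumberField.InfinitePlace.IsPrimitiveRoot.nrRealPlaces_eq_zero_of_two_lt h3 hζ)

/-- the places above `ℓ` -/
lemma finite_above {ℓ : ℕ} (hℓ : ℓ.Prime) (K : Type) [Field K] [NumberField K] :
    {v : Pl K | v.valuation K (ℓ : K) ≠ 1}.Finite := by
  have h1 := HeightOneSpectrum.Support.finite (𝓞 K) (K := K) ((ℓ : K)⁻¹)
  refine h1.subset fun v hv => ?_
  have h0 : (ℓ : K) ≠ 0 := by exact_mod_cast hℓ.ne_zero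
  have hle : v.valuation K (ℓ : K) ≤ 1 := by
    have := v.valuation_le_one (K := K) (ℓ : 𝓞 K)
    simpa using this
  show 1 < v.valuation K ((ℓ : K)⁻¹)
  rw [map_inv₀]
  have h2 : v.valuation K (ℓ : K) ≠ 0 := (Valuation.ne_zero_iff _).2 h0
  exact (one_lt_inv₀ (zero_lt_iff.2 h2)).2 (lt_of_le_of_ne hle hv)

/-- the main theorem -/
theorem main (hDIM : S_DIM) (hIND : S_IND) (hDEL : S_DEL) (ℓ : ℕ) (hℓ : ℓ.Prime) (h2 : ℓ ≠ 2)
    (K : Type) [Field K] [NumberField K] (ζ : K) (hζ : IsPrimitiveRoot ζ ℓ) (S₀ : Finset (Pl K))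
    (η : Kˣ) : ∃ (S : Finset (Pl K)) (c X₀ : ℝ), 0 < c ∧ ∀ x : ℝ, X₀ ≤ x →
      c * (x / Real.log x) ≤ (Set.ncard {𝔭 : Pl K | (Ideal.absNorm 𝔭.asIdeal : ℝ) ≤ x ∧ 𝔭 ∉ S ∧
        ∃ δ : Kˣ, 𝔭.valuation K (δ : K) = WithZero.exp (-1 : ℤ) ∧
          (∀ v, v ∉ S → v ≠ 𝔭 → v.valuation K (δ : K) = 1) ∧
          (∀ v ∈ S₀, ∃ z, loc v δ = loc v η * z ^ ℓ) ∧
          ∀ a : ℕ, 1 ≤ a → a < ℓ → Good2 ℓ K ((δ : K) ^ a)} : ℝ) := by
  classical
  haveI := totallyComplex_of_root hℓ h2 hζ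
  set S1 : Finset (Pl K) := S₀ ∪ (finite_above hℓ K).toFinset with hS1
  have hS1ℓ : ∀ v : Pl K, v.valuation K (ℓ : K) ≠ 1 → v ∈ S1 := fun v hv =>
    Finset.mem_union_right _ ((finite_above hℓ K).mem_toFinset.2 hv)
  obtain ⟨S, d, hSS, hd, hS⟩ := hIND ℓ hℓ h2 K ζ hζ S1 (fun v => loc v η) hS1ℓ
  obtain ⟨c, X₀, hc, hX⟩ := hDEL ℓ hℓ K S d
  refine ⟨S, c, X₀, hc, fun x hx => (hX x hx).trans ?_⟩
  have hfin : {𝔭 : Pl K | (Ideal.absNorm 𝔭.asIdeal : ℝ) ≤ x ∧ 𝔭 ∉ S ∧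
        ∃ δ : Kˣ, 𝔭.valuation K (δ : K) = WithZero.exp (-1 : ℤ) ∧
          (∀ v, v ∉ S → v ≠ 𝔭 → v.valuation K (δ : K) = 1) ∧
          (∀ v ∈ S₀, ∃ z, loc v δ = loc v η * z ^ ℓ) ∧
          ∀ a : ℕ, 1 ≤ a → a < ℓ → Good2 ℓ K ((δ : K) ^ a)}.Finite := by
    refine (Ring.HasFiniteQuotients.finite_absNorm_heightOneSpectrum_le (R := 𝓞 K)
      (⌊x⌋₊)).subset ?_
    rintro 𝔭 ⟨h1, -⟩
    exact Nat.le_floor h1
  refine Nat.cast_le.2 (Set.ncard_le_ncard ?_ hfin)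
  rintro 𝔭 ⟨h1, h2', δ, h3, h4, h5⟩
  refine ⟨h1, h2', δ, h3, h4, fun v hv => ?_, fun a ha haℓ => ?_⟩
  · have hv1 : v ∈ S1 := Finset.mem_union_left _ hv
    obtain ⟨z, hz⟩ := h5 v (hSS hv1)
    exact ⟨z, by rw [hz, hd v hv1]⟩
  · exact good_pow hDIM hℓ h2 hζ S d (fun v hv => hSS (hS1ℓ v hv)) ha haℓ (hS a ha haℓ) 𝔭 h2' δ
      h3 h4 h5

end Pool.Agent.T3h73.SL
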