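import Mathlib

/-! Task UNR, part 1: norms in `k[X]/(g)` for `g` over a local ring with irreducible reduction -/

set_option autoImplicit false

open Polynomial

namespace Pool.Agent.T3h73.SL.Unr

/-- the companion matrix -/
def cm {R : Type} [CommRing R] (n : ℕ) (g : R[X]) : Matrix (Fin n) (Fin n) R :=
  Matrix.of fun i j => if (j : ℕ) + 1 = n then -g.coeff i else if (i : ℕ) = j + 1 then 1 else 0

theorem cm_map {R S : Type} [CommRing R] [CommRing S] (f : R →+* S) (n : ℕ) (g : R[X]) :
    f.mapMatrix (cm n g) = cm n (g.map f) := by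
  ext i j
  simp only [cm, RingHom.mapMatrix_apply, Matrix.map_apply, Matrix.of_apply, coeff_map]
  split_ifs <;> simp

theorem aeval_cm_map {R S : Type} [CommRing R] [CommRing S] (f : R →+* S) (n : ℕ) (g P : R[X]) :
    f.mapMatrix (aeval (cm n g) P) = aeval (cm n (g.map f)) (P.map f) := by
  rw [← cm_map]
  refine map_aeval_eq_aeval_map (φ := f) (ψ := f.mapMatrix) ?_ P (cm n g)
  ext r i j
  simp only [RingHom.comp_apply, RingHom.mapMatrix_apply, Matrix.map_apply, Matrix.algebraMap_matrix_apply,
    Algebra.algebraMap_self, RingHom.id_apply]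
  split_ifs <;> simp

section field

variable {k : Type} [Field k]

/-- the matrix of the multiplication -/
noncomputable def phi (G : k[X]) (hG : G.Monic) :
    AdjoinRoot G →ₐ[k] Matrix (Fin G.natDegree) (Fin G.natDegree) k :=
  Algebra.leftMulMatrix (AdjoinRoot.powerBasis hG.ne_zero).basis

theorem lmm (G : k[X]) (hG : G.Monic) : phi G hG (AdjoinRoot.root G) = cm G.natDegree G := by
  have h := (AdjoinRoot.powerBasis hG.ne_zero).leftMulMatrix
  rw [PowerBasis.minpolyGen_eq, AdjoinRoot.minpoly_powerBasis_gen_of_monic hG] at h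
  exact h

theorem lmm_mk (G : k[X]) (hG : G.Monic) (P : k[X]) :
    phi G hG (AdjoinRoot.mk G P) = aeval (cm G.natDegree G) P := by
  rw [← lmm G hG, ← AdjoinRoot.aeval_eq, aeval_algHom_apply]

theorem norm_mk (n : ℕ) (G : k[X]) (hG : G.Monic) (hn : G.natDegree = n) (P : k[X]) :
    Algebra.norm k (AdjoinRoot.mk G P) = (aeval (cm n G) P).det := by
  subst hn
  rw [← lmm_mk G hG, phi]
  exact Algebra.norm_eq_matrix_det (AdjoinRoot.powerBasis hG.ne_zero).basis _

theorem aeval_cm_self (n : ℕ) (G : k[X]) (hG : G.Monic) (hn : G.natDegree = n) :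
    aeval (cm n G) G = 0 := by
  subst hn
  rw [← lmm_mk G hG, AdjoinRoot.mk_self, map_zero]

end field

/-- the determinant is a unit if the reductions are coprime -/
theorem det_unit {O κ k : Type} [CommRing O] [IsLocalRing O] [Field κ] [Field k] (res : O →+* κ)
    (hunit : ∀ x, res x ≠ 0 → IsUnit x) (al : O →+* k)
    (hal : Function.Injective al) (n : ℕ) (g P : O[X]) (hg : g.Monic) (hn : g.natDegree = n)
    (hcop : IsCoprime (g.map res) (P.map res)) : IsUnit (aeval (cm n g) P).det := by
  apply hunit
  obtain ⟨A, B, hAB⟩ := hcop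
  -- the characteristic equation
  have h0 : aeval (cm n g) g = 0 := by
    have h1 : al.mapMatrix (aeval (cm n g) g) = 0 := by
      rw [aeval_cm_map]
      exact aeval_cm_self n _ (hg.map al) (by rw [hg.natDegree_map, hn])
    ext i j
    have h2 := congrFun (congrFun h1 i) j
    rw [RingHom.mapMatrix_apply, Matrix.map_apply, Matrix.zero_apply] at h2
    rw [Matrix.zero_apply]
    exact hal (by rw [h2, map_zero])
  have h3 : aeval (cm n (g.map res)) (g.map res) = 0 := by
    rw [← aeval_cm_map, h0, map_zero]
  have h4 := congrArg (aeval (cm n (g.map res))) hAB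
  rw [map_add, map_mul, map_mul, h3, mul_zero, zero_add, map_one] at h4
  have h5 : (aeval (cm n (g.map res)) B).det * (aeval (cm n (g.map res)) (P.map res)).det = 1 := by
    rw [← Matrix.det_mul, h4, Matrix.det_one]
  rw [RingHom.map_det, aeval_cm_map]
  intro h6
  rw [h6, mul_zero] at h5
  exact zero_ne_one h5

end Pool.Agent.T3h73.SL.Unr
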