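import Pool.Agent.T3h73.SL.Stm
import Pool.Agent.T3h73.SL.UnrA
import Pool.Agent.W290.WA.Irr0

/-! Task UNR: a unit which generates the unramified extension of degree `ℓ` -/

set_option autoImplicit false
set_option linter.all false

open Polynomial IsLocalRing

namespace Pool.Agent.T3h73.SL.Unr

open Pool.Agent.Y713.SE (Pw)

section val

variable {k : Type} [Field k] (v : Valuation k (WithZero (Multiplicative ℤ)))

theorem isUnit_of (x : v.valuationSubring) (h : v (x : k) = 1) : IsUnit x := by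
  have h0 : (x : k) ≠ 0 := by
    intro h1
    rw [h1, map_zero] at h
    exact zero_ne_one h
  have h2 : v ((x : k)⁻¹) ≤ 1 := by rw [map_inv₀, h, inv_one]
  refine IsUnit.of_mul_eq_one ⟨(x : k)⁻¹, (v.mem_valuationSubring_iff _).2 h2⟩ ?_
  apply Subtype.ext
  exact mul_inv_cancel₀ h0

theorem val_of_isUnit (x : v.valuationSubring) (h : IsUnit x) : v (x : k) = 1 := by
  obtain ⟨u, rfl⟩ := h
  have h1 : v (((u : v.valuationSubring) : k)) ≤ 1 := (v.mem_valuationSubring_iff _).1 (u : v.valuationSubring).2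
  have h2 : v (((u⁻¹ : v.valuationSubringˣ) : v.valuationSubring) : k) ≤ 1 :=
    (v.mem_valuationSubring_iff _).1 ((u⁻¹ : v.valuationSubringˣ) : v.valuationSubring).2
  have h3 : ((u : v.valuationSubring) : k) * (((u⁻¹ : v.valuationSubringˣ) : v.valuationSubring) : k) = 1 := by
    exact congrArg Subtype.val u.mul_inv
  have h4 : v (((u : v.valuationSubring) : k)) * v (((u⁻¹ : v.valuationSubringˣ) : v.valuationSubring) : k) = 1 := by
    rw [← map_mul, h3, map_one]
  refine le_antisymm h1 ?_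
  calc (1 : WithZero (Multiplicative ℤ)) = v (((u : v.valuationSubring) : k)) * v (((u⁻¹ : v.valuationSubringˣ) : v.valuationSubring) : k) := h4.symm
    _ ≤ v (((u : v.valuationSubring) : k)) * 1 := mul_le_mul' le_rfl h2
    _ = _ := mul_one _

theorem res_eq_zero (x : v.valuationSubring) : residue v.valuationSubring x = 0 ↔ v (x : k) < 1 := by
  rw [residue_eq_zero_iff, mem_maximalIdeal, mem_nonunits_iff]
  have h1 : v (x : k) ≤ 1 := (v.mem_valuationSubring_iff _).1 x.2
  constructor
  · intro h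
    exact lt_of_le_of_ne h1 fun h2 => h (isUnit_of v x h2)
  · intro h h2
    rw [val_of_isUnit v x h2] at h
    exact lt_irrefl _ h

end val

theorem t_UNR : S_UNR := by
  intro ℓ hℓ k _ v π hπ hfin ζ hζ hlt
  haveI := Fact.mk hℓ
  have hℓ2 : 2 ≤ ℓ := hℓ.two_le
  set O := v.valuationSubring with hO
  set κ := ResidueField O with hκ
  have hvζ : v ζ = 1 := by
    have h1 : v ζ ^ ℓ = 1 := by rw [← map_pow, hζ.pow_eq_one, map_one]
    rcases lt_trichotomy (v ζ) 1 with h2 | h2 | h2
    · exact absurd h1 (pow_lt_one₀ zero_le' h2 hℓ.ne_zero).ne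
    · exact h2
    · exact absurd h1 (one_lt_pow₀ h2 hℓ.ne_zero).ne'
  have hlam : (1 - ζ) ≠ 0 := by
    intro h
    have : ζ = 1 := (sub_eq_zero.1 h).symm
    rw [this] at hζ
    exact absurd (hζ.eq_orderOf.trans orderOf_one) (by omega)
  -- elements of the valuation ring
  let zO : O := ⟨ζ, (v.mem_valuationSubring_iff _).2 hvζ.le⟩
  let lO : O := 1 - zO
  have hlO : ((lO : O) : k) = 1 - ζ := rfl
  let eO : O := ∏ i ∈ Finset.range (ℓ - 1), ∑ j ∈ Finset.range (i + 1), zO ^ j
  have hell : ((ℓ : O)) = lO ^ (ℓ - 1) * eO := by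
    have h1 : IsPrimitiveRoot ζ ((ℓ - 1) + 1) := by rwa [Nat.sub_add_cancel (by omega)]
    have h2 := h1.prod_one_sub_pow_eq_order
    have h3 : IsPrimitiveRoot zO ((ℓ - 1) + 1) := by
      refine IsPrimitiveRoot.of_map_of_injective (f := algebraMap O k) ?_ ?_
      · exact h1
      · exact Subtype.val_injective
    have h4 := h3.prod_one_sub_pow_eq_order
    have h5 : ((ℓ : ℕ) : O) = ((ℓ - 1 : ℕ) : O) + 1 := by
      have : ((ℓ - 1 : ℕ) : O) + 1 = (((ℓ - 1) + 1 : ℕ) : O) := by push_cast; rfl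
      rw [this, Nat.sub_add_cancel (by omega)]
    rw [h5, ← h4]
    rw [Finset.prod_congr rfl fun i _ => (mul_neg_geom_sum zO (i + 1)).symm, Finset.prod_mul_distrib,
      Finset.prod_const, Finset.card_range]
  have hzres : residue O zO = 1 := by
    have : residue O lO = 0 := (res_eq_zero v lO).2 (by rw [hlO]; exact hlt)
    rw [map_sub, map_one, sub_eq_zero] at this
    exact this.symm
  have hchar0 : ((ℓ : ℕ) : κ) = 0 := by
    have h1 := congrArg (residue O) hell
    rw [map_natCast, map_mul, map_pow, (res_eq_zero v lO).2 (by rw [hlO]; exact hlt), zero_pow (by omega),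
      zero_mul] at h1
    exact h1
  haveI hcharp : CharP κ ℓ := by
    obtain ⟨q, hq⟩ := CharP.exists κ
    have h1 : q ∣ ℓ := (CharP.cast_eq_zero_iff κ q ℓ).1 hchar0
    rcases (Nat.dvd_prime hℓ).1 h1 with h | h
    · exact absurd h (CharP.char_ne_one κ q)
    · rwa [h] at hq
  have heres : residue O eO = -1 := by
    simp only [eO, map_prod, map_sum, map_pow, hzres, one_pow, Finset.sum_const, Finset.card_range, nsmul_eq_mul,
      mul_one]
    have h1 : ∏ i ∈ Finset.range (ℓ - 1), (((i + 1 : ℕ)) : κ) = -1 := by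
      rw [← Nat.cast_prod, Finset.prod_range_add_one_eq_factorial]
      have h2 := ZMod.wilsons_lemma ℓ
      have h3 := congrArg (ZMod.castHom (dvd_refl ℓ) κ) h2
      rw [map_natCast, map_neg, map_one] at h3
      exact h3
    exact h1
  -- the residue class c
  obtain ⟨cb, hcb⟩ : ∃ c : κ, ∀ b : κ, b ^ ℓ - b ≠ c := by
    have hns : ¬ Function.Surjective fun b : κ => b ^ ℓ - b := by
      intro hs
      haveI : Finite κ := hfin
      have hi := Finite.injective_iff_surjective.2 hs
      have h01 : (0 : κ) = 1 := hi (by simp [hℓ.ne_zero])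
      exact zero_ne_one h01
    unfold Function.Surjective at hns
    push Not at hns
    exact hns
  obtain ⟨c, hc⟩ := residue_surjective (R := O) cb
  -- the polynomial
  let b : ℕ → O := fun i => ((ℓ.choose i / ℓ : ℕ) : O)
  have hb : ∀ i, 1 ≤ i → i < ℓ → (ℓ : O) * b i = ((ℓ.choose i : ℕ) : O) := by
    intro i h1 h2
    have h3 : ℓ ∣ ℓ.choose i := hℓ.dvd_choose_self (by omega) h2
    have h4 : ℓ * (ℓ.choose i / ℓ) = ℓ.choose i := Nat.mul_div_cancel' h3
    simp only [b]
    rw [← Nat.cast_mul, h4]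
  let h : O[X] := ∑ i ∈ Finset.Ico 1 ℓ, C (b i * eO * lO ^ (i - 1)) * X ^ i - C c
  let g : O[X] := X ^ ℓ + h
  have hdeg : h.degree < ℓ := by
    refine lt_of_le_of_lt (degree_sub_le _ _) (max_lt ?_ ?_)
    · refine lt_of_le_of_lt (degree_sum_le _ _) ?_
      rw [Finset.sup_lt_iff (by exact_mod_cast WithBot.bot_lt_coe ℓ)]
      intro i hi
      refine lt_of_le_of_lt (degree_C_mul_X_pow_le _ _) ?_
      exact_mod_cast (Finset.mem_Ico.1 hi).2
    · refine lt_of_le_of_lt degree_C_le ?_
      exact_mod_cast hℓ.pos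
  have hgm : g.Monic := monic_X_pow_add hdeg
  have hgn : g.natDegree = ℓ := by
    have : g.degree = ℓ := by
      rw [degree_add_eq_left_of_degree_lt (by rwa [degree_X_pow]), degree_X_pow]
    exact natDegree_eq_of_degree_eq_some this
  have hgres : g.map (residue O) = X ^ ℓ - X - C cb := by
    simp only [g, h, Polynomial.map_add, Polynomial.map_pow, map_X, Polynomial.map_sub, map_C, hc,
      Polynomial.map_sum, Polynomial.map_mul]
    have h1 : ∑ i ∈ Finset.Ico 1 ℓ, C (residue O (b i * eO * lO ^ (i - 1))) * X ^ i = -(X : κ[X]) := by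
      rw [Finset.sum_eq_single 1]
      · have hb1 : b 1 = 1 := by
          simp only [b, Nat.choose_one_right]
          rw [Nat.div_self hℓ.pos, Nat.cast_one]
        rw [hb1, Nat.sub_self, pow_zero, mul_one, one_mul, heres, map_neg, map_one, pow_one, neg_one_mul]
      · intro i hi hi1
        have hi2 := Finset.mem_Ico.1 hi
        rw [map_mul, map_pow, (res_eq_zero v lO).2 (by rw [hlO]; exact hlt), zero_pow (by omega), mul_zero, map_zero,
          zero_mul]
      · intro h1
        exact absurd (Finset.mem_Ico.2 ⟨le_rfl, by omega⟩) h1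
    rw [h1]
    ring
  have hirres : Irreducible (g.map (residue O)) := by
    rw [hgres]
    exact Pool.Agent.W290.WA.irr ℓ κ cb hcb
  have hirrO : Irreducible g := hgm.irreducible_of_irreducible_map (residue O) g hirres
  have hirrk : Irreducible (g.map (algebraMap O k)) :=
    (hgm.irreducible_iff_irreducible_map_fraction_map).1 hirrO
  set G : k[X] := g.map (algebraMap O k) with hG
  have hGm : G.Monic := hgm.map _
  have hGn : G.natDegree = ℓ := by rw [hG, hgm.natDegree_map, hgn]
  -- the fundamental identity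
  have key : ∀ (E : Type) [CommRing E] [Algebra k E] (t : E),
      algebraMap k E (1 - ζ) ^ ℓ * aeval t G =
        (1 + algebraMap k E (1 - ζ) * t) ^ ℓ - 1 - algebraMap k E ((1 - ζ) ^ ℓ * (c : k)) := by
    intro E _ _ t
    set L := algebraMap k E (1 - ζ) with hL
    have e1 : aeval t G = t ^ ℓ + (∑ i ∈ Finset.Ico 1 ℓ,
        algebraMap k E (algebraMap O k (b i)) * algebraMap k E (algebraMap O k eO) *
          algebraMap k E (algebraMap O k lO) ^ (i - 1) * t ^ i - algebraMap k E (algebraMap O k c)) := by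
      rw [hG]
      simp only [g, h, Polynomial.map_add, Polynomial.map_pow, map_X, Polynomial.map_sub, map_C,
        Polynomial.map_sum, Polynomial.map_mul, map_add, map_pow, aeval_X, map_sub, map_sum, map_mul, aeval_C]
    have e2 : (1 + L * t) ^ ℓ = 1 + ∑ i ∈ Finset.Ico 1 ℓ, ((ℓ.choose i : ℕ) : E) * (L * t) ^ i + (L * t) ^ ℓ := by
      rw [add_comm (1 : E) (L * t), add_pow, Finset.sum_range_succ, Finset.range_eq_Ico,
        Finset.sum_eq_sum_Ico_succ_bot (by omega)]
      simp only [one_pow, mul_one, pow_zero, Nat.choose_zero_right, Nat.cast_one, Nat.choose_self]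
      congr 2
      exact Finset.sum_congr rfl fun i _ => by ring
    have e3 : ∀ i ∈ Finset.Ico 1 ℓ, L ^ ℓ * (algebraMap k E (algebraMap O k (b i)) *
        algebraMap k E (algebraMap O k eO) * algebraMap k E (algebraMap O k lO) ^ (i - 1) * t ^ i) =
        ((ℓ.choose i : ℕ) : E) * (L * t) ^ i := by
      intro i hi
      have hi2 := Finset.mem_Ico.1 hi
      have e4 : (lO ^ ℓ) * (b i * eO * lO ^ (i - 1)) = ((ℓ.choose i : ℕ) : O) * lO ^ i := by
        rw [← hb i hi2.1 hi2.2, hell]
        have e5 : lO ^ ℓ = lO ^ (ℓ - 1) * lO := by rw [← pow_succ, Nat.sub_add_cancel (by omega)]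
        have e6 : lO ^ i = lO ^ (i - 1) * lO := by rw [← pow_succ, Nat.sub_add_cancel hi2.1]
        rw [e5, e6]
        ring
      have e7 := congrArg (fun x : O => algebraMap k E (algebraMap O k x)) e4
      simp only [map_mul, map_pow, map_natCast] at e7
      have e9 : algebraMap k E (algebraMap O k lO) = L := rfl
      rw [e9] at e7 ⊢
      rw [mul_pow]
      linear_combination t ^ i * e7
    have e10 : algebraMap k E ((1 - ζ) ^ ℓ * (c : k)) = L ^ ℓ * algebraMap k E (algebraMap O k c) := by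
      rw [map_mul, map_pow]
      rfl
    rw [e10, e1, mul_add, mul_sub, Finset.mul_sum, Finset.sum_congr rfl e3, e2]
    ring
  -- the unit
  have hvl : v ((1 - ζ) ^ ℓ * (c : k)) ≤ v (1 - ζ) ^ ℓ := by
    rw [map_mul, map_pow]
    calc v (1 - ζ) ^ ℓ * v (c : k) ≤ v (1 - ζ) ^ ℓ * 1 :=
          mul_le_mul' le_rfl ((v.mem_valuationSubring_iff _).1 c.2)
      _ = _ := mul_one _
  have hvl1 : v ((1 - ζ) ^ ℓ * (c : k)) < 1 := lt_of_le_of_lt hvl (pow_lt_one₀ zero_le' hlt (by omega))
  have hu0 : 1 + (1 - ζ) ^ ℓ * (c : k) ≠ 0 := by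
    intro h0
    have h1 : (1 - ζ) ^ ℓ * (c : k) = -1 := by linear_combination h0
    rw [h1, Valuation.map_neg, map_one] at hvl1
    exact lt_irrefl _ hvl1
  have hnp : ∀ y : k, y ^ ℓ ≠ 1 + (1 - ζ) ^ ℓ * (c : k) := by
    intro y hy
    have h1 := key k ((y - 1) / (1 - ζ))
    simp only [Algebra.algebraMap_self, RingHom.id_apply] at h1
    have h2 : 1 + (1 - ζ) * ((y - 1) / (1 - ζ)) = y := by
      rw [mul_div_cancel₀ _ hlam]
      ring
    rw [h2, hy] at h1
    have h3 : (1 - ζ) ^ ℓ * aeval ((y - 1) / (1 - ζ)) G = 0 := by rw [h1]; ring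
    have h4 : aeval ((y - 1) / (1 - ζ)) G = 0 := (mul_eq_zero.1 h3).resolve_left (pow_ne_zero _ hlam)
    rw [coe_aeval_eq_eval] at h4
    have h5 := degree_eq_one_of_irreducible_of_root hirrk h4
    rw [degree_eq_natDegree hGm.ne_zero, hGn] at h5
    have h6 : ℓ = 1 := by exact_mod_cast h5
    omega
  refine ⟨Units.mk0 _ hu0, ?_, ?_, ?_⟩
  · rw [Units.val_mk0]
    have : 1 + (1 - ζ) ^ ℓ * (c : k) - 1 = (1 - ζ) ^ ℓ * (c : k) := by ring
    rw [this]
    exact hvl
  · rintro ⟨z, hz⟩
    apply hnp (z : k)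
    have := congrArg (fun x : kˣ => (x : k)) hz
    simpa using this.symm
  · rw [Units.val_mk0]
    set u : k := 1 + (1 - ζ) ^ ℓ * (c : k) with hu
    intro x hx
    have hf0 : (X ^ ℓ - C u : k[X]).Monic := monic_X_pow_sub_C u hℓ.ne_zero
    have hfn : (X ^ ℓ - C u : k[X]).natDegree = ℓ := natDegree_X_pow_sub_C
    -- the element t
    let r : AdjoinRoot (X ^ ℓ - C u : k[X]) := AdjoinRoot.root _
    have hr : r ^ ℓ = algebraMap k _ u := by
      have h1 := AdjoinRoot.eval₂_root (X ^ ℓ - C u : k[X])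
      rw [eval₂_sub, eval₂_X_pow, eval₂_C, sub_eq_zero] at h1
      exact h1
    let t : AdjoinRoot (X ^ ℓ - C u : k[X]) := algebraMap k _ (1 - ζ)⁻¹ * (r - 1)
    have ht : aeval t G = 0 := by
      have h1 := key _ t
      have h2 : 1 + algebraMap k (AdjoinRoot (X ^ ℓ - C u : k[X])) (1 - ζ) * t = r := by
        simp only [t]
        rw [← mul_assoc, ← map_mul, mul_inv_cancel₀ hlam, map_one]
        ring
      have hu' : algebraMap k (AdjoinRoot (X ^ ℓ - C u : k[X])) u =
          1 + algebraMap k (AdjoinRoot (X ^ ℓ - C u : k[X])) ((1 - ζ) ^ ℓ * (c : k)) := by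
        rw [← map_one (algebraMap k (AdjoinRoot (X ^ ℓ - C u : k[X]))), ← map_add]
      rw [h2, hr, hu'] at h1
      have h3 : algebraMap k (AdjoinRoot (X ^ ℓ - C u : k[X])) (1 - ζ) ^ ℓ * aeval t G = 0 := by
        rw [h1]; ring
      have h4 : algebraMap k (AdjoinRoot (X ^ ℓ - C u : k[X])) ((1 - ζ) ^ ℓ)⁻¹ *
          (algebraMap k (AdjoinRoot (X ^ ℓ - C u : k[X])) (1 - ζ) ^ ℓ * aeval t G) = 0 := by
        rw [h3, mul_zero]
      rwa [← map_pow, ← mul_assoc, ← map_mul, inv_mul_cancel₀ (pow_ne_zero _ hlam), map_one, one_mul] at h4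
    haveI : Fact (Irreducible G) := ⟨hirrk⟩
    haveI : Nontrivial (AdjoinRoot (X ^ ℓ - C u : k[X])) :=
      AdjoinRoot.nontrivial _ (by
        rw [degree_eq_natDegree hf0.ne_zero, hfn]
        exact_mod_cast hℓ.ne_zero)
    let φ : AdjoinRoot G →ₐ[k] AdjoinRoot (X ^ ℓ - C u : k[X]) :=
      AdjoinRoot.liftAlgHom G (Algebra.ofId k _) t (by simpa [aeval_def] using ht)
    have hφi : Function.Injective φ := φ.toRingHom.injective
    have hd1 : Module.finrank k (AdjoinRoot G) = ℓ := by
      rw [(AdjoinRoot.powerBasis hGm.ne_zero).finrank, AdjoinRoot.powerBasis_dim, hGn]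
    have hd2 : Module.finrank k (AdjoinRoot (X ^ ℓ - C u : k[X])) = ℓ := by
      rw [(AdjoinRoot.powerBasis hf0.ne_zero).finrank, AdjoinRoot.powerBasis_dim, hfn]
    haveI : FiniteDimensional k (AdjoinRoot G) := (AdjoinRoot.powerBasis hGm.ne_zero).finite
    haveI : FiniteDimensional k (AdjoinRoot (X ^ ℓ - C u : k[X])) := (AdjoinRoot.powerBasis hf0.ne_zero).finite
    have hφs : Function.Surjective φ :=
      (LinearMap.injective_iff_surjective_of_finrank_eq_finrank (f := φ.toLinearMap) (hd1.trans hd2.symm)).1 hφi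
    let e : AdjoinRoot G ≃ₐ[k] AdjoinRoot (X ^ ℓ - C u : k[X]) := AlgEquiv.ofBijective φ ⟨hφi, hφs⟩
    obtain ⟨y, rfl⟩ := e.surjective x
    rw [Algebra.norm_eq_of_algEquiv] at hx ⊢
    -- a polynomial of small degree
    obtain ⟨Q, rfl⟩ := AdjoinRoot.mk_surjective y
    have hQ : AdjoinRoot.mk G Q = AdjoinRoot.mk G (Q %ₘ G) := by
      rw [AdjoinRoot.mk_eq_mk]
      exact ⟨Q /ₘ G, by linear_combination -(modByMonic_add_div Q G)⟩
    rw [hQ] at hx ⊢
    set P := Q %ₘ G with hP
    have hP0 : P ≠ 0 := by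
      intro h0
      rw [h0, map_zero, Algebra.norm_zero] at hx
      exact hx rfl
    have hPd : P.natDegree < ℓ := by
      have h1 := degree_modByMonic_lt Q hGm
      rw [← hP, degree_eq_natDegree hP0, degree_eq_natDegree hGm.ne_zero, hGn] at h1
      exact_mod_cast h1
    -- the coefficient of maximal valuation
    obtain ⟨i0, hi0, hmax⟩ := P.support.exists_max_image (fun i => v (P.coeff i))
      (support_nonempty.2 hP0)
    set s := P.coeff i0 with hs
    have hs0 : s ≠ 0 := mem_support_iff.1 hi0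
    have hvs0 : v s ≠ 0 := (Valuation.ne_zero_iff v).2 hs0
    have hle : ∀ i, v (s⁻¹ * P.coeff i) ≤ 1 := by
      intro i
      rw [map_mul, map_inv₀]
      by_cases h1 : i ∈ P.support
      · calc (v s)⁻¹ * v (P.coeff i) ≤ (v s)⁻¹ * v s := mul_le_mul' le_rfl (hmax i h1)
          _ = 1 := inv_mul_cancel₀ hvs0
      · rw [notMem_support_iff.1 h1, map_zero, mul_zero]
        exact zero_le_one
    let P0 : O[X] := ∑ i ∈ Finset.range ℓ, C (⟨s⁻¹ * P.coeff i, (v.mem_valuationSubring_iff _).2 (hle i)⟩ : O) * X ^ i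
    have hP0c : ∀ i, i < ℓ → P0.coeff i = ⟨s⁻¹ * P.coeff i, (v.mem_valuationSubring_iff _).2 (hle i)⟩ := by
      intro i hi
      simp only [P0, finset_sum_coeff, coeff_C_mul, coeff_X_pow, mul_ite, mul_one, mul_zero]
      rw [Finset.sum_ite_eq, if_pos (Finset.mem_range.2 hi)]
    have hP0d : P0.degree < ℓ := by
      refine lt_of_le_of_lt (degree_sum_le _ _) ?_
      rw [Finset.sup_lt_iff (by exact_mod_cast WithBot.bot_lt_coe ℓ)]
      intro i hi
      refine lt_of_le_of_lt (degree_C_mul_X_pow_le _ _) ?_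
      exact_mod_cast (Finset.mem_range.1 hi)
    have hPP0 : P = C s * P0.map (algebraMap O k) := by
      ext i
      rw [coeff_C_mul, coeff_map]
      rcases lt_or_ge i ℓ with hi | hi
      · rw [hP0c i hi]
        show P.coeff i = s * (s⁻¹ * P.coeff i)
        rw [← mul_assoc, mul_inv_cancel₀ hs0, one_mul]
      · rw [coeff_eq_zero_of_natDegree_lt (lt_of_lt_of_le hPd hi),
          coeff_eq_zero_of_degree_lt (lt_of_lt_of_le hP0d (by exact_mod_cast hi)), map_zero, mul_zero]
    have hi0l : i0 < ℓ := lt_of_le_of_lt (le_natDegree_of_mem_supp _ hi0) hPd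
    have hres0 : P0.map (residue O) ≠ 0 := by
      intro h0
      have h1 := congrArg (fun q => coeff q i0) h0
      simp only [coeff_map, coeff_zero] at h1
      rw [hP0c i0 hi0l, res_eq_zero v] at h1
      have h2 : s⁻¹ * P.coeff i0 = 1 := inv_mul_cancel₀ hs0
      simp only [h2, map_one, lt_irrefl] at h1
    have hcop : IsCoprime (g.map (residue O)) (P0.map (residue O)) := by
      rw [hirres.coprime_iff_not_dvd]
      intro hd
      have h1 := natDegree_le_of_dvd hd hres0
      rw [hgm.natDegree_map, hgn] at h1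
      have h2 : (P0.map (residue O)).degree < ℓ := lt_of_le_of_lt degree_map_le hP0d
      rw [degree_eq_natDegree hres0] at h2
      have h3 : (P0.map (residue O)).natDegree < ℓ := by exact_mod_cast h2
      omega
    have hunit := det_unit (residue O) (fun x hx => by
        by_contra h1
        exact hx ((residue_eq_zero_iff x).2 ((mem_maximalIdeal x).2 h1)))
      (algebraMap O k) Subtype.val_injective ℓ g P0 hgm hgn hcop
    have hnorm : Algebra.norm k (AdjoinRoot.mk G P) = s ^ ℓ * ((aeval (cm ℓ g) P0).det : O) := by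
      rw [norm_mk ℓ G hGm hGn, hPP0, map_mul, aeval_C, Matrix.det_mul, Algebra.algebraMap_eq_smul_one,
        Matrix.det_smul, Matrix.det_one, mul_one, Fintype.card_fin, hG, ← aeval_cm_map]
      congr 1
      exact (RingHom.map_det (algebraMap O k) _).symm
    rw [hnorm, map_mul, val_of_isUnit v _ hunit, mul_one, map_pow]
    exact Pw.pow _

end Pool.Agent.T3h73.SL.Unr
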