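import Pool.Agent.T3h73.SL.T_FIN

/-! # BIG: all the local conditions have large index -/

set_option autoImplicit false
set_option linter.all false

open NumberField IsDedekindDomain Polynomial WithZero

namespace Pool.Agent.T3h73.SL.Big

open Pool.Agent.H552R3.SymBr
open Pool.Agent.Y713.SE (Pw)

lemma symCl_pow_n {n : ℕ} {k : Type} [Field k] {ζ : k} (hn : 0 < n) (hζ : IsPrimitiveRoot ζ n)
    (a b : kˣ) : symCl hn hζ a b ^ n = 1 := by
  have h1 := symCl_scale hn hζ a 1 b
  rw [symCl_one_right, one_mul] at h1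
  have h2 : symR hn hζ a (b ^ n) = symR hn hζ a b ^ n := map_pow _ _ _
  have h3 : symR hn hζ a (b ^ n) = symCl hn hζ a (b ^ n) := rfl
  have h4 : symR hn hζ a b = symCl hn hζ a b := rfl
  rw [h3, ← h1, h4] at h2
  exact h2.symm

lemma pk_le_lo {ℓ : ℕ} {k : Type} [Field k] (δ : kˣ) : Pk ℓ kˣ ≤ Lo ℓ δ := by
  rintro x ⟨z, hz⟩
  exact Subgroup.subset_closure (Or.inl ⟨z, hz.symm⟩)

lemma pk_index {ℓ : ℕ} (hℓ : ℓ.Prime) {G : Type} [CommGroup G] (h : (Pk ℓ G).index = ℓ ^ 2) (d : G) :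
    ℓ ≤ (Pk ℓ G ⊔ Subgroup.zpowers d).index := by
  have h1 : (Pk ℓ G).relIndex (Pk ℓ G ⊔ Subgroup.zpowers d) * (Pk ℓ G ⊔ Subgroup.zpowers d).index =
      (Pk ℓ G).index := Subgroup.relIndex_mul_index le_sup_left
  have h2 : (Pk ℓ G).relIndex (Pk ℓ G ⊔ Subgroup.zpowers d) = (Pk ℓ G).relIndex (Subgroup.zpowers d) := by
    rw [Subgroup.relIndex_sup_left]
  have h3 : (Pk ℓ G).relIndex (Subgroup.zpowers d) =
      orderOf (QuotientGroup.mk' (Pk ℓ G) d) := by
    have h4 := Subgroup.relIndex_ker (Subgroup.zpowers d) (QuotientGroup.mk' (Pk ℓ G))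
    rw [QuotientGroup.ker_mk'] at h4
    rw [h4, MonoidHom.map_zpowers, Nat.card_zpowers]
  have h5 : orderOf (QuotientGroup.mk' (Pk ℓ G) d) ∣ ℓ := by
    rw [orderOf_dvd_iff_pow_eq_one, ← map_pow]
    rw [QuotientGroup.mk'_apply, QuotientGroup.eq_one_iff]
    exact ⟨d, rfl⟩
  have h6 := Nat.le_of_dvd hℓ.pos h5
  rw [h2, h3, h] at h1
  by_contra hlt
  push Not at hlt
  have h7 := Nat.mul_le_mul_right (Pk ℓ G ⊔ Subgroup.zpowers d).index h6
  have h8 : ℓ * (Pk ℓ G ⊔ Subgroup.zpowers d).index < ℓ * ℓ := Nat.mul_lt_mul_of_pos_left hlt hℓ.pos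
  rw [h1] at h7
  nlinarith

theorem t_BIG (hN : S_NRM) (hI : S_ISO) (hU : S_UNR) (hL : S_LOCC) (hT : S_TAM) (hR : S_RES) :
    S_BIG := by
  intro ℓ hℓ hℓ2 K _ _ ζ hζ v d
  have hF := Fin.t_FIN ℓ hℓ K v
  have hle : Pk ℓ (v.adicCompletion K)ˣ ≤ LC ℓ v d := by
    unfold LC
    split_ifs with h1 h2
    · exact pk_le_lo d
    · rintro x ⟨z, rfl⟩
      show Pw ℓ (Valued.v ((z ^ ℓ : (v.adicCompletion K)ˣ) : v.adicCompletion K))
      rw [Units.val_pow_eq_pow_val, map_pow]
      exact Pw.pow _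
    · exact le_sup_left
  have hidx : (LC ℓ v d).index ≠ 0 := by
    intro h0
    have h1 := Subgroup.index_dvd_of_le hle
    rw [h0, zero_dvd_iff] at h1
    exact hF h1
  refine ⟨hle, hidx, fun e he => ?_⟩
  by_cases hv : v.valuation K (ℓ : K) = 1
  · have he0 : e = 0 := by
      rw [hv] at he
      have h1 : WithZero.exp (0 : ℤ) = WithZero.exp (-(e : ℤ)) := he
      have := WithZero.exp_injective h1
      omega
    obtain ⟨hT1, hT2⟩ := hT ℓ hℓ K ζ hζ v hv
    rw [he0, pow_zero, mul_one]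
    refine Nat.pow_le_pow_left ?_ 2
    unfold LC
    rw [if_neg (by rw [not_not]; exact hv)]
    split_ifs with h2
    · exact hT2.ge
    · exact pk_index hℓ hT1 d
  · -- the places above `ℓ`
    have hLC : LC ℓ v d = Lo ℓ d := by
      unfold LC
      rw [if_pos hv]
    rw [hLC] at hidx ⊢
    haveI : CharZero (v.adicCompletion K) := algebraRat.charZero _
    set z : v.adicCompletion K := algebraMap K (v.adicCompletion K) ζ with hz
    have hzr : IsPrimitiveRoot z ℓ := hζ.map_of_injective (algebraMap K (v.adicCompletion K)).injective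
    set V : Valuation (v.adicCompletion K) (WithZero (Multiplicative ℤ)) := Valued.v with hV
    have hvl : V (ℓ : v.adicCompletion K) = v.valuation K (ℓ : K) := by
      have h5 := HeightOneSpectrum.valuedAdicCompletion_eq_valuation' v (ℓ : K)
      rw [← h5]
      have h6 : (ℓ : v.adicCompletion K) = algebraMap K (v.adicCompletion K) (ℓ : K) := by
        rw [map_natCast]
      rw [h6]
      rfl
    have hVp := Cyc.val_prime V hℓ hzr
    have hz1 : V (1 - z) ≤ 1 := by
      refine (Valuation.map_sub _ _ _).trans (max_le (by rw [map_one]) ?_)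
      rw [Cyc.val_root V hℓ hzr.pow_eq_one]
    have hzne : (1 - z) ≠ 0 := by
      rw [sub_ne_zero]
      exact (hzr.ne_one hℓ.one_lt).symm
    have hz2 : V (1 - z) < 1 := by
      refine lt_of_le_of_ne hz1 fun h1 => hv ?_
      rw [← hvl, hVp, h1, one_pow]
    obtain ⟨m, hm⟩ : ∃ m : ℤ, V (1 - z) = WithZero.exp m :=
      ⟨_, (WithZero.exp_log ((Valuation.ne_zero_iff _).2 hzne)).symm⟩
    have hm0 : m < 0 := by
      rw [hm, ← WithZero.exp_zero, WithZero.exp_lt_exp] at hz2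
      exact hz2
    obtain ⟨e₀, he₀⟩ : ∃ e₀ : ℕ, m = -(e₀ : ℤ) := ⟨m.natAbs, by omega⟩
    rw [he₀] at hm
    have hl1 : V (ℓ : v.adicCompletion K) = WithZero.exp (-(((ℓ - 1) * e₀ : ℕ) : ℤ)) := by
      rw [hVp, hm, ← WithZero.exp_nsmul]
      congr 1
      push_cast
      simp
    have hzl : V (1 - z) ^ ℓ = WithZero.exp (-((ℓ * e₀ : ℕ) : ℤ)) := by
      rw [hm, ← WithZero.exp_nsmul]
      congr 1
      push_cast
      simp
    have hee : e = (ℓ - 1) * e₀ := by
      rw [← hvl, hl1] at he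
      have := WithZero.exp_injective he
      omega
    obtain ⟨π, hπ⟩ : ∃ π : (v.adicCompletion K)ˣ, V (π : v.adicCompletion K) =
        WithZero.exp (-1 : ℤ) := by
      obtain ⟨p, hp⟩ := v.valuation_exists_uniformizer K
      have h5 := HeightOneSpectrum.valuedAdicCompletion_eq_valuation' v p
      rw [hp] at h5
      refine ⟨Units.mk0 (algebraMap K (v.adicCompletion K) p) ?_, ?_⟩
      · intro h0
        have h6 : V (algebraMap K (v.adicCompletion K) p) = WithZero.exp (-1 : ℤ) := h5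
        rw [h0, map_zero] at h6
        exact WithZero.exp_ne_zero h6.symm
      · rw [Units.val_mk0]; exact h5
    have hcard := hR K v
    have hq : Ideal.absNorm v.asIdeal ≠ 0 := by
      rw [Ne, Ideal.absNorm_eq_zero_iff]
      exact v.ne_bot
    haveI : Finite (IsLocalRing.ResidueField V.valuationSubring) := by
      refine Nat.finite_of_card_ne_zero ?_
      rw [hcard]
      exact hq
    rw [hee]
    refine hL ℓ hℓ (v.adicCompletion K) V e₀ (Ideal.absNorm v.asIdeal) π hπ hcard hq (by omega) hl1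
      (fun x hx => Hens.t_HENS ℓ hℓ K v z hzr x (by rw [← hzl] at hx; exact hx))
      (BrauerGroup.{0, 0} (v.adicCompletion K)) (fun a b => symCl hℓ.pos hzr a b)
      (fun a b c => symCl_mul_left hℓ.pos hzr a b c) (fun a b c => symCl_mul_right hℓ.pos hzr a b c)
      (fun a b hab => symCl_steinberg hℓ.pos hzr b a (by linear_combination hab))
      (fun a b => symCl_pow_n hℓ.pos hzr a b) ?_ (Lo ℓ d) hidx
      (fun x => pk_le_lo d ⟨x, rfl⟩) (fun x hx y hy => hI ℓ hℓ hℓ2 (v.adicCompletion K) z hzr d x hx y hy)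
    obtain ⟨u, hu1, hu2, hu3⟩ := hU ℓ hℓ (v.adicCompletion K) V (π : v.adicCompletion K) hπ
      inferInstance z hzr hz2
    refine ⟨u, by rw [← hzl]; exact hu1, fun h0 => ?_⟩
    obtain ⟨c, hc⟩ := hN ℓ hℓ (v.adicCompletion K) z hzr u π hu2 h0
    obtain ⟨β, hβ⟩ := hu3 c (by rw [hc]; exact π.ne_zero)
    rw [hc, hπ] at hβ
    have hβ0 : β ≠ 0 := by
      rintro rfl
      rw [zero_pow hℓ.ne_zero] at hβ
      exact WithZero.exp_ne_zero hβ
    rw [← WithZero.exp_log hβ0, ← WithZero.exp_nsmul] at hβ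
    have h9 := WithZero.exp_injective hβ
    rw [nsmul_eq_mul] at h9
    have h10 : (ℓ : ℤ) ∣ 1 := ⟨-WithZero.log β, by linarith⟩
    have h11 := Int.le_of_dvd one_pos h10
    have := hℓ.two_le
    omega

end Pool.Agent.T3h73.SL.Big
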