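import Pool.Agent.T3h73.SL.Stm

/-!
# Task ISO: the local condition above `ℓ` is isotropic
-/

set_option autoImplicit false
set_option linter.all false

open NumberField IsDedekindDomain Polynomial

namespace Pool.Agent.T3h73.SL.Iso

open Pool.Agent.H552R3.SymBr

section sym

variable {ℓ : ℕ} {M : Type} [Field M] {ζ : M}

lemma s_pow_right (hn : 0 < ℓ) (hζ : IsPrimitiveRoot ζ ℓ) (a c : Mˣ) : symCl hn hζ a (c ^ ℓ) = 1 := by
  have h := symCl_scale hn hζ a 1 c
  rw [one_mul, symCl_one_right] at h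
  exact h.symm

lemma s_pow_left (hn : 0 < ℓ) (hζ : IsPrimitiveRoot ζ ℓ) (a c : Mˣ) : symCl hn hζ (c ^ ℓ) a = 1 := by
  rw [symCl_anti, s_pow_right, inv_one]

lemma s_tors (hn : 0 < ℓ) (hζ : IsPrimitiveRoot ζ ℓ) (a c : Mˣ) : symCl hn hζ a c ^ ℓ = 1 := by
  have h := map_pow (symR hn hζ a) c ℓ
  exact h.symm.trans (s_pow_right hn hζ a c)

lemma s_neg_one (hn : 0 < ℓ) (hodd : Odd ℓ) (hζ : IsPrimitiveRoot ζ ℓ) (a : Mˣ) : symCl hn hζ a (-1) = 1 := by
  have h := s_pow_right hn hζ a (-1)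
  rwa [hodd.neg_one_pow] at h

lemma s_self (hn : 0 < ℓ) (hodd : Odd ℓ) (hζ : IsPrimitiveRoot ζ ℓ) (a : Mˣ) : symCl hn hζ a a = 1 := by
  rcases symCl_diag hn hζ a with h | h
  · exact h
  · rw [h, s_neg_one hn hodd]

lemma s_swap1 (hn : 0 < ℓ) (hζ : IsPrimitiveRoot ζ ℓ) {a b : Mˣ} (h : symCl hn hζ a b = 1) :
    symCl hn hζ b a = 1 := by
  rw [symCl_anti, h, inv_one]

lemma s_neg_right (hn : 0 < ℓ) (hodd : Odd ℓ) (hζ : IsPrimitiveRoot ζ ℓ) (a b : Mˣ) :
    symCl hn hζ a (-b) = symCl hn hζ a b := by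
  rw [← neg_one_mul, symCl_mul_right, s_neg_one hn hodd, one_mul]

lemma s_inv_left (hn : 0 < ℓ) (hζ : IsPrimitiveRoot ζ ℓ) (a b : Mˣ) :
    symCl hn hζ a⁻¹ b = (symCl hn hζ a b)⁻¹ := map_inv (symL hn hζ b) a

/-- `(r, r + 1) = 0` -/
lemma s_succ (hn : 0 < ℓ) (hodd : Odd ℓ) (hζ : IsPrimitiveRoot ζ ℓ) {r r1 : Mˣ} (h1 : (r1 : M) = r + 1) :
    symCl hn hζ r1 r = 1 := by
  have h := symCl_steinberg hn hζ (-r) r1 (by rw [h1, Units.val_neg]; ring)
  rwa [s_neg_right hn hodd] at h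

/-- `(r, D) = 0` -/
lemma s_D (hn : 0 < ℓ) (hodd : Odd ℓ) (hζ : IsPrimitiveRoot ζ ℓ) {D r r1 a : Mˣ} (h1 : (r1 : M) = r + 1)
    (ha : D * (r * r1) = a ^ ℓ) : symCl hn hζ r D = 1 ∧ symCl hn hζ r1 D = 1 := by
  have e1 := s_succ hn hodd hζ h1
  have e2 := s_swap1 hn hζ e1
  constructor
  · have h := s_pow_right hn hζ r a
    rw [← ha, symCl_mul_right, symCl_mul_right, s_self hn hodd, e2, mul_one, mul_one] at h
    exact h
  · have h := s_pow_right hn hζ r1 a
    rw [← ha, symCl_mul_right, symCl_mul_right, s_self hn hodd, e1, mul_one, mul_one] at h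
    exact h

/-- `(r, t) = (r + 1, t) = (r, t + 1) = (r + 1, t + 1) = 0` -/
lemma s_pair (hn : 0 < ℓ) (hodd : Odd ℓ) (hζ : IsPrimitiveRoot ζ ℓ) {D r r1 a t t1 b : Mˣ}
    (h1 : (r1 : M) = r + 1) (ha : D * (r * r1) = a ^ ℓ)
    (h2 : (t1 : M) = t + 1) (hb : D * (t * t1) = b ^ ℓ) :
    symCl hn hζ r t = 1 ∧ symCl hn hζ r1 t = 1 ∧ symCl hn hζ r t1 = 1 ∧ symCl hn hζ r1 t1 = 1 := by
  obtain ⟨rD, r1D⟩ := s_D hn hodd hζ h1 ha
  obtain ⟨tD, t1D⟩ := s_D hn hodd hζ h2 hb
  have Dt := s_swap1 hn hζ tD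
  have Dt1 := s_swap1 hn hζ t1D
  -- (r+1, t) = - (r, t)
  have e1 : symCl hn hζ r1 t = (symCl hn hζ r t)⁻¹ := by
    have h := s_pow_left hn hζ t a
    rw [← ha, symCl_mul_left, symCl_mul_left, Dt, one_mul] at h
    exact eq_inv_of_mul_eq_one_right h
  have e2 : symCl hn hζ r t1 = (symCl hn hζ r t)⁻¹ := by
    have h := s_pow_right hn hζ r b
    rw [← hb, symCl_mul_right, symCl_mul_right, rD, one_mul] at h
    exact eq_inv_of_mul_eq_one_right h
  have e3 : symCl hn hζ r1 t1 = symCl hn hζ r t := by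
    have h := s_pow_right hn hζ r1 b
    rw [← hb, symCl_mul_right, symCl_mul_right, r1D, one_mul, e1] at h
    rw [eq_inv_of_mul_eq_one_right h, inv_inv]
  have key : symCl hn hζ r t = 1 := by
    rcases eq_or_ne r t with h | h
    · rw [h, s_self hn hodd]
    · have hw : (t : M) - r ≠ 0 := by
        intro h0
        exact h (Units.ext (sub_eq_zero.1 h0).symm)
      obtain ⟨w, hw'⟩ : ∃ w : Mˣ, (w : M) = t - r := ⟨Units.mk0 _ hw, rfl⟩
      have gen : ∀ p q : Mˣ, (w : M) = q - p → symCl hn hζ w p * (symCl hn hζ w q)⁻¹ = symCl hn hζ q p := by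
        intro p q hpq
        have hq : (q : M) ≠ 0 := q.ne_zero
        have h3 := symCl_steinberg hn hζ (p * q⁻¹) (w * q⁻¹) (by
          rw [Units.val_mul, Units.val_mul, Units.val_inv_eq_inv_val, hpq]
          field_simp)
        rw [symCl_mul_left, symCl_mul_right, symCl_mul_right, s_inv_left, s_inv_left, symCl_inv_right,
          symCl_inv_right, s_self hn hodd, inv_one, inv_one, mul_one] at h3
        exact (mul_inv_eq_one.1 h3)
      have k1 := gen r t hw'
      have k2 := gen r1 t1 (by rw [hw', h1, h2]; ring)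
      have k3 : symCl hn hζ w r * symCl hn hζ w r1 = (symCl hn hζ w D)⁻¹ := by
        have h := s_pow_right hn hζ w a
        rw [← ha, symCl_mul_right, symCl_mul_right] at h
        exact eq_inv_of_mul_eq_one_right h
      have k4 : symCl hn hζ w t * symCl hn hζ w t1 = (symCl hn hζ w D)⁻¹ := by
        have h := s_pow_right hn hζ w b
        rw [← hb, symCl_mul_right, symCl_mul_right] at h
        exact eq_inv_of_mul_eq_one_right h
      have k5 : symCl hn hζ t r * symCl hn hζ t1 r1 = 1 := by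
        rw [← k1, ← k2]
        calc symCl hn hζ w r * (symCl hn hζ w t)⁻¹ * (symCl hn hζ w r1 * (symCl hn hζ w t1)⁻¹)
            = (symCl hn hζ w r * symCl hn hζ w r1) * (symCl hn hζ w t * symCl hn hζ w t1)⁻¹ := by
              rw [mul_inv]
              exact mul_mul_mul_comm _ _ _ _
          _ = 1 := by rw [k3, k4, mul_inv_cancel]
      have k6 : symCl hn hζ t1 r1 = symCl hn hζ t r := by
        rw [symCl_anti hn hζ t1 r1, e3, ← symCl_anti]
      rw [k6] at k5
      have k7 : symCl hn hζ t r ^ 2 = 1 := by rw [pow_two]; exact k5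
      have k8 := s_tors hn hζ t r
      obtain ⟨c, hc⟩ := hodd
      have k9 : symCl hn hζ t r = 1 := by
        generalize symCl hn hζ t r = σ at k7 k8 ⊢
        rw [hc, pow_add, pow_mul, pow_one, k7, one_pow, one_mul] at k8
        exact k8
      exact s_swap1 hn hζ k9
  rw [key] at e1 e2 e3
  rw [inv_one] at e1 e2
  exact ⟨key, e1, e2, e3⟩

lemma s_quot (hn : 0 < ℓ) (hodd : Odd ℓ) (hζ : IsPrimitiveRoot ζ ℓ) {D r r1 a t t1 b : Mˣ}
    (h1 : (r1 : M) = r + 1) (ha : D * (r * r1) = a ^ ℓ)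
    (h2 : (t1 : M) = t + 1) (hb : D * (t * t1) = b ^ ℓ) :
    symCl hn hζ (r1 * r⁻¹) (t1 * t⁻¹) = 1 := by
  obtain ⟨e1, e2, e3, e4⟩ := s_pair hn hodd hζ h1 ha h2 hb
  rw [symCl_mul_left, symCl_mul_right, symCl_mul_right, s_inv_left, s_inv_left, symCl_inv_right,
    symCl_inv_right, e1, e2, e3, e4]
  simp

lemma s_quotD (hn : 0 < ℓ) (hodd : Odd ℓ) (hζ : IsPrimitiveRoot ζ ℓ) {D r r1 a : Mˣ}
    (h1 : (r1 : M) = r + 1) (ha : D * (r * r1) = a ^ ℓ) :
    symCl hn hζ (r1 * r⁻¹) D = 1 := by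
  obtain ⟨e1, e2⟩ := s_D hn hodd hζ h1 ha
  rw [symCl_mul_left, s_inv_left, e1, e2]
  simp

end sym

section roots

variable {M : Type} [Field M]

lemma prod_aux (N : Subgroup Mˣ) (R : Multiset M) : (∀ r ∈ R, r ≠ 0 ∧ r + 1 ≠ 0 ∧
    ∀ r' r1 : Mˣ, (r' : M) = r → (r1 : M) = r + 1 → r1 * r'⁻¹ ∈ N) → ∀ x : Mˣ,
    (x : M) * (R.map (fun r => 0 - r)).prod = (R.map (fun r => -1 - r)).prod → x ∈ N := by
  induction R using Multiset.induction_on with
  | empty =>
    intro _ x hx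
    rw [Multiset.map_zero, Multiset.map_zero, Multiset.prod_zero, mul_one] at hx
    have : x = 1 := Units.ext hx
    rw [this]
    exact one_mem _
  | cons r R ih =>
    intro hR x hx
    obtain ⟨h0, h1, h2⟩ := hR r (Multiset.mem_cons_self r R)
    obtain ⟨r', hr'⟩ : ∃ r' : Mˣ, (r' : M) = r := ⟨Units.mk0 r h0, rfl⟩
    obtain ⟨r1, hr1⟩ : ∃ r1 : Mˣ, (r1 : M) = r + 1 := ⟨Units.mk0 _ h1, rfl⟩
    have h3 := h2 r' r1 hr' hr1
    have h4 := ih (fun s hs => hR s (Multiset.mem_cons_of_mem hs)) (x * (r1 * r'⁻¹)⁻¹) (by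
      rw [Multiset.map_cons, Multiset.map_cons, Multiset.prod_cons, Multiset.prod_cons] at hx
      rw [Units.val_mul, Units.val_inv_eq_inv_val, Units.val_mul, Units.val_inv_eq_inv_val, hr', hr1]
      generalize (R.map (fun r => 0 - r)).prod = A at hx ⊢
      generalize (R.map (fun r => -1 - r)).prod = B at hx ⊢
      field_simp
      linear_combination -hx)
    have h5 : x = x * (r1 * r'⁻¹)⁻¹ * (r1 * r'⁻¹) := by rw [inv_mul_cancel_right]
    rw [h5]
    exact mul_mem h4 h3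

variable {k : Type} [Field k] [Algebra k M]

lemma adm_roots {ℓ : ℕ} {δ : k} {U : k[X]} (hU : Adm ℓ δ U) (hs : (U.map (algebraMap k M)).Splits) (r : M)
    (hr : aeval r U = 0) : r ≠ 0 ∧ r + 1 ≠ 0 ∧ ∃ s : M, s ^ ℓ = algebraMap k M δ * (r * (r + 1)) := by
  obtain ⟨hm, hd, h0, h1, hA⟩ := hU
  refine ⟨?_, ?_, ?_⟩
  · rintro rfl
    apply h0
    have : aeval (algebraMap k M 0) U = algebraMap k M (U.eval 0) := aeval_algebraMap_apply_eq_algebraMap_eval _ _
    rw [map_zero] at this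
    rw [this] at hr
    exact (map_eq_zero _).1 hr
  · intro h
    apply h1
    have h2 : r = algebraMap k M (-1) := by
      rw [map_neg, map_one]
      exact eq_neg_of_add_eq_zero_left h
    rw [h2, aeval_algebraMap_apply_eq_algebraMap_eval] at hr
    exact (map_eq_zero _).1 hr
  · have hU0 : U ≠ 0 := hm.ne_zero
    have h2 : r ∈ U.rootSet M := by
      rw [mem_rootSet]
      exact ⟨hU0, hr⟩
    rw [← (SplittingField.splits U).image_rootSet (SplittingField.lift U hs)] at h2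
    obtain ⟨r', hr', rfl⟩ := h2
    rw [mem_rootSet] at hr'
    obtain ⟨s, hs'⟩ := hA r' hr'.2
    refine ⟨SplittingField.lift U hs s, ?_⟩
    rw [← map_pow, hs', map_mul, map_mul, map_add, map_one, AlgHom.commutes]

lemma gen_mem {ℓ : ℕ} {δ : kˣ} {U : k[X]} (hU : Adm ℓ (δ : k) U) (hs : (U.map (algebraMap k M)).Splits)
    {x : kˣ} (hx : (x : k) * U.eval 0 = U.eval (-1)) (N : Subgroup Mˣ)
    (hN : ∀ r r1 a : Mˣ, (r1 : M) = r + 1 → ι M δ * (r * r1) = a ^ ℓ → r1 * r⁻¹ ∈ N) (hℓ : ℓ ≠ 0) :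
    ι M x ∈ N := by
  refine prod_aux N (U.aroots M) (fun r hr => ?_) (ι M x) ?_
  · have hr' : aeval r U = 0 := (mem_aroots.1 hr).2
    obtain ⟨h0, h1, s, hs'⟩ := adm_roots hU hs r hr'
    refine ⟨h0, h1, fun r' r1 h2 h3 => ?_⟩
    have hs0 : s ≠ 0 := by
      rintro rfl
      rw [zero_pow hℓ] at hs'
      have : algebraMap k M δ ≠ 0 := by
        rw [Ne, map_eq_zero]
        exact δ.ne_zero
      exact mul_ne_zero this (mul_ne_zero h0 h1) hs'.symm
    refine hN r' r1 (Units.mk0 s hs0) (by rw [h3, h2]) ?_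
    apply Units.ext
    rw [Units.val_mul, Units.val_mul, Units.val_pow_eq_pow_val, Units.val_mk0, hs', h2, h3]
    rfl
  · have e0 : (((U.aroots M).map (fun r => 0 - r)).prod : M) = algebraMap k M (U.eval 0) := by
      rw [← Splits.aeval_eq_prod_aroots_of_monic hs hU.1 0]
      have : aeval (algebraMap k M 0) U = algebraMap k M (U.eval 0) :=
        aeval_algebraMap_apply_eq_algebraMap_eval _ _
      rwa [map_zero] at this
    have e1 : (((U.aroots M).map (fun r => -1 - r)).prod : M) = algebraMap k M (U.eval (-1)) := by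
      rw [← Splits.aeval_eq_prod_aroots_of_monic hs hU.1 (-1)]
      have : aeval (algebraMap k M (-1)) U = algebraMap k M (U.eval (-1)) :=
        aeval_algebraMap_apply_eq_algebraMap_eval _ _
      rwa [map_neg, map_one] at this
    rw [e0, e1, ← hx, map_mul]
    rfl

end roots

section degree

lemma finrank_dvd {k : Type} [Field k] [CharZero k] (U : k[X]) :
    Module.finrank k U.SplittingField ∣ (U.natDegree).factorial := by
  classical
  haveI : Normal k U.SplittingField := Normal.of_isSplittingField U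
  haveI : IsGalois k U.SplittingField := ⟨⟩
  rw [← IsGalois.card_aut_eq_finrank]
  haveI : Fact ((U.map (algebraMap k U.SplittingField)).Splits) := ⟨SplittingField.splits U⟩
  have h1 := Subgroup.card_dvd_of_injective (Gal.galActionHom U U.SplittingField)
    (Gal.galActionHom_injective U U.SplittingField)
  have h2 : Nat.card (Equiv.Perm (U.rootSet U.SplittingField)) = (Nat.card (U.rootSet U.SplittingField)).factorial := by
    rw [Nat.card_eq_fintype_card, Nat.card_eq_fintype_card, Fintype.card_perm]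
  rw [h2] at h1
  refine h1.trans (Nat.factorial_dvd_factorial ?_)
  exact ncard_rootSet_le U U.SplittingField

lemma not_dvd {ℓ : ℕ} (hℓ : ℓ.Prime) {k : Type} [Field k] [CharZero k] (U : k[X]) (hU : U.natDegree < ℓ) :
    ¬ ℓ ∣ Module.finrank k U.SplittingField := by
  intro h
  have := h.trans (finrank_dvd U)
  rw [hℓ.dvd_factorial] at this
  omega

end degree

theorem t_ISO (h1 : S_SYM1) : S_ISO := by
  intro ℓ hℓ hℓ2 k _ _ ζ hζ δ
  have hodd : Odd ℓ := hℓ.odd_of_ne_two hℓ2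
  have hn := hℓ.pos
  have hgen : ∀ x ∈ LoGen ℓ δ, ∀ y ∈ LoGen ℓ δ, symCl hn hζ x y = 1 := by
    have hUδ : ∀ (U : k[X]), Adm ℓ (δ : k) U → ∀ x : kˣ, (x : k) * U.eval 0 = U.eval (-1) →
        symCl hn hζ x δ = 1 := by
      intro U hU x hx
      refine h1 ℓ hℓ k U.SplittingField ζ hζ x δ (not_dvd hℓ U hU.2.1) ?_
      exact gen_mem hU (SplittingField.splits U) hx (symL hn (rootK U.SplittingField hζ) (ι U.SplittingField δ)).ker
        (fun r r1 a e1 e2 => s_quotD hn hodd (rootK U.SplittingField hζ) e1 e2) hℓ.ne_zero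
    rintro x hx y hy
    rcases hx with ⟨c, rfl⟩ | hx
    · exact s_pow_left hn hζ _ _
    rcases hy with ⟨c, rfl⟩ | hy
    · exact s_pow_right hn hζ _ _
    rcases hx with rfl | ⟨U, hU, hx⟩
    · rcases hy with rfl | ⟨U, hU, hy⟩
      · exact s_self hn hodd hζ _
      · exact s_swap1 hn hζ (hUδ U hU y hy)
    rcases hy with rfl | ⟨V, hV, hy⟩
    · exact hUδ U hU x hx
    -- two polynomials
    let M1 : Type := U.SplittingField
    let V1 : M1[X] := V.map (algebraMap k M1)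
    let M2 : Type := V1.SplittingField
    haveI : FiniteDimensional k M2 := FiniteDimensional.trans k M1 M2
    have hdeg : ¬ ℓ ∣ Module.finrank k M2 := by
      rw [← Module.finrank_mul_finrank k M1 M2, hℓ.dvd_mul, not_or]
      refine ⟨not_dvd hℓ U hU.2.1, not_dvd hℓ V1 ?_⟩
      have : V1.natDegree ≤ V.natDegree := natDegree_map_le
      exact lt_of_le_of_lt this hV.2.1
    have hsU : (U.map (algebraMap k M2)).Splits := by
      have e : U.map (algebraMap k M2) = (U.map (algebraMap k M1)).map (algebraMap M1 M2) := by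
        rw [Polynomial.map_map, ← IsScalarTower.algebraMap_eq]
      rw [e]
      exact (SplittingField.splits U).map _
    have hsV : (V.map (algebraMap k M2)).Splits := by
      have e : V.map (algebraMap k M2) = V1.map (algebraMap M1 M2) := by
        show _ = (V.map (algebraMap k M1)).map (algebraMap M1 M2)
        rw [Polynomial.map_map, ← IsScalarTower.algebraMap_eq]
      rw [e]
      exact SplittingField.splits V1
    refine h1 ℓ hℓ k M2 ζ hζ x y hdeg ?_
    refine gen_mem hU hsU hx (symL hn (rootK M2 hζ) (ι M2 y)).ker (fun r r1 a e1 e2 => ?_) hℓ.ne_zero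
    exact gen_mem hV hsV hy (symR hn (rootK M2 hζ) (r1 * r⁻¹)).ker
      (fun t t1 b e3 e4 => s_quot hn hodd (rootK M2 hζ) e1 e2 e3 e4) hℓ.ne_zero
  have hL : ∀ y ∈ LoGen ℓ δ, Lo ℓ δ ≤ (symL hn hζ y).ker := by
    intro y hy
    rw [Lo, Subgroup.closure_le]
    exact fun x hx => hgen x hx y hy
  have hR : ∀ x ∈ Lo ℓ δ, Lo ℓ δ ≤ (symR hn hζ x).ker := by
    intro x hx
    conv_lhs => rw [Lo]
    rw [Subgroup.closure_le]
    exact fun y hy => hL y hy hx
  intro x hx y hy
  exact hR x hx hy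

end Pool.Agent.T3h73.SL.Iso
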