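import Mathlib
import Pool.Agent.H552R3.SymFinal

/-! Split central simple algebras are matrix algebras. -/

set_option autoImplicit false
set_option linter.all false

open scoped TensorProduct

noncomputable section

namespace Pool.Agent.T3h73.SL.H60

open Pool.Agent.Helper346.Bra Pool.Agent.Helper18.Br Pool.Agent.H552R3.SymBr

universe u

variable {K : Type u} [Field K]

theorem split {A : Type u} [Ring A] [Algebra K A] [Algebra.IsCentral K A] [IsSimpleRing A]
    [FiniteDimensional K A] (h : brauerClass K A = 1) {N : ℕ} (hN : Module.finrank K A = N ^ 2) :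
    Nonempty (A ≃ₐ[K] Matrix (Fin N) (Fin N) K) := by
  haveI := IsArtinianRing.of_finite K A
  obtain ⟨t, ht, D', _, _, _, ⟨e⟩⟩ := IsSimpleRing.exists_algEquiv_matrix_divisionRing_finite K A
  obtain ⟨p, q, hp, hq, ⟨f⟩⟩ := brauerClass_eq_one_iff.1 h
  have g : Matrix (Fin (p * t)) (Fin (p * t)) D' ≃ₐ[K] Matrix (Fin q) (Fin q) K :=
    (Matrix.reindexAlgEquiv K _ finProdFinEquiv).symm.trans
      ((Matrix.compAlgEquiv _ _ _ _).symm.trans (e.symm.mapMatrix.trans f))
  have hs := size_eq g.toRingEquiv
  have ht0 : 0 < t := Nat.pos_of_ne_zero ht.out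
  have hd : Module.finrank K D' = 1 := by
    have h2 := g.toLinearEquiv.finrank_eq
    rw [Module.finrank_matrix, Module.finrank_matrix, hs, Fintype.card_fin, Module.finrank_self] at h2
    exact Nat.eq_of_mul_eq_mul_left (Nat.mul_pos (Nat.pos_of_ne_zero hq) (Nat.pos_of_ne_zero hq)) h2
  have hb : Function.Bijective (Algebra.ofId K D') := by
    have hinj : Function.Injective (Algebra.ofId K D') := (Algebra.ofId K D').toRingHom.injective
    refine ⟨hinj, ?_⟩
    exact (LinearMap.injective_iff_surjective_of_finrank_eq_finrank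
      (f := (Algebra.ofId K D').toLinearMap) (by rw [hd, Module.finrank_self])).1 hinj
  have e2 : A ≃ₐ[K] Matrix (Fin t) (Fin t) K :=
    e.trans (AlgEquiv.ofBijective (Algebra.ofId K D') hb).symm.mapMatrix
  have h3 := e2.toLinearEquiv.finrank_eq
  rw [Module.finrank_matrix, hN, Module.finrank_self, Fintype.card_fin, mul_one, ← sq] at h3
  have h4 : N = t := Nat.pow_left_injective (n := 2) (by norm_num) h3
  subst h4
  exact ⟨e2⟩

end Pool.Agent.T3h73.SL.H60
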