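import Mathlib
import Pool.Agent.T3h73.SL.Stm
import Pool.Agent.T3h73.SL.H60Split

/-! NRM: if the symbol of `a` and `b` is trivial, `b` is a norm from `k(a ^ (1/ℓ))`. -/

set_option autoImplicit false
set_option linter.all false

open scoped TensorProduct
open Polynomial

noncomputable section

namespace Pool.Agent.T3h73.SL.Nrm

open Pool.Agent.Helper346.Bra Pool.Agent.Helper18.Br Pool.Agent.H552R3.SymBr
open Pool.Agent.T3h73.SL

theorem exists_ev {k : Type} [Field k] (f : k[X]) {A : Type} [Ring A] [Algebra k A] (x : A)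
    (h : aeval x f = 0) :
    ∃ ev : AdjoinRoot f →ₐ[k] A, ∀ p : k[X], ev (AdjoinRoot.mk f p) = aeval x p := by
  refine ⟨Ideal.Quotient.liftₐ (Ideal.span {f}) (aeval x) ?_, fun p => rfl⟩
  intro p hp
  obtain ⟨q, rfl⟩ := Ideal.mem_span_singleton.1 hp
  rw [map_mul, h, zero_mul]

theorem key {ℓ : ℕ} (hℓ : ℓ.Prime) {k : Type} [Field k] {ζ : k} (hζ : IsPrimitiveRoot ζ ℓ)
    {b : k} {V : Type} [AddCommGroup V] [Module k V] [FiniteDimensional k V]
    (hV : Module.finrank k V = ℓ) (y : Module.End k V) (hy : y ^ ℓ = algebraMap k _ b)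
    {E : Type} [Field E] [Algebra k E] [IsGalois k E] [FiniteDimensional k E]
    (hfr : Module.finrank k E = ℓ) (α : E) (hα : α ≠ 0) (σ : E ≃ₐ[k] E) (hσ : σ α = ζ • α)
    (ev : E →ₐ[k] Module.End k V) (hsemi : ∀ e, y * ev e = ev (σ e) * y) :
    ∃ c : E, Algebra.norm k c = b := by
  -- the vector
  have hVpos : 0 < Module.finrank k V := by rw [hV]; exact hℓ.pos
  haveI : Nontrivial V := Module.nontrivial_of_finrank_pos hVpos
  obtain ⟨w, hw⟩ := exists_ne (0 : V)
  let L : E →ₗ[k] V :=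
    { toFun := fun e => ev e w
      map_add' := fun e f => by rw [map_add, LinearMap.add_apply]
      map_smul' := fun c e => by rw [map_smul, LinearMap.smul_apply, RingHom.id_apply] }
  have hL : ∀ e, L e = ev e w := fun _ => rfl
  have hLi : Function.Injective L := by
    rw [← LinearMap.ker_eq_bot, LinearMap.ker_eq_bot']
    intro e he
    by_contra hne
    apply hw
    have h1 : ev e⁻¹ (ev e w) = w := by
      rw [← Module.End.mul_apply, ← map_mul, inv_mul_cancel₀ hne, map_one, Module.End.one_apply]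
    rw [← h1, ← hL, he, map_zero]
  have hLs : Function.Surjective L :=
    (LinearMap.injective_iff_surjective_of_finrank_eq_finrank (by rw [hfr, hV])).1 hLi
  obtain ⟨c, hc⟩ := hLs (y w)
  rw [hL] at hc
  -- powers of `y`
  have hpow : ∀ n : ℕ, (y ^ n) w = ev (∏ i ∈ Finset.range n, (σ ^ i) c) w := by
    intro n
    induction n with
    | zero => rw [pow_zero, Finset.prod_range_zero, map_one]
    | succ n ih =>
      have h1 : (∏ i ∈ Finset.range (n + 1), (σ ^ i) c) =
          σ (∏ i ∈ Finset.range n, (σ ^ i) c) * c := by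
        rw [Finset.prod_range_succ', map_prod, pow_zero]
        congr 1
        refine Finset.prod_congr rfl fun i _ => ?_
        rw [pow_succ', AlgEquiv.mul_apply]
      rw [pow_succ', Module.End.mul_apply, ih, ← Module.End.mul_apply, hsemi, h1, map_mul,
        Module.End.mul_apply, Module.End.mul_apply, hc]
  have hb : (∏ i ∈ Finset.range ℓ, (σ ^ i) c) = algebraMap k _ b := by
    apply hLi
    rw [hL, hL, ← hpow, hy, AlgHom.commutes]
  refine ⟨c, (algebraMap k E).injective ?_⟩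
  rw [← hb, Algebra.norm_eq_prod_automorphisms]
  -- the automorphisms are the powers of `σ`
  have hσi : ∀ i : ℕ, (σ ^ i) α = ζ ^ i • α := by
    intro i
    induction i with
    | zero => rw [pow_zero, pow_zero, one_smul, AlgEquiv.one_apply]
    | succ i ih => rw [pow_succ', AlgEquiv.mul_apply, ih, map_smul, hσ, smul_smul, pow_succ]
  have hinj : Function.Injective (fun i : Fin ℓ => σ ^ (i : ℕ)) := by
    intro i j hij
    have h1 := congrArg (fun τ : E ≃ₐ[k] E => τ α) hij
    simp only [hσi] at h1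
    have h2 := smul_left_injective k hα h1
    exact Fin.ext (hζ.pow_inj i.2 j.2 h2)
  have hcard : Fintype.card (Fin ℓ) = Fintype.card (E ≃ₐ[k] E) := by
    rw [Fintype.card_fin, ← Nat.card_eq_fintype_card, IsGalois.card_aut_eq_finrank, hfr]
  have hbij := (Fintype.bijective_iff_injective_and_card _).2 ⟨hinj, hcard⟩
  rw [← hbij.prod_comp (fun τ => τ c), Finset.prod_range]

theorem key2 {ℓ : ℕ} (hℓ : ℓ.Prime) {k : Type} [Field k] {ζ : k} (hζ : IsPrimitiveRoot ζ ℓ)
    {a b : k} (ha0 : a ≠ 0) (hirr : Irreducible (X ^ ℓ - C a : k[X])) {V : Type} [AddCommGroup V]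
    [Module k V] [FiniteDimensional k V] (hV : Module.finrank k V = ℓ) (x y : Module.End k V)
    (hx : x ^ ℓ = algebraMap k _ a) (hy : y ^ ℓ = algebraMap k _ b) (hyx : y * x = ζ • (x * y)) :
    ∃ c : AdjoinRoot (X ^ ℓ - C a : k[X]), Algebra.norm k c = b := by
  obtain ⟨ev, hev⟩ := exists_ev (X ^ ℓ - C a : k[X]) x
    (by rw [map_sub, map_pow, aeval_X, aeval_C, hx, sub_self])
  haveI : Fact (Irreducible (X ^ ℓ - C a : k[X])) := ⟨hirr⟩
  haveI : NeZero ℓ := ⟨hℓ.pos.ne'⟩
  have hprim : (primitiveRoots ℓ k).Nonempty := ⟨ζ, (mem_primitiveRoots hℓ.pos).2 hζ⟩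
  haveI : IsSplittingField k (AdjoinRoot (X ^ ℓ - C a : k[X])) (X ^ ℓ - C a) :=
    isSplittingField_AdjoinRoot_X_pow_sub_C hprim hirr
  haveI : IsGalois k (AdjoinRoot (X ^ ℓ - C a : k[X])) :=
    isGalois_of_isSplittingField_X_pow_sub_C hprim hirr _
  have hfr : Module.finrank k (AdjoinRoot (X ^ ℓ - C a : k[X])) = ℓ :=
    finrank_of_isSplittingField_X_pow_sub_C hprim hirr _
  haveI : FiniteDimensional k (AdjoinRoot (X ^ ℓ - C a : k[X])) :=
    FiniteDimensional.of_finrank_pos (by rw [hfr]; exact hℓ.pos)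
  -- the automorphism
  obtain ⟨σ, hσ⟩ : ∃ σ : AdjoinRoot (X ^ ℓ - C a : k[X]) ≃ₐ[k] AdjoinRoot (X ^ ℓ - C a : k[X]),
      σ (AdjoinRoot.root _) = ζ • AdjoinRoot.root _ := by
    refine ⟨autAdjoinRootXPowSubC ℓ a (rootsOfUnity.mkOfPowEq ζ hζ.pow_eq_one), ?_⟩
    rw [autAdjoinRootXPowSubC_root]
    rfl
  have hroot : AdjoinRoot.root (X ^ ℓ - C a : k[X]) ≠ 0 := by
    intro h0
    have h1 := AdjoinRoot.eval₂_root (X ^ ℓ - C a : k[X])
    rw [h0, eval₂_sub, eval₂_pow, eval₂_X, eval₂_C, zero_pow hℓ.pos.ne', zero_sub, neg_eq_zero] at h1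
    exact ha0 ((AdjoinRoot.of (X ^ ℓ - C a : k[X])).injective (by rw [h1, map_zero]))
  refine key hℓ hζ hV y hy hfr (AdjoinRoot.root _) hroot σ hσ ev ?_
  intro e
  induction e using AdjoinRoot.induction_on with
  | ih p =>
    induction p using Polynomial.induction_on' with
    | add p q hp hq => rw [map_add, map_add, map_add, map_add, mul_add, add_mul, hp, hq]
    | monomial n c =>
      have h1 : AdjoinRoot.mk (X ^ ℓ - C a : k[X]) (monomial n c) =
          c • AdjoinRoot.root (X ^ ℓ - C a : k[X]) ^ n := by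
        rw [← C_mul_X_pow_eq_monomial, map_mul, map_pow, AdjoinRoot.mk_X, AdjoinRoot.mk_C,
          Algebra.smul_def, AdjoinRoot.algebraMap_eq]
      have h2 : ev (AdjoinRoot.root (X ^ ℓ - C a : k[X])) = x := by
        rw [← AdjoinRoot.mk_X, hev, aeval_X]
      rw [h1, map_smul, map_smul, map_smul, map_pow, map_pow, map_pow, hσ, h2, map_smul, h2,
        _root_.smul_pow, mul_smul_comm, y_xpow hyx, smul_mul_assoc, smul_mul_assoc]

theorem t_NRM : S_NRM := by
  intro ℓ hℓ k _ ζ hζ a b ha h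
  have hcsa := symb_csa ℓ hℓ.pos ζ (a : k) (b : k) hζ (n_ne_zero hℓ.pos hζ) a.ne_zero b.ne_zero
  haveI : Algebra.IsCentral k (Symb k ℓ ζ (a : k) (b : k)) := hcsa.1
  haveI : IsSimpleRing (Symb k ℓ ζ (a : k) (b : k)) := hcsa.2.1
  haveI : FiniteDimensional k (Symb k ℓ ζ (a : k) (b : k)) := hcsa.2.2.1
  obtain ⟨e⟩ := H60.split (A := Symb k ℓ ζ (a : k) (b : k)) h (N := ℓ) hcsa.2.2.2
  have hirr : Irreducible (X ^ ℓ - C (a : k) : k[X]) := by
    refine X_pow_sub_C_irreducible_of_prime hℓ fun c hc => ha ?_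
    have hc0 : c ≠ 0 := by
      rintro rfl
      rw [zero_pow hℓ.pos.ne'] at hc
      exact a.ne_zero hc.symm
    exact ⟨Units.mk0 c hc0, Units.ext hc.symm⟩
  let φ := e.trans (Matrix.toLinAlgEquiv' (R := k) (n := Fin ℓ))
  refine key2 hℓ hζ (b := (b : k)) a.ne_zero hirr (V := Fin ℓ → k) (by rw [Module.finrank_fin_fun])
    (φ (gx k ℓ ζ a b)) (φ (gy k ℓ ζ a b)) ?_ ?_ ?_
  · rw [← map_pow, gx_pow, AlgEquiv.commutes]
  · rw [← map_pow, gy_pow, AlgEquiv.commutes]
  · rw [← map_mul, gyx, map_smul, map_mul]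

end Pool.Agent.T3h73.SL.Nrm
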