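import Mathlib
import Pool.Agent.T3h73.SL.Stm
import Pool.Agent.T3h73.SL.H60Split

/-! SYM1: a symbol of prime degree which is trivial over an extension of degree prime to `ℓ` is
trivial. -/

set_option autoImplicit false
set_option linter.all false

open scoped TensorProduct

noncomputable section

namespace Pool.Agent.T3h73.SL.Sym1

open Pool.Agent.Helper346.Bra Pool.Agent.Helper18.Br Pool.Agent.H552R3.SymBr
open Pool.Agent.T3h73.SL

/-- a division algebra which is split by an extension -/
theorem dvd_of_split {k M D : Type} [Field k] [Field M] [Algebra k M] [FiniteDimensional k M]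
    [DivisionRing D] [Algebra k D] [FiniteDimensional k D] {n : ℕ}
    (e : (M ⊗[k] D) ≃ₐ[M] Matrix (Fin n) (Fin n) M) :
    Module.finrank k D ∣ Module.finrank k M * n := by
  let ψ : D →+* Module.End M (Fin n → M) :=
    ((Matrix.toLinAlgEquiv' (R := M) (n := Fin n)).toAlgHom.toRingHom.comp e.toAlgHom.toRingHom).comp
      (Algebra.TensorProduct.includeRight (R := k) (A := M) (B := D)).toRingHom
  have hψ : ∀ (c : k) (d : D) (v : Fin n → M), ψ (c • d) v = c • ψ d v := by
    intro c d v
    have h1 : (1 : M) ⊗ₜ[k] (c • d) = (algebraMap k M c) • ((1 : M) ⊗ₜ[k] d) := by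
      rw [TensorProduct.smul_tmul', TensorProduct.tmul_smul, TensorProduct.smul_tmul', Algebra.smul_def,
        smul_eq_mul]
    show Matrix.toLinAlgEquiv' (e ((1 : M) ⊗ₜ[k] (c • d))) v =
      c • Matrix.toLinAlgEquiv' (e ((1 : M) ⊗ₜ[k] d)) v
    rw [h1, map_smul, map_smul, LinearMap.smul_apply, algebraMap_smul]
  let _ : Module D (Fin n → M) := Module.compHom (Fin n → M) ψ
  have hsm : ∀ (d : D) (v : Fin n → M), d • v = ψ d v := fun _ _ => rfl
  have : IsScalarTower k D (Fin n → M) := ⟨fun c d v => by rw [hsm, hsm, hψ]⟩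
  have h1 := Module.finrank_mul_finrank k D (Fin n → M)
  have h2 : Module.finrank k (Fin n → M) = Module.finrank k M * n := by
    rw [← Module.finrank_mul_finrank k M (Fin n → M), Module.finrank_fin_fun]
  rw [h2] at h1
  exact ⟨_, h1.symm⟩

theorem t_SYM1 : S_SYM1 := by
  intro ℓ hℓ k M _ _ _ _ ζ hζ a b hdiv h
  have hres : res M (symCl hℓ.pos hζ a b) = 1 := (res_symCl hℓ.pos hζ a b).trans h
  obtain ⟨D, _, _, _, _, hD⟩ := exists_div (symCl hℓ.pos hζ a b)
  obtain ⟨m, hm⟩ := finrank_square (K := k) D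
  have hdvd := (hasRep_symCl hℓ.pos hζ a b).indDvd D hD
  rw [hm, Nat.sqrt_eq'] at hdvd
  rcases (Nat.dvd_prime hℓ).1 hdvd with rfl | rfl
  · rw [one_pow] at hm
    have hb : Function.Bijective (Algebra.ofId k D) := by
      have hinj : Function.Injective (Algebra.ofId k D) := (Algebra.ofId k D).toRingHom.injective
      refine ⟨hinj, ?_⟩
      exact (LinearMap.injective_iff_surjective_of_finrank_eq_finrank
        (f := (Algebra.ofId k D).toLinearMap) (by rw [hm, Module.finrank_self])).1 hinj
    rw [← hD]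
    exact brauerClass_eq_one_iff.2 (BrEq.of_equiv (AlgEquiv.ofBijective _ hb).symm)
  · exfalso
    haveI : IsSimpleRing (M ⊗[k] D) := isSimple_base k M D
    haveI : Algebra.IsCentral M (M ⊗[k] D) := isCentral_base k M D
    have h1 : brauerClass M (M ⊗[k] D) = 1 := by
      rw [← hD] at hres
      exact hres
    obtain ⟨e⟩ := H60.split h1 (N := m) (by rw [Module.finrank_baseChange, hm])
    have h2 := dvd_of_split e
    rw [hm, sq] at h2
    exact hdiv (Nat.dvd_of_mul_dvd_mul_right hℓ.pos h2)

end Pool.Agent.T3h73.SL.Sym1
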