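import Pool.Agent.T3h73.SL.Stm2
import Pool.Agent.T3h73.SL.D.Fac

/-! Project SL, task DIM: ideals of small degree. -/

set_option autoImplicit false
set_option linter.all false

open Polynomial IsDedekindDomain

namespace Pool.Agent.T3h73.SL.DIM

open Pool.Agent.Y713.SE Pool.Agent.Y713.SE.Dat

section ded
variable {E A : Type} [Field E] [CommRing A] [IsDomain A] [IsDedekindDomain A] [Algebra E A]

/-- an element of `I` generating `I` modulo `I * J` -/
lemma exists_gen {I J : Ideal A} (hI : I ≠ ⊥) (hJ : J ≠ ⊥) :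
    ∃ a ∈ I, ∀ x, a * x ∈ I * J → x ∈ J := by
  have hIJ : I * J ≠ ⊥ := by
    rw [← Ideal.zero_eq_bot] at *
    exact mul_ne_zero hI hJ
  have hle : I * J ≤ I := Ideal.mul_le_inf.trans inf_le_left
  obtain ⟨a, ha⟩ := IsDedekindDomain.exists_sup_span_eq hle (by rwa [Ne, Ideal.zero_eq_bot])
  have haI : a ∈ I := by
    rw [← ha]
    exact Ideal.mem_sup_right (Ideal.mem_span_singleton_self a)
  refine ⟨a, haI, fun x hx => ?_⟩
  obtain ⟨K', hK⟩ := Ideal.dvd_iff_le.2 ((Ideal.span_singleton_le_iff_mem I).2 haI)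
  have h1 : J ⊔ K' = ⊤ := by
    have h2 : I * (J ⊔ K') = I * ⊤ := by
      rw [Ideal.mul_sup, ← hK, ha, Ideal.mul_top]
    exact mul_left_cancel₀ (by rwa [Ideal.zero_eq_bot]) h2
  have h3 : K' * Ideal.span {x} ≤ J := by
    rw [← Ideal.dvd_iff_le]
    have h4 : I * J ∣ I * (K' * Ideal.span {x}) := by
      rw [← mul_assoc, ← hK, Ideal.span_singleton_mul_span_singleton, Ideal.dvd_iff_le,
        Ideal.span_singleton_le_iff_mem]
      exact hx
    exact (mul_dvd_mul_iff_left (by rwa [Ne, Ideal.zero_eq_bot])).1 h4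
  have h5 : Ideal.span {x} ≤ J := by
    calc Ideal.span {x} = (J ⊔ K') * Ideal.span {x} := by rw [h1, Ideal.top_mul]
      _ = J * Ideal.span {x} ⊔ K' * Ideal.span {x} := Ideal.sup_mul _ _ _
      _ ≤ J := sup_le (Ideal.mul_le_inf.trans inf_le_left) h3
  exact h5 (Ideal.mem_span_singleton_self x)

/-- superadditivity of the colength -/
lemma colen_mul {I J : Ideal A} (hI : I ≠ ⊥) (hJ : J ≠ ⊥) [FiniteDimensional E (A ⧸ (I * J))] :
    Module.finrank E (A ⧸ I) + Module.finrank E (A ⧸ J) ≤ Module.finrank E (A ⧸ (I * J)) := by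
  obtain ⟨a, haI, ha⟩ := exists_gen hI hJ
  have hle : I * J ≤ I := Ideal.mul_le_inf.trans inf_le_left
  -- the surjection onto `A ⧸ I`
  let p : (A ⧸ (I * J)) →ₗ[E] (A ⧸ I) := (Ideal.Quotient.factorₐ E hle).toLinearMap
  have hp : Function.Surjective p := Ideal.Quotient.factor_surjective hle
  have h1 := LinearMap.finrank_range_add_finrank_ker p
  rw [LinearMap.range_eq_top.2 hp, finrank_top] at h1
  -- the injection of `A ⧸ J` in the kernel
  let m : A →ₗ[E] (A ⧸ (I * J)) :=
    (Ideal.Quotient.mkₐ E (I * J)).toLinearMap ∘ₗ (LinearMap.mulLeft E a)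
  have hm : ∀ x, m x = Ideal.Quotient.mk (I * J) (a * x) := fun x => rfl
  have hmker : LinearMap.range m ≤ LinearMap.ker p := by
    rintro _ ⟨x, rfl⟩
    rw [LinearMap.mem_ker, hm]
    show Ideal.Quotient.factor hle (Ideal.Quotient.mk (I * J) (a * x)) = 0
    rw [Ideal.Quotient.factor_mk, Ideal.Quotient.eq_zero_iff_mem]
    exact I.mul_mem_right _ haI
  have h2 : Module.finrank E (A ⧸ J) ≤ Module.finrank E (LinearMap.range m) := by
    -- a linear map from the range onto A / J
    have hk : ∀ x, m x = 0 → x ∈ J := by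
      intro x hx
      rw [hm, Ideal.Quotient.eq_zero_iff_mem] at hx
      exact ha x hx
    have h3 : LinearMap.ker m ≤ (J.restrictScalars E) := fun x hx => hk x hx
    have e1 := m.quotKerEquivRange
    haveI : FiniteDimensional E (LinearMap.range m) := inferInstance
    haveI : FiniteDimensional E (A ⧸ LinearMap.ker m) := e1.symm.finiteDimensional
    rw [← e1.finrank_eq]
    let q : (A ⧸ LinearMap.ker m) →ₗ[E] (A ⧸ (J.restrictScalars E)) := Submodule.factor h3
    have hq : Function.Surjective q := Submodule.factor_surjective h3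
    have h4 := LinearMap.finrank_le_finrank_of_surjective hq
    exact h4
  have h3 := Submodule.finrank_mono hmker
  omega

end ded

section
variable {ℓ : ℕ} {E : Type} [Field E] (D : Dat ℓ 2 E)

lemma mem_U {n : ℕ} {E : Type} [Field E] (D : Dat ℓ n E) {I : Ideal D.A} (hI : I ≠ ⊥) :
    algebraMap E[X] D.A (D.U I) ∈ I := by
  have h1 : D.NI I ≤ I := by
    unfold NI
    have h2 : I = D.sI 0 I := (D.sI_zero I).symm
    have h3 : D.sI 0 I ∣ ∏ j ∈ Finset.range ℓ, D.sI j I :=
      Finset.dvd_prod_of_mem _ (Finset.mem_range.2 D.pos)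
    conv_rhs => rw [h2]
    exact Ideal.le_of_dvd h3
  apply h1
  rw [D.NI_eq hI]
  exact Ideal.mem_span_singleton_self _

lemma finrank_span {n : ℕ} {E : Type} [Field E] (D : Dat ℓ n E) {u : E[X]} (hu : u ≠ 0) :
    Module.finrank E (D.A ⧸ Ideal.span {algebraMap E[X] D.A u}) = ℓ * u.natDegree := by
  rw [finrank_quotient_span_eq_natDegree_norm (bas D.pos) (D.alg_ne hu),
    Algebra.norm_algebraMap_of_basis (bas D.pos), natDegree_pow, Fintype.card_fin]

lemma finite_quot {n : ℕ} {E : Type} [Field E] (D : Dat ℓ n E) {I : Ideal D.A} (hI : I ≠ ⊥) :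
    FiniteDimensional E (D.A ⧸ I) := by
  have hu := D.U_ne I
  have hpos : 0 < ℓ * (D.U I).natDegree ∨ (D.U I).natDegree = 0 := by
    rcases Nat.eq_zero_or_pos (D.U I).natDegree with h | h
    · exact Or.inr h
    · exact Or.inl (Nat.mul_pos D.pos h)
  rcases hpos with h | h
  · haveI : FiniteDimensional E (D.A ⧸ Ideal.span {algebraMap E[X] D.A (D.U I)}) := by
      apply Module.finite_of_finrank_pos
      rw [finrank_span D hu]; exact h
    have hle : Ideal.span {algebraMap E[X] D.A (D.U I)} ≤ I :=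
      (Ideal.span_singleton_le_iff_mem I).2 (mem_U D hI)
    exact Module.Finite.of_surjective (Ideal.Quotient.factorₐ E hle).toLinearMap
      (Ideal.Quotient.factor_surjective hle)
  · have h1 : D.U I = 1 := eq_one_of_monic_natDegree_zero (D.U_monic I) h
    have h2 : I = ⊤ := by
      have := mem_U D hI
      rw [h1, map_one] at this
      exact (Ideal.eq_top_iff_one I).2 this
    subst h2
    haveI : Subsingleton (D.A ⧸ (⊤ : Ideal D.A)) := Ideal.Quotient.subsingleton_iff.2 rfl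
    infer_instance

/-- conjugate ideals have the same colength -/
lemma finrank_sI {n : ℕ} {E : Type} [Field E] (D : Dat ℓ n E) (I : Ideal D.A) (j : ℕ) :
    Module.finrank E (D.A ⧸ D.sI j I) = Module.finrank E (D.A ⧸ I) := by
  have e : (D.A ⧸ I) ≃ₐ[E] (D.A ⧸ D.sI j I) :=
    Ideal.quotientEquivAlg I (D.sI j I) ((D.s j).restrictScalars E) rfl
  exact e.toLinearEquiv.finrank_eq.symm

/-- the colength is at most the degree -/
theorem colen_le {n : ℕ} {E : Type} [Field E] (D : Dat ℓ n E) {I : Ideal D.A} (hI : I ≠ ⊥) :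
    Module.finrank E (D.A ⧸ I) ≤ (D.U I).natDegree := by
  have key : ∀ k : ℕ, (∏ j ∈ Finset.range k, D.sI j I) ≠ ⊥ ∧
      k * Module.finrank E (D.A ⧸ I) ≤
        Module.finrank E (D.A ⧸ (∏ j ∈ Finset.range k, D.sI j I)) := by
    intro k
    induction k with
    | zero => 
      refine ⟨?_, by simp⟩
      rw [Finset.prod_range_zero, Ideal.one_eq_top, ← Ideal.one_eq_top]; exact one_ne_zero
    | succ k ih =>
      have hk := D.sI_ne (j := k) hI
      have hne : (∏ j ∈ Finset.range (k + 1), D.sI j I) ≠ ⊥ := by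
        rw [Finset.prod_range_succ]
        exact D.mul_ne ih.1 hk
      refine ⟨hne, ?_⟩
      rw [Finset.prod_range_succ] at hne ⊢
      haveI := finite_quot D hne
      have h1 := colen_mul (E := E) ih.1 hk
      rw [finrank_sI] at h1
      have h2 := ih.2
      rw [Nat.succ_mul]
      omega
  have h1 := (key ℓ).2
  have h2 : (∏ j ∈ Finset.range ℓ, D.sI j I) = Ideal.span {algebraMap E[X] D.A (D.U I)} :=
    D.NI_eq hI
  rw [h2, finrank_span D (D.U_ne I)] at h1
  exact Nat.le_of_mul_le_mul_left h1 D.pos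

end

lemma exists_jk {ℓ : ℕ} (hℓ : Odd ℓ) {N : ℕ} (hN : ℓ - 1 ≤ N) :
    ∃ (j : Fin ℓ) (k : ℕ), ℓ * k + 2 * (j : ℕ) = N := by
  obtain ⟨m, hm⟩ := hℓ
  have hpos : 0 < ℓ := by omega
  have h1 := Nat.div_add_mod N ℓ
  have h2 := Nat.mod_lt N hpos
  rcases Nat.even_or_odd (N % ℓ) with h | h
  · obtain ⟨t, ht⟩ := h
    exact ⟨⟨t, by omega⟩, N / ℓ, by show ℓ * (N / ℓ) + 2 * t = N; omega⟩
  · obtain ⟨t, ht⟩ := h
    have h3 : 1 ≤ N / ℓ := by
      by_contra h0
      have h4 : N / ℓ = 0 := Nat.eq_zero_of_not_pos h0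
      rw [h4, mul_zero] at h1
      omega
    refine ⟨⟨t + m + 1, by omega⟩, N / ℓ - 1, ?_⟩
    show ℓ * (N / ℓ - 1) + 2 * (t + m + 1) = N
    rw [Nat.mul_sub, mul_one]
    have h5 : ℓ ≤ ℓ * (N / ℓ) := Nat.le_mul_of_pos_right _ h3
    omega

lemma exists_lead' {ℓ : ℕ} {E : Type} [Field E] (D : Dat ℓ 2 E) {w : ℕ} {a : D.A} (ha : a ≠ 0)
    (hw : a ∈ D.Lt w) : (D.Nm a).natDegree < w := by
  obtain ⟨j0, h0, h1⟩ := D.exists_lead ha
  rw [D.natDegree_Nm h0 h1]
  apply D.of_mem_Lt hw
  rw [coeff_natDegree]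
  exact leadingCoeff_ne_zero.2 h0

theorem t_DIM : S_DIM := by
  classical
  intro ℓ E _ D c
  obtain ⟨I', hI', hI'c⟩ := exists_cl (c⁻¹)
  set d' := (D.U I').natDegree with hd'
  have h2 : ℓ ≠ 2 := by
    intro h
    apply D.hn
    rw [h]
  have hodd := D.hp.odd_of_ne_two h2
  have hjk : ∀ t : Fin (d' + 1), ∃ (j : Fin ℓ) (k : ℕ), ℓ * k + 2 * (j : ℕ) = ℓ - 1 + t :=
    fun t => exists_jk hodd (by omega)
  choose j k hjk using hjk
  have hinj : ∀ s t, j s = j t → k s = k t → s = t := by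
    intro s t h1 h2
    have h3 := hjk s
    rw [h1, h2, hjk t] at h3
    exact Fin.ext (by omega)
  let b : Fin (d' + 1) → D.A := fun t => algebraMap E[X] D.A (X ^ k t) * D.y ^ (j t : ℕ)
  let Φ : (Fin (d' + 1) → E) →ₗ[E] (D.A ⧸ I') :=
    (Ideal.Quotient.mkₐ E I').toLinearMap ∘ₗ (Fintype.linearCombination E b)
  haveI := finite_quot D hI'
  have hlt : Module.finrank E (D.A ⧸ I') < Module.finrank E (Fin (d' + 1) → E) := by
    rw [Module.finrank_fin_fun]
    exact Nat.lt_succ_of_le (colen_le D hI')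
  obtain ⟨x, hx, hx0⟩ := Submodule.exists_mem_ne_zero_of_ne_bot
    (LinearMap.ker_ne_bot_of_finrank_lt hlt)
  obtain ⟨a, ha⟩ : ∃ a : D.A, a = ∑ t, x t • b t := ⟨_, rfl⟩
  have haI : a ∈ I' := by
    rw [LinearMap.mem_ker] at hx
    have h3 : Φ x = Ideal.Quotient.mk I' a := by
      rw [ha]
      show Ideal.Quotient.mk I' (Fintype.linearCombination E b x) = _
      rw [Fintype.linearCombination_apply]
    rw [h3, Ideal.Quotient.eq_zero_iff_mem] at hx
    exact hx
  have hcb : ∀ (t : Fin (d' + 1)) (i : Fin ℓ), D.c i (b t) = if j t = i then X ^ k t else 0 := by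
    intro t i
    show D.c i (algebraMap E[X] D.A (X ^ k t) * D.y ^ (j t : ℕ)) = _
    rw [← Algebra.smul_def, map_smul]
    have h2 : D.c i (D.y ^ (j t : ℕ)) = if j t = i then 1 else 0 := cf_pow D.pos _ _
    rw [h2]
    split_ifs <;> simp
  have hsm : ∀ (r : E) (z : D.A) (i : Fin ℓ), D.c i (r • z) = C r * D.c i z := by
    intro r z i
    have : r • z = (C r : E[X]) • z := by
      rw [Algebra.smul_def, Algebra.smul_def, IsScalarTower.algebraMap_apply E E[X] D.A]
      rfl
    rw [this, map_smul, smul_eq_mul]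
  have ha0 : a ≠ 0 := by
    intro h0
    apply hx0
    funext s
    have h3 : (D.c (j s) a).coeff (k s) = x s := by
      rw [ha, map_sum, finset_sum_coeff, Finset.sum_eq_single s]
      · rw [hsm, hcb, if_pos rfl, coeff_C_mul, coeff_X_pow, if_pos rfl, mul_one]
      · intro t _ ht
        rw [hsm, hcb]
        split_ifs with h4
        · rw [coeff_C_mul, coeff_X_pow, if_neg, mul_zero]
          intro h5
          exact ht (hinj t s h4 h5.symm)
        · rw [mul_zero, coeff_zero]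
      · intro h; exact absurd (Finset.mem_univ _) h
    rw [← h3, h0, map_zero, coeff_zero]
    rfl
  have haLt : a ∈ D.Lt (ℓ + d') := by
    rw [ha]
    refine Submodule.sum_mem _ fun t _ => Submodule.smul_mem _ _ (Submodule.subset_span ?_)
    refine ⟨k t, j t, ?_, rfl⟩
    rw [hjk t]
    have := D.pos
    have := t.2
    omega
  obtain ⟨I, hI⟩ := Ideal.dvd_iff_le.2 ((Ideal.span_singleton_le_iff_mem I').2 haI)
  have hI0 : I ≠ ⊥ := by
    rintro rfl
    rw [Ideal.mul_bot] at hI
    exact D.span_ne ha0 hI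
  refine ⟨I, hI0, ?_, ?_⟩
  · have h3 := congrArg cl hI
    rw [cl_span ha0, cl_mul hI' hI0, hI'c] at h3
    exact (inv_mul_eq_one.1 h3.symm).symm
  · have h3 := D.deg_mul hI' hI0
    rw [← hI, D.natDegree_U_span ha0] at h3
    have h4 := exists_lead' D ha0 haLt
    omega

end Pool.Agent.T3h73.SL.DIM
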