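import Pool.Agent.Y713.SE.Stm

/-!
# Superelliptic curves with two finite branch points: the definition used in the statement

The Jacobian `J(L)` of the curve `y ^ ℓ = F(x)`, its cocycles, the Tate-Shafarevich group and the
statement `ShaPrimaryTrivial` that its `ℓ`-primary part is zero are defined in
`Pool.Agent.Y713.SE.Stm`; here `F = δ x (x + 1)`.
-/

set_option autoImplicit false

open NumberField Polynomial

namespace Pool.Agent.T3h73.SL.Def

/-- The `ℓ`-part of the arithmetic of the Jacobian `J` of the curve `y ^ ℓ = δ x (x + 1)` over the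
number field `K` is as small as possible:

* the `ℓ`-primary part of the Tate-Shafarevich group of `J` over `K` is zero;
* there is a point `T` of order `ℓ` in `J(K)` such that multiplication by `ℓ` is bijective on the
  quotient of `J(K)` by the subgroup generated by `T` (the group law of `J` is written as a product). By
  the theorem of Mordell and Weil this means that `J(K)` is finite and that its subgroup of elements of
  `ℓ`-power order is cyclic of order `ℓ`. -/
def Minimal (ℓ : ℕ) (K : Type) [Field K] [NumberField K] (δ : K) : Prop :=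
  Pool.Agent.Y713.Jac.ShaPrimaryTrivial ℓ (C δ * (X * (X + 1)) : K[X]) (𝓞 K) ∧
  ∃ T : Pool.Agent.Y713.Jac.J ℓ (C δ * (X * (X + 1)) : K[X]) K, T ^ ℓ = 1 ∧ T ≠ 1 ∧
    (∀ P : Pool.Agent.Y713.Jac.J ℓ (C δ * (X * (X + 1)) : K[X]) K, ∃ (b : ℕ)
      (Q : Pool.Agent.Y713.Jac.J ℓ (C δ * (X * (X + 1)) : K[X]) K), P = T ^ b * Q ^ ℓ) ∧
    ∀ (P : Pool.Agent.Y713.Jac.J ℓ (C δ * (X * (X + 1)) : K[X]) K) (b : ℕ), P ^ ℓ = T ^ b →
      ∃ a : ℕ, P = T ^ a

end Pool.Agent.T3h73.SL.Def
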