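import Pool.Agent.T3h73.SL.Stm
import Pool.Agent.Y713.SE.Glo3

/-! Project SL: statements about the coordinate ring. -/

set_option autoImplicit false
set_option linter.all false

open Polynomial

namespace Pool.Agent.T3h73.SL

open Pool.Agent.Y713.SE (Dat cl)

/-- DIM: every ideal class contains an ideal of degree less than `ℓ` -/
def S_DIM : Prop := ∀ (ℓ : ℕ) (E : Type) [Field E] (D : Dat ℓ 2 E) (c : ClassGroup D.A),
  ∃ I : Ideal D.A, I ≠ ⊥ ∧ cl I = c ∧ (D.U I).natDegree < ℓ

end Pool.Agent.T3h73.SL
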