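import Pool.Agent.T3h73.SL.Stm
import Pool.Agent.N704.PJ.Hensel

/-! # Elements close to `1` are `ℓ`-th powers in complete discretely valued fields -/

set_option autoImplicit false
set_option linter.all false

open Polynomial WithZero

namespace Pool.Agent.T3h73.SL.Near

variable {L : Type} [Field L] [Valued L (WithZero (Multiplicative ℤ))] [CompleteSpace L] [T0Space L]


lemma val_nat_le (n : ℕ) : (Valued.v : Valuation L (WithZero (Multiplicative ℤ))) (n : L) ≤ 1 := by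
  induction n with
  | zero => simp
  | succ n ih =>
    rw [Nat.cast_succ]
    exact (Valuation.map_add _ _ _).trans (max_le ih (by rw [map_one]))

/-- `1 + ℓ μ c` is an `ℓ`-th power if `μ ^ (ℓ - 1)` divides `ℓ` and `c` is small -/
theorem isP_of_near {ℓ : ℕ} (hℓ : ℓ.Prime) {μ : L} (h0 : μ ≠ 0) (hl0 : (ℓ : L) ≠ 0)
    (h1 : (Valued.v : Valuation L (WithZero (Multiplicative ℤ))) μ ≤ 1) (h2 : (Valued.v : Valuation L (WithZero (Multiplicative ℤ))) μ ^ (ℓ - 1) ≤ (Valued.v : Valuation L (WithZero (Multiplicative ℤ))) (ℓ : L)) {x : L} (hx : (Valued.v : Valuation L (WithZero (Multiplicative ℤ))) (x - 1) < (Valued.v : Valuation L (WithZero (Multiplicative ℤ))) ((ℓ : L) * μ)) :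
    ∃ y : L, y ^ ℓ = x := by
  have hlm : (ℓ : L) * μ ≠ 0 := mul_ne_zero hl0 h0
  set p : L[X] := C ((ℓ : L) * μ)⁻¹ * ((C μ * X + 1) ^ ℓ - C x) with hp
  have hc : ∀ i, ((C μ * X + 1 : L[X]) ^ ℓ).coeff i = μ ^ i * (ℓ.choose i : L) := by
    intro i
    have e : (C μ * X + 1 : L[X]) ^ ℓ = ((X + 1) ^ ℓ : L[X]).comp (C μ * X) := by simp
    rw [e, comp_C_mul_X_coeff, coeff_X_add_one_pow, mul_comm]
  have hcoef : ∀ i, p.coeff i = ((ℓ : L) * μ)⁻¹ * (μ ^ i * (ℓ.choose i : L) - if i = 0 then x else 0) := by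
    intro i
    rw [hp, coeff_C_mul, coeff_sub, hc, coeff_C]
  have c0 : p.coeff 0 = ((ℓ : L) * μ)⁻¹ * (1 - x) := by
    rw [hcoef]; simp
  have v0 : (Valued.v : Valuation L (WithZero (Multiplicative ℤ))) (p.coeff 0) < 1 := by
    rw [c0, map_mul, map_inv₀, inv_mul_lt_iff₀ (by rw [zero_lt_iff]; exact (Valuation.ne_zero_iff _).2 hlm), mul_one,
      Valuation.map_sub_swap]
    exact hx
  have c1 : p.coeff 1 = 1 := by
    rw [hcoef]
    simp only [pow_one, Nat.choose_one_right, one_ne_zero, if_false, sub_zero]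
    field_simp
  have hle : ∀ i, (Valued.v : Valuation L (WithZero (Multiplicative ℤ))) (p.coeff i) ≤ 1 := by
    intro i
    rcases Nat.eq_zero_or_pos i with rfl | hi
    · exact v0.le
    rw [hcoef, if_neg hi.ne', sub_zero]
    obtain ⟨j, rfl⟩ : ∃ j, i = j + 1 := ⟨i - 1, by omega⟩
    rcases lt_trichotomy (j + 1) ℓ with h3 | h3 | h3
    · obtain ⟨c, hc'⟩ := hℓ.dvd_choose_self hi.ne' h3
      have e : ((ℓ : L) * μ)⁻¹ * (μ ^ (j + 1) * (ℓ.choose (j + 1) : L)) = μ ^ j * (c : L) := by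
        rw [hc', pow_succ]; push_cast; field_simp
      rw [e, map_mul, map_pow]
      exact mul_le_one' (pow_le_one' h1 j) (val_nat_le c)
    · have e : ((ℓ : L) * μ)⁻¹ * (μ ^ (j + 1) * (ℓ.choose (j + 1) : L)) = (ℓ : L)⁻¹ * μ ^ j := by
        rw [h3, Nat.choose_self]
        have h5 : μ ^ ℓ = μ ^ j * μ := by rw [← h3, pow_succ]
        rw [h5]; push_cast; field_simp
      rw [e, map_mul, map_inv₀, map_pow, inv_mul_le_iff₀ (by rw [zero_lt_iff]; exact (Valuation.ne_zero_iff _).2 hl0),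
        mul_one]
      have h6 : j = ℓ - 1 := by omega
      rw [h6]; exact h2
    · rw [Nat.choose_eq_zero_of_lt h3]; simp
  obtain ⟨z, hz, -⟩ := Pool.Agent.N704.PJ.hensel p hle (a := 0) (by simp) (by
    rw [← coeff_zero_eq_eval_zero]; exact v0) (by
    rw [← coeff_zero_eq_eval_zero, coeff_derivative, zero_add, c1]; simp)
  refine ⟨μ * z + 1, ?_⟩
  rw [hp, eval_mul, eval_C, mul_eq_zero] at hz
  rcases hz with hz | hz
  · exact absurd (inv_eq_zero.1 hz) hlm
  · simpa [sub_eq_zero] using hz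

/-- if `v (x - 1) < v (ℓ ^ 2)`, `x` is an `ℓ`-th power -/
theorem isP_of_near_sq {ℓ : ℕ} (hℓ : ℓ.Prime) (hl0 : (ℓ : L) ≠ 0) {x : L}
    (hx : (Valued.v : Valuation L (WithZero (Multiplicative ℤ))) (x - 1) < (Valued.v : Valuation L (WithZero (Multiplicative ℤ))) ((ℓ : L) * ℓ)) : ∃ y : L, y ^ ℓ = x := by
  refine isP_of_near hℓ hl0 hl0 (val_nat_le ℓ) ?_ hx
  have h1 : 1 ≤ ℓ - 1 := by have := hℓ.two_le; omega
  calc (Valued.v : Valuation L (WithZero (Multiplicative ℤ))) (ℓ : L) ^ (ℓ - 1) ≤ (Valued.v : Valuation L (WithZero (Multiplicative ℤ))) (ℓ : L) ^ 1 := pow_le_pow_right_of_le_one' (val_nat_le ℓ) h1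
    _ = _ := pow_one _

end Pool.Agent.T3h73.SL.Near
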