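import Pool.Agent.T3h73.SL.Nwt

/-! Project SL (helper93): elements of a number field with given valuations outside a finite set. -/

set_option autoImplicit false
set_option linter.all false

namespace Pool.Agent.T3h73.SL.Ord

open IsDedekindDomain NumberField WithZero

variable {K : Type} [Field K] [NumberField K]

/-- the exponent of a prime in an ideal -/
noncomputable def oi (v : Pl K) (I : Ideal (𝓞 K)) : ℕ := multiplicity v.asIdeal I

lemma fin_oi (v : Pl K) {I : Ideal (𝓞 K)} (hI : I ≠ ⊥) : FiniteMultiplicity v.asIdeal I :=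
  FiniteMultiplicity.of_prime_left v.prime hI

lemma oi_mul (v : Pl K) {I J : Ideal (𝓞 K)} (hI : I ≠ ⊥) (hJ : J ≠ ⊥) :
    oi v (I * J) = oi v I + oi v J :=
  multiplicity_mul v.prime (fin_oi v (mul_ne_zero hI hJ))

lemma oi_one (v : Pl K) : oi v 1 = 0 := by
  unfold oi
  rw [multiplicity_eq_zero]
  intro h
  exact v.prime.not_unit (isUnit_of_dvd_one h)

lemma oi_pow (v : Pl K) {I : Ideal (𝓞 K)} (hI : I ≠ ⊥) (n : ℕ) : oi v (I ^ n) = n * oi v I := by
  induction n with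
  | zero => rw [pow_zero, oi_one, zero_mul]
  | succ n ih => rw [pow_succ, oi_mul v (pow_ne_zero n hI) hI, ih, Nat.succ_mul]

lemma oi_self (v : Pl K) : oi v v.asIdeal = 1 := by
  unfold oi
  exact multiplicity_self

lemma oi_zero_iff (v : Pl K) (I : Ideal (𝓞 K)) : oi v I = 0 ↔ ¬ I ≤ v.asIdeal := by
  unfold oi
  rw [multiplicity_eq_zero, Ideal.dvd_iff_le]

lemma oi_other {v w : Pl K} (h : v ≠ w) : oi v w.asIdeal = 0 := by
  rw [oi_zero_iff]
  intro h1
  apply h
  have := (w.isMaximal.eq_of_le v.isPrime.ne_top h1)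
  exact (HeightOneSpectrum.ext this).symm

open Classical in
lemma oi_prod (v : Pl K) (s : Finset (Pl K)) (n : Pl K → ℕ) :
    oi v (∏ w ∈ s, w.asIdeal ^ n w) = if v ∈ s then n v else 0 := by
  induction s using Finset.induction_on with
  | empty =>
    rw [Finset.prod_empty, oi_one, if_neg (Finset.notMem_empty v)]
  | insert a s ha ih =>
    rw [Finset.prod_insert ha, oi_mul v (pow_ne_zero _ a.ne_bot)
      (Finset.prod_ne_zero_iff.2 fun w _ => pow_ne_zero _ w.ne_bot), ih, oi_pow v a.ne_bot]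
    by_cases hva : v = a
    · subst hva
      rw [oi_self, if_neg ha, if_pos (Finset.mem_insert_self _ _)]
      ring
    · rw [oi_other hva]
      by_cases hvs : v ∈ s
      · rw [if_pos hvs, if_pos (Finset.mem_insert_of_mem hvs)]
        ring
      · rw [if_neg hvs, if_neg (by rw [Finset.mem_insert]; tauto)]
        ring

lemma oi_span (v : Pl K) {r : 𝓞 K} (hr : r ≠ 0) :
    v.valuation K (algebraMap (𝓞 K) K r) = exp (-(oi v (Ideal.span {r}) : ℤ)) := by
  rw [HeightOneSpectrum.valuation_of_algebraMap, HeightOneSpectrum.intValuation_eq_exp_neg_multiplicity v hr]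
  rfl

/-- elements with given valuations outside a large finite set -/
theorem exists_elt : ∃ T₀ : Finset (Pl K), ∀ m : Pl K → ℤ, {v | m v ≠ 0}.Finite →
    ∃ x : Kˣ, ∀ v, v ∉ T₀ → v.valuation K (x : K) = WithZero.exp (-(m v)) := by
  classical
  -- representatives of the classes
  have h1 : ∀ c : ClassGroup (𝓞 K), ∃ I : nonZeroDivisors (Ideal (𝓞 K)), ClassGroup.mk0 I = c :=
    fun c => ClassGroup.mk0_surjective c
  choose R hR using h1
  have hR0 : ∀ c, (R c : Ideal (𝓞 K)) ≠ ⊥ := fun c => nonZeroDivisors.coe_ne_zero (R c)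
  have hfin : ∀ c, {v : Pl K | oi v (R c : Ideal (𝓞 K)) ≠ 0}.Finite := by
    intro c
    have h2 := Ideal.finite_factors (hR0 c)
    refine h2.subset ?_
    intro v hv
    have hv' : oi v (R c : Ideal (𝓞 K)) ≠ 0 := hv
    rw [Ne, oi_zero_iff, not_not, ← Ideal.dvd_iff_le] at hv'
    exact hv'
  refine ⟨Finset.univ.biUnion fun c => (hfin c).toFinset, ?_⟩
  intro m hm
  set s : Finset (Pl K) := hm.toFinset with hs
  have hms : ∀ v, v ∉ s → m v = 0 := by
    intro v hv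
    by_contra h
    exact hv (hm.mem_toFinset.2 h)
  set A : Ideal (𝓞 K) := ∏ w ∈ s, w.asIdeal ^ (m w).toNat with hA
  set B : Ideal (𝓞 K) := ∏ w ∈ s, w.asIdeal ^ (-(m w)).toNat with hB
  have hA0 : A ≠ ⊥ := Finset.prod_ne_zero_iff.2 fun w _ => pow_ne_zero _ w.ne_bot
  have hB0 : B ≠ ⊥ := Finset.prod_ne_zero_iff.2 fun w _ => pow_ne_zero _ w.ne_bot
  have hAd : A ∈ nonZeroDivisors (Ideal (𝓞 K)) := mem_nonZeroDivisors_of_ne_zero hA0
  have hBd : B ∈ nonZeroDivisors (Ideal (𝓞 K)) := mem_nonZeroDivisors_of_ne_zero hB0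
  set c : ClassGroup (𝓞 K) := ClassGroup.mk0 ⟨B, hBd⟩ * (ClassGroup.mk0 ⟨A, hAd⟩)⁻¹ with hc
  have h3 : ClassGroup.mk0 (⟨A, hAd⟩ * R c) = ClassGroup.mk0 ⟨B, hBd⟩ := by
    rw [map_mul, hR c, hc]
    rw [mul_comm, inv_mul_cancel_right]
  rw [ClassGroup.mk0_eq_mk0_iff] at h3
  obtain ⟨x, y, hx, hy, hxy⟩ := h3
  have hxK : algebraMap (𝓞 K) K x ≠ 0 := by rw [Ne, FaithfulSMul.algebraMap_eq_zero_iff]; exact hx
  have hyK : algebraMap (𝓞 K) K y ≠ 0 := by rw [Ne, FaithfulSMul.algebraMap_eq_zero_iff]; exact hy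
  refine ⟨Units.mk0 (algebraMap (𝓞 K) K y / algebraMap (𝓞 K) K x) (div_ne_zero hyK hxK), ?_⟩
  intro v hv
  have hv1 : oi v (R c : Ideal (𝓞 K)) = 0 := by
    by_contra h
    apply hv
    rw [Finset.mem_biUnion]
    exact ⟨c, Finset.mem_univ _, (hfin c).mem_toFinset.2 h⟩
  have hxy' : Ideal.span {x} * (A * (R c : Ideal (𝓞 K))) = Ideal.span {y} * B := hxy
  have h4 := congrArg (oi v) hxy'
  have hsx : (Ideal.span {x} : Ideal (𝓞 K)) ≠ ⊥ := by rw [Ne, Ideal.span_singleton_eq_bot]; exact hx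
  have hsy : (Ideal.span {y} : Ideal (𝓞 K)) ≠ ⊥ := by rw [Ne, Ideal.span_singleton_eq_bot]; exact hy
  rw [oi_mul v hsx (mul_ne_zero hA0 (hR0 c)), oi_mul v hA0 (hR0 c), oi_mul v hsy hB0, hv1,
    hA, hB, oi_prod, oi_prod] at h4
  rw [Units.val_mk0, map_div₀, oi_span v hx, oi_span v hy, ← exp_sub]
  congr 1
  by_cases hvs : v ∈ s
  · rw [if_pos hvs, if_pos hvs] at h4
    have h5 : ((m v).toNat : ℤ) - ((-(m v)).toNat : ℤ) = m v := Int.toNat_sub_toNat_neg (m v)
    omega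
  · rw [if_neg hvs, if_neg hvs] at h4
    rw [hms v hvs]
    omega

end Pool.Agent.T3h73.SL.Ord
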